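import Mathlib

set_option autoImplicit false

/-!
Signed representations of `1` by large elements of the set `{P ^ α * Q ^ β}`.
-/

namespace Pool.Agent.R447.Adj

open Finset

/-- the exponential `exp (2 π i m / L)` -/
noncomputable def ex (L : ℕ) (m : ℤ) : ℂ := Complex.exp (((2 * Real.pi * m / L : ℝ) : ℂ) * Complex.I)

lemma ex_add (L : ℕ) (a b : ℤ) : ex L (a + b) = ex L a * ex L b := by
  unfold ex
  rw [← Complex.exp_add]
  congr 1
  push_cast
  ring

lemma ex_zero (L : ℕ) : ex L 0 = 1 := by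
  unfold ex
  simp

lemma ex_neg (L : ℕ) (a : ℤ) : ex L (-a) = (starRingEnd ℂ) (ex L a) := by
  unfold ex
  rw [← Complex.exp_conj]
  congr 1
  rw [map_mul, Complex.conj_I, Complex.conj_ofReal]
  push_cast
  ring

lemma ex_norm (L : ℕ) (a : ℤ) : ‖ex L a‖ = 1 := Complex.norm_exp_ofReal_mul_I _

lemma ex_mul_nat (L : ℕ) (a : ℤ) (k : ℕ) : ex L (a * k) = (ex L a) ^ k := by
  unfold ex
  rw [← Complex.exp_nat_mul]
  congr 1
  push_cast
  ring

lemma ex_pow_L {L : ℕ} (hL : 0 < L) (a : ℤ) : (ex L a) ^ L = 1 := by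
  rw [← ex_mul_nat]
  unfold ex
  rw [Complex.exp_eq_one_iff]
  refine ⟨a, ?_⟩
  have : (L : ℂ) ≠ 0 := by
    exact_mod_cast hL.ne'
  push_cast
  field_simp

lemma ex_eq_one {L : ℕ} (hL : 0 < L) {a : ℤ} (h : ex L a = 1) : (L : ℤ) ∣ a := by
  unfold ex at h
  rw [Complex.exp_eq_one_iff] at h
  obtain ⟨n, hn⟩ := h
  refine ⟨n, ?_⟩
  have hL' : (L : ℂ) ≠ 0 := by exact_mod_cast hL.ne'
  have h1 : ((2 * Real.pi * a / L : ℝ) : ℂ) = n * (2 * Real.pi) := by
    have h2 : ((2 * Real.pi * a / L : ℝ) : ℂ) * Complex.I = (n * (2 * Real.pi)) * Complex.I := by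
      rw [hn]; ring
    exact mul_right_cancel₀ Complex.I_ne_zero h2
  have h3 : (2 * Real.pi * a / L : ℝ) = n * (2 * Real.pi) := by exact_mod_cast h1
  have hL'' : (L : ℝ) ≠ 0 := by exact_mod_cast hL.ne'
  have h4 : (a : ℝ) = L * n := by
    field_simp at h3
    exact h3
  exact_mod_cast h4

lemma sum_ex {L : ℕ} (hL : 0 < L) {a : ℤ} (h : ¬ (L : ℤ) ∣ a) :
    ∑ k ∈ Finset.range L, ex L (a * k) = 0 := by
  have hne : ex L a ≠ 1 := fun h1 => h (ex_eq_one hL h1)
  simp_rw [ex_mul_nat]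
  rw [geom_sum_eq hne, ex_pow_L hL, sub_self, zero_div]

/-- `|1 + e(x)|² = 4 cos² (π x)` -/
lemma one_add_ex (L : ℕ) (a : ℤ) : ‖1 + ex L a‖ ^ 2 = 4 * Real.cos (Real.pi * a / L) ^ 2 := by
  rw [← Complex.normSq_eq_norm_sq, Complex.normSq_apply]
  unfold ex
  have h1 : (1 + Complex.exp (((2 * Real.pi * a / L : ℝ) : ℂ) * Complex.I)).re =
      1 + Real.cos (2 * Real.pi * a / L) := by
    rw [Complex.add_re, Complex.one_re, Complex.exp_ofReal_mul_I_re]
  have h2 : (1 + Complex.exp (((2 * Real.pi * a / L : ℝ) : ℂ) * Complex.I)).im =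
      Real.sin (2 * Real.pi * a / L) := by
    rw [Complex.add_im, Complex.one_im, Complex.exp_ofReal_mul_I_im, zero_add]
  rw [h1, h2]
  have h3 : 2 * Real.pi * a / L = 2 * (Real.pi * a / L) := by ring
  rw [h3, Real.cos_two_mul, Real.sin_two_mul]
  have := Real.sin_sq_add_cos_sq (Real.pi * a / L)
  nlinarith [this]

/-- The positivity of the weighted sum yields a signed representation of one. -/
lemma exists_of_pos {L : ℕ} (hL : 0 < L) (X : Finset ℕ) (hX : ∑ s ∈ X, s + 1 < L)
    (hpos : 0 < ∑ k ∈ Finset.range L, (∏ s ∈ X, Real.cos (Real.pi * ((s * k : ℕ) : ℤ) / L) ^ 2) *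
      Real.cos (2 * Real.pi * k / L)) :
    ∃ A ∈ X.powerset, ∃ B ∈ X.powerset, ∑ s ∈ A, s = ∑ s ∈ B, s + 1 := by
  by_contra hcon
  push Not at hcon
  have key : ∑ k ∈ Finset.range L, ((‖∏ s ∈ X, (1 + ex L ((s * k : ℕ) : ℤ))‖ ^ 2 : ℝ) : ℂ) *
      ex L (-(k : ℤ)) = 0 := by
    have h0 : ∀ (k : ℕ) (A : Finset ℕ), ∏ s ∈ A, ex L ((s * k : ℕ) : ℤ) =
        ex L (((∑ s ∈ A, s) * k : ℕ) : ℤ) := by
      intro k A
      induction A using Finset.induction_on with
      | empty => simp [ex_zero]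
      | insert a s ha ih =>
        rw [Finset.prod_insert ha, ih, Finset.sum_insert ha, ← ex_add]
        congr 1
        push_cast
        ring
    have h1 : ∀ k : ℕ, ∏ s ∈ X, (1 + ex L ((s * k : ℕ) : ℤ)) =
        ∑ A ∈ X.powerset, ex L (((∑ s ∈ A, s) * k : ℕ) : ℤ) := by
      intro k
      rw [Finset.prod_one_add]
      exact Finset.sum_congr rfl (fun A _ => h0 k A)
    have h2 : ∀ k : ℕ, ((‖∏ s ∈ X, (1 + ex L ((s * k : ℕ) : ℤ))‖ ^ 2 : ℝ) : ℂ) * ex L (-(k : ℤ)) =
        ∑ A ∈ X.powerset, ∑ B ∈ X.powerset,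
          ex L (((∑ s ∈ A, s : ℕ) : ℤ) * k - ((∑ s ∈ B, s : ℕ) : ℤ) * k - k) := by
      intro k
      rw [← Complex.normSq_eq_norm_sq, ← Complex.mul_conj, h1 k, map_sum, Finset.sum_mul_sum,
        Finset.sum_mul]
      apply Finset.sum_congr rfl
      intro A _
      rw [Finset.sum_mul]
      apply Finset.sum_congr rfl
      intro B _
      rw [← ex_neg, ← ex_add, ← ex_add]
      congr 1
    simp_rw [h2]
    rw [Finset.sum_comm]
    apply Finset.sum_eq_zero
    intro A hA
    rw [Finset.sum_comm]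
    apply Finset.sum_eq_zero
    intro B hB
    have h3 : ∀ k : ℕ, ex L (((∑ s ∈ A, s : ℕ) : ℤ) * k - ((∑ s ∈ B, s : ℕ) : ℤ) * k - k) =
        ex L ((((∑ s ∈ A, s : ℕ) : ℤ) - ((∑ s ∈ B, s : ℕ) : ℤ) - 1) * k) := by
      intro k
      congr 1
      ring
    simp_rw [h3]
    apply sum_ex hL
    intro hd
    have hA' : ∑ s ∈ A, s ≤ ∑ s ∈ X, s := Finset.sum_le_sum_of_subset (Finset.mem_powerset.mp hA)
    have hB' : ∑ s ∈ B, s ≤ ∑ s ∈ X, s := Finset.sum_le_sum_of_subset (Finset.mem_powerset.mp hB)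
    have h4 := hcon A hA B hB
    have h5 : (((∑ s ∈ A, s : ℕ) : ℤ) - ((∑ s ∈ B, s : ℕ) : ℤ) - 1) = 0 := by
      apply Int.eq_zero_of_abs_lt_dvd hd
      rw [abs_lt]
      constructor <;> omega
    omega
  have h6 : ∑ k ∈ Finset.range L, (‖∏ s ∈ X, (1 + ex L ((s * k : ℕ) : ℤ))‖ ^ 2) *
      Real.cos (2 * Real.pi * k / L) = 0 := by
    have h7 := congrArg Complex.re key
    rw [Complex.re_sum, Complex.zero_re] at h7
    rw [← h7]
    apply Finset.sum_congr rfl
    intro k _
    rw [Complex.re_ofReal_mul]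
    congr 1
    unfold ex
    rw [Complex.exp_ofReal_mul_I_re, ← Real.cos_neg]
    congr 1
    push_cast
    ring
  have h8 : ∑ k ∈ Finset.range L, (‖∏ s ∈ X, (1 + ex L ((s * k : ℕ) : ℤ))‖ ^ 2) *
      Real.cos (2 * Real.pi * k / L) = 4 ^ X.card *
      ∑ k ∈ Finset.range L, (∏ s ∈ X, Real.cos (Real.pi * ((s * k : ℕ) : ℤ) / L) ^ 2) *
      Real.cos (2 * Real.pi * k / L) := by
    rw [Finset.mul_sum]
    apply Finset.sum_congr rfl
    intro k _
    rw [norm_prod, ← Finset.prod_pow]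
    simp_rw [one_add_ex]
    rw [Finset.prod_mul_distrib, Finset.prod_const]
    ring
  rw [h8] at h6
  have h9 : (0 : ℝ) < 4 ^ X.card := by positivity
  have := mul_pos h9 hpos
  linarith

/-! ### the distance to the nearest integer and the cosine -/

/-- a lower bound for the distance to the integers, in the form: `x` is not within `w` of `ℤ` -/
def Far (w x : ℝ) : Prop := ∀ n : ℤ, w ≤ |x - n|

lemma abs_cos_add_int (x : ℝ) (n : ℤ) : |Real.cos (Real.pi * (x + n))| = |Real.cos (Real.pi * x)| := by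
  have : Real.pi * (x + n) = Real.pi * x + n * Real.pi := by ring
  rw [this, Real.cos_add_int_mul_pi, abs_mul, abs_zpow, abs_neg, abs_one, one_zpow, one_mul]

lemma abs_cos_le_one' (x : ℝ) : |Real.cos (Real.pi * x)| ≤ 1 := Real.abs_cos_le_one _

/-- `|cos π x| ≤ cos π w` if `x` is at distance at least `w` from the integers. -/
lemma abs_cos_le_of_far {w x : ℝ} (hw0 : 0 ≤ w) (h : Far w x) :
    |Real.cos (Real.pi * x)| ≤ Real.cos (Real.pi * w) := by
  -- reduce to `x` in `[-1/2, 1/2]`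
  obtain ⟨y, n, hy, hxy⟩ : ∃ (y : ℝ) (n : ℤ), |y| ≤ 1 / 2 ∧ x = y + n := by
    refine ⟨x - round x, round x, ?_, by ring⟩
    exact abs_sub_round x
  have h1 : w ≤ |y| := by
    have := h n
    rw [hxy] at this
    simpa using this
  rw [hxy, abs_cos_add_int]
  have h2 : Real.cos (Real.pi * y) = Real.cos (Real.pi * |y|) := by
    rcases abs_cases y with ⟨h3, _⟩ | ⟨h3, _⟩
    · rw [h3]
    · rw [h3]
      rw [← Real.cos_neg]
      congr 1
      ring
  rw [h2]
  have hpi := Real.pi_pos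
  have h4 : 0 ≤ Real.cos (Real.pi * |y|) := by
    apply Real.cos_nonneg_of_neg_pi_div_two_le_of_le
    · have : 0 ≤ Real.pi * |y| := by positivity
      linarith
    · nlinarith
  rw [abs_of_nonneg h4]
  apply Real.cos_le_cos_of_nonneg_of_le_pi
  · positivity
  · nlinarith
  · exact mul_le_mul_of_nonneg_left h1 hpi.le

/-- Among the points `y + j / P` at most one is within `1 / (2 P)` of the integers. -/
lemma sum_shift {P : ℕ} (hP : 2 ≤ P) (C : ℕ) (y : ℝ) :
    ∑ j ∈ Finset.range P, |Real.cos (Real.pi * (y + j / P))| ^ C ≤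
      1 + ((P : ℝ) - 1) * Real.cos (Real.pi * (1 / (2 * P))) ^ C := by
  classical
  have hP0 : (0 : ℝ) < P := by positivity
  set μ := Real.cos (Real.pi * (1 / (2 * P))) with hμ
  have hμ0 : 0 ≤ μ := by
    apply Real.cos_nonneg_of_neg_pi_div_two_le_of_le
    · have : 0 ≤ Real.pi * (1 / (2 * (P : ℝ))) := by positivity
      have := Real.pi_pos
      linarith
    · have h1 : 1 / (2 * (P : ℝ)) ≤ 1 / 2 := by
        apply one_div_le_one_div_of_le (by norm_num)
        have : (2 : ℝ) ≤ P := by exact_mod_cast hP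
        linarith
      have := mul_le_mul_of_nonneg_left h1 Real.pi_pos.le
      linarith
  have hone : ∀ j : ℕ, |Real.cos (Real.pi * (y + j / P))| ^ C ≤ 1 := fun j =>
    pow_le_one₀ (abs_nonneg _) (Real.abs_cos_le_one _)
  have hw : (1 : ℝ) / (2 * P) ≤ 1 / 2 := by
    apply one_div_le_one_div_of_le (by norm_num)
    have : (2 : ℝ) ≤ P := by exact_mod_cast hP
    linarith
  by_cases hex : ∃ j ∈ Finset.range P, ¬ Far (1 / (2 * P)) (y + j / P)
  · obtain ⟨j0, hj0, hnf⟩ := hex
    have hrest : ∀ j ∈ (Finset.range P).erase j0,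
        |Real.cos (Real.pi * (y + j / P))| ^ C ≤ μ ^ C := by
      intro j hj
      apply pow_le_pow_left₀ (abs_nonneg _)
      apply abs_cos_le_of_far (by positivity)
      intro n
      by_contra hcon
      push Not at hcon
      unfold Far at hnf
      push Not at hnf
      obtain ⟨m, hm⟩ := hnf
      have hjP := Finset.mem_range.mp (Finset.mem_of_mem_erase hj)
      have hjne := Finset.ne_of_mem_erase hj
      have hj0P := Finset.mem_range.mp hj0
      have h1 : |((j : ℝ) / P - j0 / P) - ((n : ℝ) - m)| < 1 / P := by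
        have h2 : ((j : ℝ) / P - j0 / P) - ((n : ℝ) - m) =
          (y + j / P - n) - (y + j0 / P - m) := by ring
        rw [h2]
        refine lt_of_le_of_lt (abs_sub _ _) ?_
        have h3 : (1 : ℝ) / P = 1 / (2 * P) + 1 / (2 * P) := by field_simp; norm_num
        rw [h3]
        exact add_lt_add hcon hm
      have h4 : |((j : ℤ) - j0 - P * (n - m) : ℤ)| < 1 := by
        have h5 : |(((j : ℤ) - j0 - P * (n - m) : ℤ) : ℝ)| < 1 := by
          have h6 : (((j : ℤ) - j0 - P * (n - m) : ℤ) : ℝ) =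
              P * (((j : ℝ) / P - j0 / P) - ((n : ℝ) - m)) := by
            push_cast
            field_simp
          rw [h6, abs_mul, abs_of_pos hP0]
          have := mul_lt_mul_of_pos_left h1 hP0
          rwa [mul_one_div_cancel hP0.ne'] at this
        exact_mod_cast h5
      have h7 : (j : ℤ) - j0 - P * (n - m) = 0 := Int.abs_lt_one_iff.mp h4
      have h8 : (P : ℤ) ∣ (j : ℤ) - j0 := ⟨n - m, by linarith⟩
      have h9 : (j : ℤ) - j0 = 0 := by
        apply Int.eq_zero_of_abs_lt_dvd h8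
        rw [abs_lt]
        constructor <;> omega
      exact hjne (by omega)
    rw [← Finset.add_sum_erase _ _ hj0]
    have h10 := Finset.sum_le_card_nsmul _ _ _ hrest
    rw [Finset.card_erase_of_mem hj0, Finset.card_range, nsmul_eq_mul] at h10
    have h11 : ((P - 1 : ℕ) : ℝ) = (P : ℝ) - 1 := by
      rw [Nat.cast_sub (by omega)]; simp
    rw [h11] at h10
    have := hone j0
    linarith
  · push Not at hex
    have hall : ∀ j ∈ Finset.range P, |Real.cos (Real.pi * (y + j / P))| ^ C ≤ μ ^ C := by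
      intro j hj
      apply pow_le_pow_left₀ (abs_nonneg _)
      exact abs_cos_le_of_far (by positivity) (hex j hj)
    have h10 := Finset.sum_le_card_nsmul _ _ _ hall
    rw [Finset.card_range, nsmul_eq_mul] at h10
    have h12 : μ ^ C ≤ 1 := pow_le_one₀ hμ0 (Real.cos_le_one _)
    nlinarith

/-- Summation over complete residue systems. -/
lemma sum_periodic (h : ℝ → ℝ) (hper : ∀ x : ℝ, ∀ n : ℕ, h (x + n) = h x) (a L : ℕ) (hL : 0 < L) :
    ∑ k ∈ Finset.range (a * L), h (k / L) = a * ∑ k ∈ Finset.range L, h (k / L) := by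
  induction a with
  | zero => simp
  | succ a ih =>
    rw [Nat.succ_mul, Finset.sum_range_add, ih]
    have : ∀ k ∈ Finset.range L, h (((a * L + k : ℕ) : ℝ) / L) = h (k / L) := by
      intro k _
      have hL' : (L : ℝ) ≠ 0 := by exact_mod_cast hL.ne'
      have e : ((a * L + k : ℕ) : ℝ) / L = k / L + (a : ℕ) := by
        push_cast
        field_simp
        ring
      rw [e, hper]
    rw [Finset.sum_congr rfl this]
    push_cast
    ring

/-- The main recursion. -/
lemma sum_prod {P : ℕ} (hP : 2 ≤ P) (C : ℕ) (A : ℕ) : ∀ L0 : ℕ, 0 < L0 →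
    ∑ k ∈ Finset.range (P ^ A * L0), ∏ α ∈ Finset.range A,
      |Real.cos (Real.pi * ((P : ℝ) ^ α * (k / (P ^ A * L0 : ℕ))))| ^ C ≤
      (1 + ((P : ℝ) - 1) * Real.cos (Real.pi * (1 / (2 * P))) ^ C) ^ A * L0 := by
  have hP0 : (0 : ℝ) < P := by positivity
  set c := 1 + ((P : ℝ) - 1) * Real.cos (Real.pi * (1 / (2 * P))) ^ C with hc
  induction A with
  | zero => intro L0 _; simp
  | succ A ih =>
    intro L0 hL0
    set L' : ℕ := P ^ A * L0 with hL'
    have hL'0 : 0 < L' := by positivity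
    have hL'r : (0 : ℝ) < L' := by exact_mod_cast hL'0
    have hLL : P ^ (A + 1) * L0 = P * L' := by rw [hL', pow_succ]; ring
    rw [hLL]
    -- split off the first factor
    have h1 : ∀ k : ℕ, ∏ α ∈ Finset.range (A + 1),
        |Real.cos (Real.pi * ((P : ℝ) ^ α * (k / (P * L' : ℕ))))| ^ C =
        |Real.cos (Real.pi * (k / (P * L' : ℕ)))| ^ C *
          ∏ α ∈ Finset.range A, |Real.cos (Real.pi * ((P : ℝ) ^ α * (k / (L' : ℕ))))| ^ C := by
      intro k
      rw [Finset.prod_range_succ', mul_comm]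
      congr 1
      · simp
      · apply Finset.prod_congr rfl
        intro α _
        congr 4
        rw [pow_succ]
        push_cast
        field_simp
    simp_rw [h1]
    -- reorganise the sum
    have h2 : ∑ k ∈ Finset.range (P * L'), |Real.cos (Real.pi * ((k : ℝ) / (P * L' : ℕ)))| ^ C *
          ∏ α ∈ Finset.range A, |Real.cos (Real.pi * ((P : ℝ) ^ α * (k / (L' : ℕ))))| ^ C =
        ∑ k ∈ Finset.range L', ∑ j ∈ Finset.range P,
          |Real.cos (Real.pi * ((k : ℝ) / (P * L' : ℕ) + j / P))| ^ C *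
          ∏ α ∈ Finset.range A, |Real.cos (Real.pi * ((P : ℝ) ^ α * (k / (L' : ℕ))))| ^ C := by
      have h3 : ∀ m : ℕ, ∑ k ∈ Finset.range (m * L'),
          |Real.cos (Real.pi * ((k : ℝ) / (P * L' : ℕ)))| ^ C *
          ∏ α ∈ Finset.range A, |Real.cos (Real.pi * ((P : ℝ) ^ α * (k / (L' : ℕ))))| ^ C =
          ∑ j ∈ Finset.range m, ∑ k ∈ Finset.range L',
          |Real.cos (Real.pi * ((k : ℝ) / (P * L' : ℕ) + j / P))| ^ C *
          ∏ α ∈ Finset.range A, |Real.cos (Real.pi * ((P : ℝ) ^ α * (k / (L' : ℕ))))| ^ C := by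
        intro m
        induction m with
        | zero => simp
        | succ m ihm =>
          rw [Nat.succ_mul, Finset.sum_range_add, ihm, Finset.sum_range_succ]
          congr 1
          apply Finset.sum_congr rfl
          intro k _
          congr 1
          · congr 4
            push_cast
            field_simp
            ring
          · apply Finset.prod_congr rfl
            intro α _
            have e : (P : ℝ) ^ α * (((m * L' + k : ℕ) : ℝ) / (L' : ℕ)) =
                (P : ℝ) ^ α * ((k : ℝ) / (L' : ℕ)) + ((P ^ α * m : ℕ) : ℤ) := by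
              push_cast
              field_simp
              ring
            rw [e, abs_cos_add_int]
      rw [h3, Finset.sum_comm]
    rw [h2]
    have h4 : ∀ k ∈ Finset.range L', ∑ j ∈ Finset.range P,
          |Real.cos (Real.pi * ((k : ℝ) / (P * L' : ℕ) + j / P))| ^ C *
          ∏ α ∈ Finset.range A, |Real.cos (Real.pi * ((P : ℝ) ^ α * (k / (L' : ℕ))))| ^ C ≤
        c * ∏ α ∈ Finset.range A, |Real.cos (Real.pi * ((P : ℝ) ^ α * (k / (L' : ℕ))))| ^ C := by
      intro k _
      rw [← Finset.sum_mul]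
      apply mul_le_mul_of_nonneg_right (sum_shift hP C _)
      apply Finset.prod_nonneg
      intro α _
      positivity
    refine le_trans (Finset.sum_le_sum h4) ?_
    rw [← Finset.mul_sum, pow_succ]
    have hc0 : 0 ≤ c := by
      have h5 := sum_shift hP C 0
      refine le_trans ?_ h5
      apply Finset.sum_nonneg
      intro j _
      positivity
    have h6 := mul_le_mul_of_nonneg_left (ih L0 hL0) hc0
    refine le_trans h6 (le_of_eq ?_)
    ring

/-- multiplication by a unit permutes the residues -/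
lemma sum_mul_unit (h : ℝ → ℝ) (hper : ∀ x : ℝ, ∀ n : ℕ, h (x + n) = h x) {u L : ℕ} (hL : 0 < L)
    (hu : Nat.Coprime u L) :
    ∑ k ∈ Finset.range L, h ((u : ℝ) * (k / L)) = ∑ k ∈ Finset.range L, h (k / L) := by
  classical
  have hLr : (L : ℝ) ≠ 0 := by exact_mod_cast hL.ne'
  have h1 : ∀ k ∈ Finset.range L, h ((u : ℝ) * (k / L)) = h (((u * k % L : ℕ) : ℝ) / L) := by
    intro k _
    have h2 := Nat.div_add_mod (u * k) L
    have h3 : (u : ℝ) * (k / L) = ((u * k % L : ℕ) : ℝ) / L + ((u * k / L : ℕ) : ℝ) := by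
      have h4 : ((L * (u * k / L) + u * k % L : ℕ) : ℝ) = ((u * k : ℕ) : ℝ) := by rw [h2]
      push_cast at h4 ⊢
      field_simp
      linarith
    rw [h3, hper]
  rw [Finset.sum_congr rfl h1]
  have hinj : Set.InjOn (fun k => u * k % L) (Finset.range L : Set ℕ) := by
    intro a ha b hb hab
    simp only [Finset.coe_range, Set.mem_Iio] at ha hb
    have h5 : u * a ≡ u * b [MOD L] := hab
    have h6 : a ≡ b [MOD L] := Nat.ModEq.cancel_left_of_coprime (by
      rw [Nat.gcd_comm]; exact hu) h5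
    have h7 := h6
    unfold Nat.ModEq at h7
    rw [Nat.mod_eq_of_lt ha, Nat.mod_eq_of_lt hb] at h7
    exact h7
  have himg : (Finset.range L).image (fun k => u * k % L) = Finset.range L := by
    apply Finset.eq_of_subset_of_card_le
    · intro x hx
      obtain ⟨k, _, rfl⟩ := Finset.mem_image.mp hx
      exact Finset.mem_range.mpr (Nat.mod_lt _ hL)
    · rw [Finset.card_image_of_injOn hinj]
  conv_rhs => rw [← himg]
  rw [Finset.sum_image hinj]

lemma prod_le_sum_pow {ι : Type*} (s : Finset ι) (hs : s.Nonempty) (x : ι → ℝ)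
    (hx : ∀ i ∈ s, 0 ≤ x i) : ∏ i ∈ s, x i ≤ ∑ i ∈ s, x i ^ s.card := by
  obtain ⟨i0, hi0, hmax⟩ := Finset.exists_max_image s x hs
  have h1 : ∏ i ∈ s, x i ≤ x i0 ^ s.card := by
    have := Finset.prod_le_prod hx hmax
    rwa [Finset.prod_const] at this
  refine le_trans h1 ?_
  exact Finset.single_le_sum (f := fun i => x i ^ s.card) (fun i hi => pow_nonneg (hx i hi) _) hi0

/-- The mean of the first part of the product is small. -/
lemma mean_bound {P Q : ℕ} (hP : 2 ≤ P) (hPQ : Nat.Coprime P Q) (a0 A t C : ℕ) (hC : 0 < C) :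
    ∑ k ∈ Finset.range (P ^ (a0 + A + t)), ∏ β ∈ Finset.range C, ∏ α ∈ Finset.range A,
      |Real.cos (Real.pi * (((P ^ (a0 + α) * Q ^ β : ℕ) : ℝ) * (k / (P ^ (a0 + A + t) : ℕ))))| ≤
    C * (P : ℝ) ^ (a0 + t) *
      (1 + ((P : ℝ) - 1) * Real.cos (Real.pi * (1 / (2 * P))) ^ C) ^ A := by
  classical
  have hP0 : (0 : ℝ) < P := by positivity
  set c := 1 + ((P : ℝ) - 1) * Real.cos (Real.pi * (1 / (2 * P))) ^ C with hc
  set L : ℕ := P ^ (a0 + A + t) with hL
  have hL0 : 0 < L := by positivity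
  set h : ℝ → ℝ := fun x => ∏ α ∈ Finset.range A, |Real.cos (Real.pi * ((P : ℝ) ^ (a0 + α) * x))| ^ C
    with hh
  have hper : ∀ x : ℝ, ∀ n : ℕ, h (x + n) = h x := by
    intro x n
    simp only [hh]
    apply Finset.prod_congr rfl
    intro α _
    have e : (P : ℝ) ^ (a0 + α) * (x + n) = (P : ℝ) ^ (a0 + α) * x + ((P ^ (a0 + α) * n : ℕ) : ℤ) := by
      push_cast; ring
    rw [e, abs_cos_add_int]
  -- each row
  have hrow : ∀ β : ℕ, ∑ k ∈ Finset.range L, h (((Q ^ β : ℕ) : ℝ) * (k / L)) ≤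
      (P : ℝ) ^ (a0 + t) * c ^ A := by
    intro β
    rw [sum_mul_unit h hper hL0 (by
      rw [hL]
      exact (Nat.Coprime.pow _ _ hPQ.symm))]
    set h0 : ℝ → ℝ := fun y => ∏ α ∈ Finset.range A, |Real.cos (Real.pi * ((P : ℝ) ^ α * y))| ^ C
      with hh0
    have hper0 : ∀ x : ℝ, ∀ n : ℕ, h0 (x + n) = h0 x := by
      intro x n
      simp only [hh0]
      apply Finset.prod_congr rfl
      intro α _
      have e : (P : ℝ) ^ α * (x + n) = (P : ℝ) ^ α * x + ((P ^ α * n : ℕ) : ℤ) := by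
        push_cast; ring
      rw [e, abs_cos_add_int]
    have hL' : L = P ^ a0 * (P ^ A * P ^ t) := by rw [hL, pow_add, pow_add]; ring
    have h1 : ∀ k ∈ Finset.range L, h ((k : ℝ) / L) = h0 ((k : ℝ) / (P ^ A * P ^ t : ℕ)) := by
      intro k _
      simp only [hh, hh0]
      apply Finset.prod_congr rfl
      intro α _
      congr 4
      rw [hL', pow_add]
      push_cast
      field_simp
    rw [Finset.sum_congr rfl h1, hL', sum_periodic h0 hper0 _ _ (by positivity)]
    have h2 := sum_prod hP C A (P ^ t) (by positivity)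
    rw [← hc] at h2
    push_cast
    have h3 : ∑ k ∈ Finset.range (P ^ A * P ^ t), h0 ((k : ℝ) / ((P : ℝ) ^ A * (P : ℝ) ^ t)) ≤
        c ^ A * ((P ^ t : ℕ) : ℝ) := by
      refine le_trans (le_of_eq ?_) h2
      apply Finset.sum_congr rfl
      intro k _
      simp only [hh0]
      push_cast
      rfl
    have h4 := mul_le_mul_of_nonneg_left h3 (show 0 ≤ (P : ℝ) ^ a0 by positivity)
    refine le_trans h4 (le_of_eq ?_)
    rw [pow_add]
    push_cast
    ring
  -- combine the rows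
  have h5 : ∀ k ∈ Finset.range L, ∏ β ∈ Finset.range C, ∏ α ∈ Finset.range A,
      |Real.cos (Real.pi * (((P ^ (a0 + α) * Q ^ β : ℕ) : ℝ) * (k / (L : ℕ))))| ≤
      ∑ β ∈ Finset.range C, h (((Q ^ β : ℕ) : ℝ) * (k / L)) := by
    intro k _
    have h6 := prod_le_sum_pow (Finset.range C) (Finset.nonempty_range_iff.mpr hC.ne')
      (fun β => ∏ α ∈ Finset.range A,
        |Real.cos (Real.pi * (((P ^ (a0 + α) * Q ^ β : ℕ) : ℝ) * (k / (L : ℕ))))|) (by
        intro β _
        apply Finset.prod_nonneg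
        intro α _
        positivity)
    refine le_trans h6 (le_of_eq ?_)
    apply Finset.sum_congr rfl
    intro β _
    rw [Finset.card_range, ← Finset.prod_pow]
    simp only [hh]
    apply Finset.prod_congr rfl
    intro α _
    congr 4
    push_cast
    ring
  refine le_trans (Finset.sum_le_sum h5) ?_
  rw [Finset.sum_comm]
  refine le_trans (Finset.sum_le_sum (fun β _ => hrow β)) ?_
  rw [Finset.sum_const, Finset.card_range, nsmul_eq_mul]
  exact le_of_eq (by ring)

/-- expansion by `P` -/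
lemma expand {P : ℕ} (hP : 2 ≤ P) (K : ℕ) (z : ℝ) (hz : Far (1 / (2 * (P : ℝ) ^ (K + 1))) z) :
    ∃ α, α ≤ K ∧ Far (1 / (2 * (P : ℝ))) ((P : ℝ) ^ α * z) := by
  have hP0 : (0 : ℝ) < P := by positivity
  have hP2 : (2 : ℝ) ≤ P := by exact_mod_cast hP
  by_contra hcon
  push Not at hcon
  unfold Far at hcon
  push Not at hcon
  obtain ⟨n0, hn0⟩ := hcon 0 (Nat.zero_le _)
  rw [pow_zero, one_mul] at hn0
  have key : ∀ α, α ≤ K → |(P : ℝ) ^ α * z - (P : ℝ) ^ α * n0| < 1 / (2 * P) := by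
    intro α
    induction α with
    | zero => intro _; simpa using hn0
    | succ α ih =>
      intro hα
      have h1 := ih (by omega)
      obtain ⟨n, hn⟩ := hcon (α + 1) hα
      have h2 : |(P : ℝ) ^ (α + 1) * z - (P : ℝ) ^ (α + 1) * n0| < 1 / 2 := by
        have h3 : (P : ℝ) ^ (α + 1) * z - (P : ℝ) ^ (α + 1) * n0 =
            P * ((P : ℝ) ^ α * z - (P : ℝ) ^ α * n0) := by rw [pow_succ]; ring
        rw [h3, abs_mul, abs_of_pos hP0]
        have := mul_lt_mul_of_pos_left h1 hP0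
        have h4 : (P : ℝ) * (1 / (2 * P)) = 1 / 2 := by field_simp
        rwa [h4] at this
      have h5 : |((n - (P : ℤ) ^ (α + 1) * n0 : ℤ) : ℝ)| < 1 := by
        have h6 : ((n - (P : ℤ) ^ (α + 1) * n0 : ℤ) : ℝ) =
            ((P : ℝ) ^ (α + 1) * z - (P : ℝ) ^ (α + 1) * n0) - ((P : ℝ) ^ (α + 1) * z - n) := by
          push_cast; ring
        rw [h6]
        refine lt_of_le_of_lt (abs_sub _ _) ?_
        have h7 : 1 / (2 * (P : ℝ)) ≤ 1 / 2 := by
          apply one_div_le_one_div_of_le (by norm_num)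
          linarith
        linarith
      have h8 : n - (P : ℤ) ^ (α + 1) * n0 = 0 := Int.abs_lt_one_iff.mp (by exact_mod_cast h5)
      have h9 : n = (P : ℤ) ^ (α + 1) * n0 := by omega
      rw [h9] at hn
      push_cast at hn
      exact hn
  have h1 := key K le_rfl
  have h2 := hz n0
  have h3 : (P : ℝ) ^ K * z - (P : ℝ) ^ K * n0 = (P : ℝ) ^ K * (z - n0) := by ring
  rw [h3, abs_mul, abs_of_pos (by positivity)] at h1
  have h4 := mul_le_mul_of_nonneg_left h2 (show 0 ≤ (P : ℝ) ^ K by positivity)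
  have h5 : (P : ℝ) ^ K * (1 / (2 * (P : ℝ) ^ (K + 1))) = 1 / (2 * P) := by
    rw [pow_succ]; field_simp
  rw [h5] at h4
  linarith

lemma inj_pq {P Q : ℕ} (hP : 2 ≤ P) (hQ : 2 ≤ Q) (hPQ : Nat.Coprime P Q) {a b c d : ℕ}
    (h : P ^ a * Q ^ b = P ^ c * Q ^ d) : a = c ∧ b = d := by
  have hc1 : ∀ u v : ℕ, Nat.Coprime (P ^ u) (Q ^ v) := fun u v => Nat.Coprime.pow _ _ hPQ
  have h1 : P ^ a ∣ P ^ c := by
    have : P ^ a ∣ P ^ c * Q ^ d := by rw [← h]; exact dvd_mul_right _ _
    exact (hc1 a d).dvd_of_dvd_mul_right this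
  have h2 : P ^ c ∣ P ^ a := by
    have : P ^ c ∣ P ^ a * Q ^ b := by rw [h]; exact dvd_mul_right _ _
    exact (hc1 c b).dvd_of_dvd_mul_right this
  have h3 : P ^ a = P ^ c := Nat.dvd_antisymm h1 h2
  have h4 : a = c := Nat.pow_right_injective hP h3
  subst h4
  have h5 : Q ^ b = Q ^ d := Nat.eq_of_mul_eq_mul_left (by positivity) h
  exact ⟨rfl, Nat.pow_right_injective hQ h5⟩

/-- the elements used for the pointwise bound -/
def X2 (P Q κ M Y : ℕ) : Finset ℕ :=
  ((Finset.range (κ * M) ×ˢ Finset.range (M + 1)).image (fun i => P ^ i.1 * Q ^ i.2)).filter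
    (fun s => Y ≤ s)

/-- The pointwise bound. -/
lemma pointwise {P Q κ M Y : ℕ} (hP : 2 ≤ P) (hQ : 2 ≤ Q) (hPQ : Nat.Coprime P Q) (hκ : 1 ≤ κ)
    (hM : 1 ≤ M) {w : ℝ} (hw0 : 0 ≤ w) (hwP : w ≤ 1 / (2 * P)) (hwQ : w ≤ 1 / (2 * Q)) (θ : ℝ)
    (hθ : Far (1 / 4) θ) :
    ∏ s ∈ X2 P Q κ M Y, |Real.cos (Real.pi * ((s : ℝ) * θ))| ≤ Real.cos (Real.pi * w) ^ (M - Y) := by
  classical
  have hP0 : (0 : ℝ) < P := by positivity
  have hQ0 : (0 : ℝ) < Q := by positivity
  have hP2 : (2 : ℝ) ≤ P := by exact_mod_cast hP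
  have hQ2 : (2 : ℝ) ≤ Q := by exact_mod_cast hQ
  have hκM : 1 ≤ κ * M := Nat.mul_pos hκ hM
  have hMκ : M ≤ κ * M := Nat.le_mul_of_pos_left _ hκ
  obtain ⟨K, hK⟩ : ∃ K, κ * M = K + 1 := ⟨κ * M - 1, by omega⟩
  have hYP : Y ≤ P ^ Y := (Nat.lt_pow_self (by omega)).le
  have hYQ : Y ≤ Q ^ Y := (Nat.lt_pow_self (by omega)).le
  -- it suffices to find a large subset of far elements
  suffices hs : ∃ B : Finset ℕ, B ⊆ X2 P Q κ M Y ∧ M - Y ≤ B.card ∧
      ∀ s ∈ B, Far w ((s : ℝ) * θ) by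
    obtain ⟨B, hB1, hB2, hB3⟩ := hs
    have hw2 : w ≤ 1 / 2 := by
      refine le_trans hwP ?_
      apply one_div_le_one_div_of_le (by norm_num)
      linarith
    have hcos0 : 0 ≤ Real.cos (Real.pi * w) := by
      apply Real.cos_nonneg_of_neg_pi_div_two_le_of_le
      · have : 0 ≤ Real.pi * w := by positivity
        have := Real.pi_pos
        linarith
      · nlinarith [Real.pi_pos]
    calc ∏ s ∈ X2 P Q κ M Y, |Real.cos (Real.pi * ((s : ℝ) * θ))|
        ≤ ∏ s ∈ B, |Real.cos (Real.pi * ((s : ℝ) * θ))| := by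
          apply Finset.prod_le_prod_of_subset_of_le_one hB1
          · intro s _; exact abs_nonneg _
          · intro s _ _; exact Real.abs_cos_le_one _
      _ ≤ ∏ s ∈ B, Real.cos (Real.pi * w) := by
          apply Finset.prod_le_prod
          · intro s _; exact abs_nonneg _
          · intro s hs; exact abs_cos_le_of_far hw0 (hB3 s hs)
      _ = Real.cos (Real.pi * w) ^ B.card := by rw [Finset.prod_const]
      _ ≤ Real.cos (Real.pi * w) ^ (M - Y) :=
          pow_le_pow_of_le_one hcos0 (Real.cos_le_one _) hB2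
  by_cases hall : ∀ β, β ≤ M → Far (1 / (2 * (P : ℝ) ^ (K + 1))) ((Q : ℝ) ^ β * θ)
  · -- every row contributes
    have hex : ∀ β, ∃ α, β ≤ M → α ≤ K ∧ Far (1 / (2 * (P : ℝ))) ((P : ℝ) ^ α * ((Q : ℝ) ^ β * θ)) := by
      intro β
      by_cases hβ : β ≤ M
      · obtain ⟨α, h1, h2⟩ := expand hP K _ (hall β hβ)
        exact ⟨α, fun _ => ⟨h1, h2⟩⟩
      · exact ⟨0, fun h => absurd h hβ⟩
    choose α hα using hex
    refine ⟨(Finset.Ico Y M).image (fun β => P ^ α β * Q ^ β), ?_, ?_, ?_⟩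
    · intro s hs
      obtain ⟨β, hβ, rfl⟩ := Finset.mem_image.mp hs
      rw [Finset.mem_Ico] at hβ
      unfold X2
      rw [Finset.mem_filter, Finset.mem_image]
      refine ⟨⟨(α β, β), ?_, rfl⟩, ?_⟩
      · rw [Finset.mem_product, Finset.mem_range, Finset.mem_range]
        have := (hα β (by omega)).1
        constructor <;> simp only <;> omega
      · calc Y ≤ Q ^ Y := hYQ
          _ ≤ Q ^ β := Nat.pow_le_pow_right (by omega) hβ.1
          _ ≤ P ^ α β * Q ^ β := Nat.le_mul_of_pos_left _ (by positivity)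
    · rw [Finset.card_image_of_injective]
      · rw [Nat.card_Ico]
      · intro b c hbc
        exact (inj_pq hP hQ hPQ hbc).2
    · intro s hs
      obtain ⟨β, hβ, rfl⟩ := Finset.mem_image.mp hs
      rw [Finset.mem_Ico] at hβ
      have h1 := (hα β (by omega)).2
      intro n
      have h2 := h1 n
      refine le_trans hwP (le_trans h2 (le_of_eq ?_))
      congr 1
      push_cast
      ring
  · -- one row contributes a lot
    have hex : ∃ β, β ≤ M ∧ ¬ Far (1 / (2 * (P : ℝ) ^ (K + 1))) ((Q : ℝ) ^ β * θ) := by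
      push Not at hall
      exact hall
    have hmin := Nat.find_spec hex
    have hlt := fun b (hb : b < Nat.find hex) => Nat.find_min hex hb
    set β := Nat.find hex with hβ
    have hPK : (2 : ℝ) ≤ (P : ℝ) ^ (K + 1) := by
      calc (2 : ℝ) ≤ P := hP2
        _ = (P : ℝ) ^ 1 := (pow_one _).symm
        _ ≤ (P : ℝ) ^ (K + 1) := pow_le_pow_right₀ (by linarith) (by omega)
    have hβ0 : β ≠ 0 := by
      intro h0
      rw [h0, pow_zero, one_mul] at hmin
      apply hmin.2
      intro n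
      refine le_trans ?_ (hθ n)
      apply one_div_le_one_div_of_le (by norm_num)
      linarith
    obtain ⟨b, hb⟩ : ∃ b, β = b + 1 := ⟨β - 1, by omega⟩
    have hfar : Far (1 / (2 * (P : ℝ) ^ (K + 1))) ((Q : ℝ) ^ b * θ) := by
      have := hlt b (by omega)
      by_contra hcon
      exact this ⟨by omega, hcon⟩
    have hnf := hmin.2
    unfold Far at hnf
    push Not at hnf
    obtain ⟨a, ha⟩ := hnf
    set z := (Q : ℝ) ^ b * θ with hz
    have hQz : (Q : ℝ) ^ β * θ = Q * z := by rw [hb, pow_succ, hz]; ring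
    rw [hQz] at ha
    have hndvd : ¬ (Q : ℤ) ∣ a := by
      rintro ⟨n, hn⟩
      have h1 := hfar n
      rw [hn] at ha
      push_cast at ha
      have h2 : (Q : ℝ) * z - Q * n = Q * (z - n) := by ring
      rw [h2, abs_mul, abs_of_pos hQ0] at ha
      have h3 : |z - n| ≤ Q * |z - n| := by
        have := abs_nonneg (z - n)
        nlinarith
      linarith
    have hfarα : ∀ α, α ≤ K → Far (1 / (2 * (Q : ℝ))) ((P : ℝ) ^ α * z) := by
      intro α hα n
      have h1 : ¬ (Q : ℤ) ∣ (P : ℤ) ^ α * a := by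
        intro hd
        apply hndvd
        have hcop : IsCoprime (Q : ℤ) ((P : ℤ) ^ α) := by
          apply IsCoprime.pow_right
          exact Nat.isCoprime_iff_coprime.mpr hPQ.symm
        exact hcop.dvd_of_dvd_mul_left hd
      have h2 : (1 : ℝ) ≤ |((P : ℝ) ^ α * a - Q * n)| := by
        have h3 : (P : ℤ) ^ α * a - Q * n ≠ 0 := by
          intro h0
          exact h1 ⟨n, by linarith⟩
        have h4 := Int.one_le_abs h3
        have h5 : (1 : ℝ) ≤ |(((P : ℤ) ^ α * a - Q * n : ℤ) : ℝ)| := by exact_mod_cast h4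
        push_cast at h5
        exact h5
      have h6 : |(P : ℝ) ^ α * (Q * z - a)| ≤ 1 / 2 := by
        rw [abs_mul, abs_of_pos (by positivity)]
        have h7 : (P : ℝ) ^ α ≤ (P : ℝ) ^ (K + 1) := pow_le_pow_right₀ (by linarith) (by omega)
        calc (P : ℝ) ^ α * |Q * z - a| ≤ (P : ℝ) ^ (K + 1) * (1 / (2 * (P : ℝ) ^ (K + 1))) :=
              mul_le_mul h7 ha.le (abs_nonneg _) (by positivity)
          _ = 1 / 2 := by field_simp
      have h8 : (Q : ℝ) * |(P : ℝ) ^ α * z - n| ≥ 1 / 2 := by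
        have h9 : (Q : ℝ) * |(P : ℝ) ^ α * z - n| = |(Q : ℝ) * ((P : ℝ) ^ α * z - n)| := by
          rw [abs_mul, abs_of_pos hQ0]
        rw [h9]
        have h10 : (P : ℝ) ^ α * a - Q * n =
            (Q : ℝ) * ((P : ℝ) ^ α * z - n) - (P : ℝ) ^ α * (Q * z - a) := by ring
        rw [h10] at h2
        have h11 := abs_sub ((Q : ℝ) * ((P : ℝ) ^ α * z - n)) ((P : ℝ) ^ α * (Q * z - a))
        linarith
      rw [div_le_iff₀ (by positivity)]
      linarith
    refine ⟨(Finset.Ico Y (K + 1)).image (fun α => P ^ α * Q ^ b), ?_, ?_, ?_⟩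
    · intro s hs
      obtain ⟨α, hα, rfl⟩ := Finset.mem_image.mp hs
      rw [Finset.mem_Ico] at hα
      unfold X2
      rw [Finset.mem_filter, Finset.mem_image]
      refine ⟨⟨(α, b), ?_, rfl⟩, ?_⟩
      · rw [Finset.mem_product, Finset.mem_range, Finset.mem_range]
        have := hmin.1
        constructor <;> simp only <;> omega
      · calc Y ≤ P ^ Y := hYP
          _ ≤ P ^ α := Nat.pow_le_pow_right (by omega) hα.1
          _ ≤ P ^ α * Q ^ b := Nat.le_mul_of_pos_right _ (by positivity)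
    · rw [Finset.card_image_of_injective]
      · rw [Nat.card_Ico]; omega
      · intro c d hcd
        exact (inj_pq hP hQ hPQ hcd).1
    · intro s hs
      obtain ⟨α, hα, rfl⟩ := Finset.mem_image.mp hs
      rw [Finset.mem_Ico] at hα
      intro n
      have h2 := hfarα α (by omega) n
      refine le_trans hwQ (le_trans h2 (le_of_eq ?_))
      congr 1
      rw [hz]
      push_cast
      ring

/-- the elements used for the mean bound -/
def X1 (P Q A C Y : ℕ) : Finset ℕ :=
  (Finset.range C ×ˢ Finset.range A).image (fun i => P ^ (Y + i.2) * Q ^ i.1)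

lemma prod_X1 {P Q : ℕ} (hP : 2 ≤ P) (hQ : 2 ≤ Q) (hPQ : Nat.Coprime P Q) (A C Y : ℕ)
    (h : ℕ → ℝ) : ∏ s ∈ X1 P Q A C Y, h s =
      ∏ β ∈ Finset.range C, ∏ α ∈ Finset.range A, h (P ^ (Y + α) * Q ^ β) := by
  classical
  unfold X1
  rw [Finset.prod_image, Finset.prod_product]
  rintro ⟨a, b⟩ _ ⟨c, d⟩ _ hab
  simp only at hab
  obtain ⟨h1, h2⟩ := inj_pq hP hQ hPQ hab
  rw [Prod.mk.injEq]
  omega

/-- choice of the parameters -/
lemma params {P Q : ℕ} (hP : 2 ≤ P) (Y : ℕ) (ρ : ℝ) (hρ0 : 0 < ρ) (hρ1 : ρ < 1) (κ : ℕ)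
    (hκ : 1 ≤ κ) : ∃ C M A t : ℕ, 0 < C ∧ 1 ≤ M ∧ Y ≤ M ∧ A = 2 * κ * M ∧
      (A * C + κ * M * (M + 1)) * Q ^ C + 1 < P ^ t ∧
      C * (P : ℝ) ^ (Y + t) * (1 + ((P : ℝ) - 1) * Real.cos (Real.pi * (1 / (2 * P))) ^ C) ^ A *
        ρ ^ (M - Y) < 1 := by
  have hP0 : (0 : ℝ) < P := by positivity
  have hP2 : (2 : ℝ) ≤ P := by exact_mod_cast hP
  set μ := Real.cos (Real.pi * (1 / (2 * P))) with hμ
  have hx : 1 / (2 * (P : ℝ)) ≤ 1 / 4 := by
    apply one_div_le_one_div_of_le (by norm_num)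
    linarith
  have hx0 : 0 < 1 / (2 * (P : ℝ)) := by positivity
  have hμ0 : 0 < μ := by
    apply Real.cos_pos_of_mem_Ioo
    constructor
    · have : 0 < Real.pi * (1 / (2 * (P : ℝ))) := by positivity
      have := Real.pi_pos
      linarith
    · nlinarith [Real.pi_pos]
  have hμ1 : μ < 1 := by
    have h1 := Real.cos_lt_cos_of_nonneg_of_le_pi (le_refl (0 : ℝ))
      (show Real.pi * (1 / (2 * (P : ℝ))) ≤ Real.pi by nlinarith [Real.pi_pos])
      (show 0 < Real.pi * (1 / (2 * (P : ℝ))) by positivity)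
    rw [Real.cos_zero] at h1
    exact h1
  -- choose `C`
  have hlim : Filter.Tendsto (fun C : ℕ => ρ * (1 + ((P : ℝ) - 1) * μ ^ C) ^ (2 * κ))
      Filter.atTop (nhds (ρ * (1 + ((P : ℝ) - 1) * 0) ^ (2 * κ))) := by
    apply Filter.Tendsto.const_mul
    apply Filter.Tendsto.pow
    apply Filter.Tendsto.const_add
    apply Filter.Tendsto.const_mul
    exact tendsto_pow_atTop_nhds_zero_of_lt_one hμ0.le hμ1
  rw [mul_zero, add_zero, one_pow, mul_one] at hlim
  obtain ⟨C, hC1, hC0⟩ := ((hlim.eventually (gt_mem_nhds hρ1)).and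
    (Filter.eventually_gt_atTop 0)).exists
  set c := 1 + ((P : ℝ) - 1) * μ ^ C with hc
  have hc1 : 1 ≤ c := by
    rw [hc]
    have : 0 ≤ ((P : ℝ) - 1) * μ ^ C := by
      apply mul_nonneg (by linarith) (by positivity)
    linarith
  set σ := ρ * c ^ (2 * κ) with hσ
  have hσ0 : 0 < σ := by positivity
  -- choose `J`
  have hlimJ : Filter.Tendsto (fun J : ℕ => (P : ℝ) * σ ^ J) Filter.atTop (nhds (P * 0)) := by
    apply Filter.Tendsto.const_mul
    exact tendsto_pow_atTop_nhds_zero_of_lt_one hσ0.le hC1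
  rw [mul_zero] at hlimJ
  obtain ⟨J, hJ1, hJ0⟩ := ((hlimJ.eventually (gt_mem_nhds (by norm_num : (0 : ℝ) < 1 / 2))).and
    (Filter.eventually_gt_atTop 0)).exists
  -- choose `t`
  set K1 : ℕ := (2 * κ * J * C + κ * J * (J + 1)) * Q ^ C + 1 with hK1
  set K2 : ℝ := C * (P : ℝ) ^ Y * (1 / ρ) ^ Y with hK2
  have hK20 : 0 < K2 := by positivity
  have hlim2 : Filter.Tendsto (fun t : ℕ => (t : ℝ) ^ 2 / (2 : ℝ) ^ t) Filter.atTop (nhds 0) :=
    tendsto_pow_const_div_const_pow_of_one_lt 2 (by norm_num)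
  have hlim3 : Filter.Tendsto (fun t : ℕ => K2 * (1 / 2 : ℝ) ^ t) Filter.atTop (nhds (K2 * 0)) := by
    apply Filter.Tendsto.const_mul
    exact tendsto_pow_atTop_nhds_zero_of_lt_one (by norm_num) (by norm_num)
  rw [mul_zero] at hlim3
  have hK1p : (0 : ℝ) < 1 / K1 := by
    have : 0 < K1 := by omega
    have : (0 : ℝ) < K1 := by exact_mod_cast this
    positivity
  obtain ⟨t, ht1, ht2, ht3⟩ := ((hlim2.eventually (gt_mem_nhds hK1p)).and
    ((hlim3.eventually (gt_mem_nhds one_pos)).and (Filter.eventually_gt_atTop (Y + 1)))).exists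
  have ht0 : 1 ≤ t := by omega
  refine ⟨C, J * t, 2 * κ * (J * t), t, hC0, Nat.mul_pos hJ0 (by omega), ?_, rfl, ?_, ?_⟩
  · calc Y ≤ t := by omega
      _ ≤ J * t := Nat.le_mul_of_pos_left _ hJ0
  · -- size condition
    have h1 : (K1 : ℝ) * (t : ℝ) ^ 2 < 2 ^ t := by
      have hK1r : (0 : ℝ) < K1 := by
        have : 0 < K1 := by omega
        exact_mod_cast this
      rw [div_lt_iff₀ (by positivity)] at ht1
      rw [one_div, inv_mul_eq_div, lt_div_iff₀ hK1r] at ht1
      linarith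
    have h2 : K1 * t ^ 2 < 2 ^ t := by exact_mod_cast h1
    have h3 : (2 : ℕ) ^ t ≤ P ^ t := Nat.pow_le_pow_left hP t
    have h4 : (2 * κ * (J * t) * C + κ * (J * t) * (J * t + 1)) * Q ^ C + 1 ≤ K1 * t ^ 2 := by
      rw [hK1]
      have h5 : J * t + 1 ≤ (J + 1) * t := by nlinarith
      have h6 : 2 * κ * (J * t) * C ≤ 2 * κ * J * C * t ^ 2 := by
        have : t ≤ t ^ 2 := by nlinarith
        calc 2 * κ * (J * t) * C = 2 * κ * J * C * t := by ring
          _ ≤ _ := Nat.mul_le_mul_left _ this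
      have h7 : κ * (J * t) * (J * t + 1) ≤ κ * J * (J + 1) * t ^ 2 := by
        calc κ * (J * t) * (J * t + 1) ≤ κ * (J * t) * ((J + 1) * t) := Nat.mul_le_mul_left _ h5
          _ = _ := by ring
      have h8 : 1 ≤ t ^ 2 := Nat.one_le_pow _ _ (by omega)
      calc (2 * κ * (J * t) * C + κ * (J * t) * (J * t + 1)) * Q ^ C + 1
          ≤ (2 * κ * J * C * t ^ 2 + κ * J * (J + 1) * t ^ 2) * Q ^ C + t ^ 2 := by
            apply Nat.add_le_add _ h8
            exact Nat.mul_le_mul_right _ (Nat.add_le_add h6 h7)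
        _ = _ := by ring
    omega
  · -- smallness
    have hYt : Y ≤ J * t := by
      calc Y ≤ t := by omega
        _ ≤ J * t := Nat.le_mul_of_pos_left _ hJ0
    have h1 : ρ ^ (J * t - Y) = ρ ^ (J * t) * (1 / ρ) ^ Y := by
      obtain ⟨z, hz⟩ := Nat.exists_eq_add_of_le hYt
      rw [hz, Nat.add_sub_cancel_left, pow_add, one_div_pow]
      field_simp
    have h2 : C * (P : ℝ) ^ (Y + t) * c ^ (2 * κ * (J * t)) * ρ ^ (J * t - Y) =
        K2 * ((P : ℝ) * σ ^ J) ^ t := by
      rw [h1, hK2, hσ, pow_add, mul_pow, mul_pow, mul_pow, ← pow_mul, ← pow_mul, ← pow_mul]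
      ring_nf
    rw [h2]
    have h3 : ((P : ℝ) * σ ^ J) ^ t ≤ (1 / 2) ^ t := pow_le_pow_left₀ (by positivity) hJ1.le t
    have h4 := mul_le_mul_of_nonneg_left h3 hK20.le
    linarith

/-- **Signed representations of one by large elements.** -/
theorem adjuster {P Q : ℕ} (hP : 2 ≤ P) (hQ : 2 ≤ Q) (hPQ : Nat.Coprime P Q) (Y : ℕ) :
    ∃ U V : Finset ℕ, Disjoint U V ∧ (∀ s ∈ U ∪ V, Y ≤ s ∧ ∃ α β : ℕ, s = P ^ α * Q ^ β) ∧
      ∑ s ∈ V, s = ∑ s ∈ U, s + 1 := by
  classical
  have hP0 : (0 : ℝ) < P := by positivity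
  have hQ0 : (0 : ℝ) < Q := by positivity
  have hP2 : (2 : ℝ) ≤ P := by exact_mod_cast hP
  have hQ2 : (2 : ℝ) ≤ Q := by exact_mod_cast hQ
  set w : ℝ := min (1 / (2 * P)) (1 / (2 * Q)) with hw
  have hw0 : 0 < w := lt_min (by positivity) (by positivity)
  have hwP : w ≤ 1 / (2 * P) := min_le_left _ _
  have hwQ : w ≤ 1 / (2 * Q) := min_le_right _ _
  have hw4 : w ≤ 1 / 4 := by
    refine le_trans hwP ?_
    apply one_div_le_one_div_of_le (by norm_num)
    linarith
  set ρ := Real.cos (Real.pi * w) with hρ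
  have hρ0 : 0 < ρ := by
    apply Real.cos_pos_of_mem_Ioo
    constructor
    · have : 0 < Real.pi * w := by positivity
      have := Real.pi_pos
      linarith
    · nlinarith [Real.pi_pos]
  have hρ1 : ρ < 1 := by
    have h1 := Real.cos_lt_cos_of_nonneg_of_le_pi (le_refl (0 : ℝ))
      (show Real.pi * w ≤ Real.pi by nlinarith [Real.pi_pos])
      (show 0 < Real.pi * w by positivity)
    rw [Real.cos_zero] at h1
    exact h1
  have hκ : 1 ≤ Q := by omega
  have hQκ : Q ≤ P ^ Q := le_trans (Nat.lt_pow_self (by omega : 1 < 2)).le (Nat.pow_le_pow_left hP Q)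
  obtain ⟨C, M, A, t, hC, hM, hYM, hA, hsize, hsmall⟩ := params (Q := Q) hP Y ρ hρ0 hρ1 Q hκ
  set X : Finset ℕ := X1 P Q A C Y ∪ X2 P Q Q M Y with hX
  set L : ℕ := P ^ (Y + A + t) with hL
  have hL0 : 0 < L := by positivity
  have hLr : (0 : ℝ) < L := by exact_mod_cast hL0
  have hYP : Y ≤ P ^ Y := (Nat.lt_pow_self (by omega)).le
  -- elements of X
  have hXmem : ∀ s ∈ X, Y ≤ s ∧ (∃ α β : ℕ, s = P ^ α * Q ^ β) ∧ s ≤ P ^ (Y + A) * Q ^ C := by
    intro s hs
    rw [hX, Finset.mem_union] at hs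
    rcases hs with hs | hs
    · unfold X1 at hs
      obtain ⟨⟨β, α⟩, hi, rfl⟩ := Finset.mem_image.mp hs
      rw [Finset.mem_product, Finset.mem_range, Finset.mem_range] at hi
      simp only at hi
      refine ⟨?_, ⟨Y + α, β, rfl⟩, ?_⟩
      · calc Y ≤ P ^ Y := hYP
          _ ≤ P ^ (Y + α) := Nat.pow_le_pow_right (by omega) (by omega)
          _ ≤ P ^ (Y + α) * Q ^ β := Nat.le_mul_of_pos_right _ (by positivity)
      · exact Nat.mul_le_mul (Nat.pow_le_pow_right (by omega) (by omega))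
          (Nat.pow_le_pow_right (by omega) (by omega))
    · unfold X2 at hs
      rw [Finset.mem_filter, Finset.mem_image] at hs
      obtain ⟨⟨⟨α, β⟩, hi, rfl⟩, hYs⟩ := hs
      rw [Finset.mem_product, Finset.mem_range, Finset.mem_range] at hi
      simp only at hi
      refine ⟨hYs, ⟨α, β, rfl⟩, ?_⟩
      calc P ^ α * Q ^ β ≤ P ^ (Q * M) * Q ^ M :=
            Nat.mul_le_mul (Nat.pow_le_pow_right (by omega) (by omega))
              (Nat.pow_le_pow_right (by omega) (by omega))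
        _ ≤ P ^ (Q * M) * (P ^ Q) ^ M := Nat.mul_le_mul_left _ (Nat.pow_le_pow_left hQκ M)
        _ = P ^ A := by rw [← pow_mul, ← pow_add, hA]; congr 1; ring
        _ ≤ P ^ (Y + A) := Nat.pow_le_pow_right (by omega) (by omega)
        _ ≤ P ^ (Y + A) * Q ^ C := Nat.le_mul_of_pos_right _ (by positivity)
  have hXcard : X.card ≤ A * C + Q * M * (M + 1) := by
    rw [hX]
    refine le_trans (Finset.card_union_le _ _) ?_
    apply Nat.add_le_add
    · unfold X1
      refine le_trans Finset.card_image_le ?_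
      rw [Finset.card_product, Finset.card_range, Finset.card_range, mul_comm]
    · unfold X2
      refine le_trans (Finset.card_filter_le _ _) ?_
      refine le_trans Finset.card_image_le ?_
      rw [Finset.card_product, Finset.card_range, Finset.card_range]
  have hXsum : ∑ s ∈ X, s + 1 < L := by
    have h1 : ∑ s ∈ X, s ≤ X.card * (P ^ (Y + A) * Q ^ C) := by
      have := Finset.sum_le_card_nsmul X (fun s => s) _ (fun s hs => (hXmem s hs).2.2)
      simpa using this
    have h2 : X.card * (P ^ (Y + A) * Q ^ C) ≤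
        (A * C + Q * M * (M + 1)) * (P ^ (Y + A) * Q ^ C) := Nat.mul_le_mul_right _ hXcard
    have h3 : P ^ (Y + A) * ((A * C + Q * M * (M + 1)) * Q ^ C + 1) < P ^ (Y + A) * P ^ t :=
      Nat.mul_lt_mul_of_pos_left hsize (by positivity)
    have h4 : P ^ (Y + A) * P ^ t = L := by rw [hL, pow_add P (Y + A) t]
    have h5 : 1 ≤ P ^ (Y + A) := Nat.one_le_pow _ _ (by omega)
    have h6 : P ^ (Y + A) * ((A * C + Q * M * (M + 1)) * Q ^ C + 1) =
        (A * C + Q * M * (M + 1)) * (P ^ (Y + A) * Q ^ C) + P ^ (Y + A) := by ring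
    omega
  -- positivity
  have hpos : 0 < ∑ k ∈ Finset.range L,
      (∏ s ∈ X, Real.cos (Real.pi * ((s * k : ℕ) : ℤ) / L) ^ 2) *
      Real.cos (2 * Real.pi * k / L) := by
    -- rewriting the product
    have hcosrw : ∀ (s k : ℕ), Real.pi * (((s * k : ℕ) : ℤ) : ℝ) / L = Real.pi * ((s : ℝ) * (k / L)) := by
      intro s k
      push_cast
      ring
    set g1 : ℕ → ℝ := fun k => ∏ s ∈ X1 P Q A C Y, |Real.cos (Real.pi * ((s : ℝ) * (k / L)))| with hg1
    have hg1nn : ∀ k, 0 ≤ g1 k := fun k => Finset.prod_nonneg (fun s _ => abs_nonneg _)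
    have hg1sum : ∑ k ∈ Finset.range L, g1 k ≤ C * (P : ℝ) ^ (Y + t) *
        (1 + ((P : ℝ) - 1) * Real.cos (Real.pi * (1 / (2 * P))) ^ C) ^ A := by
      have h1 := mean_bound hP hPQ Y A t C hC
      refine le_trans (le_of_eq ?_) h1
      rw [← hL]
      apply Finset.sum_congr rfl
      intro k _
      rw [hg1]
      simp only
      rw [prod_X1 hP hQ hPQ A C Y (fun s => |Real.cos (Real.pi * ((s : ℝ) * (k / L)))|)]
    -- lower bound for the terms
    have hterm : ∀ k ∈ Finset.range L, (if k = 0 then (1 : ℝ) else 0) - ρ ^ (M - Y) * g1 k ≤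
        (∏ s ∈ X, Real.cos (Real.pi * ((s * k : ℕ) : ℤ) / L) ^ 2) *
          Real.cos (2 * Real.pi * k / L) := by
      intro k _
      have hprodnn : 0 ≤ ∏ s ∈ X, Real.cos (Real.pi * ((s * k : ℕ) : ℤ) / L) ^ 2 :=
        Finset.prod_nonneg (fun s _ => sq_nonneg _)
      have hρM : 0 ≤ ρ ^ (M - Y) * g1 k := mul_nonneg (by positivity) (hg1nn k)
      by_cases hk0 : k = 0
      · subst hk0
        simp only [if_true]
        have : (∏ s ∈ X, Real.cos (Real.pi * ((s * 0 : ℕ) : ℤ) / L) ^ 2) *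
          Real.cos (2 * Real.pi * ((0 : ℕ) : ℝ) / L) = 1 := by simp
        rw [this]
        linarith
      · rw [if_neg hk0]
        by_cases hfar : Far (1 / 4) ((k : ℝ) / L)
        · have h1 : ∏ s ∈ X, Real.cos (Real.pi * ((s * k : ℕ) : ℤ) / L) ^ 2 ≤
              g1 k * ρ ^ (M - Y) := by
            have h2 : ∏ s ∈ X, Real.cos (Real.pi * ((s * k : ℕ) : ℤ) / L) ^ 2 =
                (∏ s ∈ X, |Real.cos (Real.pi * ((s : ℝ) * (k / L)))|) *
                (∏ s ∈ X, |Real.cos (Real.pi * ((s : ℝ) * (k / L)))|) := by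
              rw [← Finset.prod_mul_distrib]
              apply Finset.prod_congr rfl
              intro s _
              rw [hcosrw, abs_mul_abs_self, sq]
            rw [h2]
            apply mul_le_mul
            · apply Finset.prod_le_prod_of_subset_of_le_one
              · rw [hX]; exact Finset.subset_union_left
              · intro s _; exact abs_nonneg _
              · intro s _ _; exact Real.abs_cos_le_one _
            · refine le_trans ?_ (pointwise hP hQ hPQ (κ := Q) (M := M) (Y := Y) hκ hM hw0.le hwP hwQ _ hfar)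
              apply Finset.prod_le_prod_of_subset_of_le_one
              · rw [hX]; exact Finset.subset_union_right
              · intro s _; exact abs_nonneg _
              · intro s _ _; exact Real.abs_cos_le_one _
            · exact Finset.prod_nonneg (fun s _ => abs_nonneg _)
            · exact hg1nn k
          have h3 : -1 ≤ Real.cos (2 * Real.pi * k / L) := Real.neg_one_le_cos _
          nlinarith
        · unfold Far at hfar
          push Not at hfar
          obtain ⟨n, hn⟩ := hfar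
          have h4 : 0 ≤ Real.cos (2 * Real.pi * k / L) := by
            have h5 : 2 * Real.pi * k / L = 2 * Real.pi * ((k : ℝ) / L - n) + n * (2 * Real.pi) := by
              ring
            rw [h5, Real.cos_add_int_mul_two_pi]
            rw [abs_lt] at hn
            apply Real.cos_nonneg_of_neg_pi_div_two_le_of_le
            · nlinarith [Real.pi_pos]
            · nlinarith [Real.pi_pos]
          have := mul_nonneg hprodnn h4
          linarith
    refine lt_of_lt_of_le ?_ (Finset.sum_le_sum hterm)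
    rw [Finset.sum_sub_distrib, Finset.sum_ite_eq' , if_pos (Finset.mem_range.mpr hL0),
      ← Finset.mul_sum]
    have h6 : ρ ^ (M - Y) * ∑ k ∈ Finset.range L, g1 k < 1 := by
      refine lt_of_le_of_lt (mul_le_mul_of_nonneg_left hg1sum (by positivity)) ?_
      linarith [hsmall]
    linarith
  obtain ⟨A', hA', B', hB', hAB⟩ := exists_of_pos hL0 X hXsum hpos
  refine ⟨B' \ A', A' \ B', disjoint_sdiff_sdiff, ?_, ?_⟩
  · intro s hs
    have hsX : s ∈ X := by
      rcases Finset.mem_union.mp hs with h | h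
      · exact Finset.mem_powerset.mp hB' (Finset.mem_sdiff.mp h).1
      · exact Finset.mem_powerset.mp hA' (Finset.mem_sdiff.mp h).1
    exact ⟨(hXmem s hsX).1, (hXmem s hsX).2.1⟩
  · have h1 := Finset.sum_inter_add_sum_sdiff A' B' (fun s : ℕ => s)
    have h2 := Finset.sum_inter_add_sum_sdiff B' A' (fun s : ℕ => s)
    rw [Finset.inter_comm B' A'] at h2
    omega

end Pool.Agent.R447.Adj
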