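import Pool.Agent.R447.Adj

set_option autoImplicit false

/-!
Completeness of sparse subsets of `{p ^ α * q ^ β}` (a quantitative form of Birch's theorem).
-/

namespace Pool.Agent.R447.Comp

open Finset Pool.Agent.R447.Adj

/-- members of `S_{p,q}` -/
def IsS (p q s : ℕ) : Prop := ∃ α β : ℕ, s = p ^ α * q ^ β

lemma pow_rpow_comm {θ : ℝ} (h : 0 ≤ θ) (k : ℕ) (e : ℝ) : (θ ^ k) ^ e = (θ ^ e) ^ k := by
  rw [← Real.rpow_natCast, ← Real.rpow_natCast, ← Real.rpow_mul h, ← Real.rpow_mul h, mul_comm]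


lemma log_ne {p q : ℕ} (hp : 2 ≤ p) (hq : 2 ≤ q) (hpq : Nat.Coprime p q) {a b : ℕ}
    (h : (a : ℝ) * Real.log p = b * Real.log q) : a = 0 ∧ b = 0 := by
  have hp0 : (0 : ℝ) < p := by positivity
  have hq0 : (0 : ℝ) < q := by positivity
  rw [← Real.log_pow, ← Real.log_pow] at h
  have h1 : (p : ℝ) ^ a = (q : ℝ) ^ b := Real.log_injOn_pos (by
    simp only [Set.mem_Ioi]; positivity) (by simp only [Set.mem_Ioi]; positivity) h
  have h2 : p ^ a = q ^ b := by exact_mod_cast h1
  have h3 : p ^ a * q ^ 0 = p ^ 0 * q ^ b := by simpa using h2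
  have := inj_pq hp hq hpq h3
  omega

lemma small_abs {p q : ℕ} (hp : 2 ≤ p) (hq : 2 ≤ q) (hpq : Nat.Coprime p q) {ε : ℝ} (hε : 0 < ε) :
    ∃ a b : ℕ, 0 < a ∧ 0 < b ∧ 0 < |(a : ℝ) * Real.log p - b * Real.log q| ∧
      |(a : ℝ) * Real.log p - b * Real.log q| < ε := by
  have hlp : 0 < Real.log p := Real.log_pos (by exact_mod_cast hp)
  have hlq : 0 < Real.log q := Real.log_pos (by exact_mod_cast hq)
  set ξ := Real.log p / Real.log q with hξ
  have hξ0 : 0 < ξ := by positivity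
  obtain ⟨n, hn⟩ := exists_nat_gt (max (1 / ξ) (Real.log q / ε))
  have hn1 : 1 / ξ < n := lt_of_le_of_lt (le_max_left _ _) hn
  have hn2 : Real.log q / ε < n := lt_of_le_of_lt (le_max_right _ _) hn
  have hn0 : (0 : ℝ) < n := lt_trans (by positivity) hn1
  obtain ⟨j, k, hk0, _, h⟩ := Real.exists_int_int_abs_mul_sub_le ξ (n := n) (by exact_mod_cast hn0)
  have hn3 : (1 : ℝ) / (n + 1) < ξ := by
    rw [div_lt_iff₀ (by positivity)]
    rw [div_lt_iff₀ hξ0] at hn1
    linarith
  have hk1 : (1 : ℝ) ≤ k := by exact_mod_cast hk0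
  have hj0 : 0 < j := by
    rw [abs_le] at h
    have h1 : (0 : ℝ) < j := by nlinarith
    exact_mod_cast h1
  obtain ⟨a, rfl⟩ := Int.eq_ofNat_of_zero_le hk0.le
  obtain ⟨b, rfl⟩ := Int.eq_ofNat_of_zero_le hj0.le
  have hab : (a : ℝ) * Real.log p - b * Real.log q = (((a : ℤ) : ℝ) * ξ - ((b : ℤ) : ℝ)) * Real.log q := by
    rw [hξ]; push_cast; field_simp
  refine ⟨a, b, by exact_mod_cast hk0, by exact_mod_cast hj0, ?_, ?_⟩
  · rw [abs_pos, sub_ne_zero]
    intro h0
    have := (log_ne hp hq hpq h0).1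
    subst this
    simp at hk0
  · rw [hab, abs_mul, abs_of_pos hlq]
    calc |((a : ℤ) : ℝ) * ξ - ((b : ℤ) : ℝ)| * Real.log q ≤ 1 / (n + 1) * Real.log q :=
          mul_le_mul_of_nonneg_right h hlq.le
      _ < ε := by
          rw [one_div_mul_eq_div, div_lt_iff₀ (by positivity)]
          rw [div_lt_iff₀ hε] at hn2
          nlinarith

lemma small_pos {p q : ℕ} (hp : 2 ≤ p) (hq : 2 ≤ q) (hpq : Nat.Coprime p q) {ε : ℝ} (hε : 0 < ε) :
    ∃ a b : ℕ, 0 < a ∧ 0 < b ∧ 0 < (a : ℝ) * Real.log p - b * Real.log q ∧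
      (a : ℝ) * Real.log p - b * Real.log q < ε := by
  have hlp : 0 < Real.log p := Real.log_pos (by exact_mod_cast hp)
  have hlq : 0 < Real.log q := Real.log_pos (by exact_mod_cast hq)
  obtain ⟨a, b, ha, hb, h1, h2⟩ := small_abs hp hq hpq (lt_min hε hlp)
  rcases le_total 0 ((a : ℝ) * Real.log p - b * Real.log q) with h | h
  · rw [abs_of_nonneg h] at h1 h2
    exact ⟨a, b, ha, hb, h1, lt_of_lt_of_le h2 (min_le_left _ _)⟩
  · rw [abs_of_nonpos h] at h1 h2
    set v := -((a : ℝ) * Real.log p - b * Real.log q) with hv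
    have hvε : v < ε := lt_of_lt_of_le h2 (min_le_left _ _)
    set k := ⌊Real.log p / v⌋₊ with hk
    have h3 : (k : ℝ) ≤ Real.log p / v := Nat.floor_le (by positivity)
    have h4 : Real.log p / v < k + 1 := Nat.lt_floor_add_one _
    rw [le_div_iff₀ h1] at h3
    rw [div_lt_iff₀ h1] at h4
    have hk1 : 1 ≤ k := by
      rw [hk]
      apply Nat.le_floor
      rw [Nat.cast_one, one_le_div h1]
      exact (lt_of_lt_of_le h2 (min_le_right _ _)).le
    have h5 : (((k * a + 1 : ℕ) : ℝ)) * Real.log p - ((k * b : ℕ) : ℝ) * Real.log q =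
        Real.log p - k * v := by
      rw [hv]; push_cast; ring
    refine ⟨k * a + 1, k * b, by omega, Nat.mul_pos hk1 hb, ?_, ?_⟩
    · have h6 : 0 ≤ (((k * a + 1 : ℕ) : ℝ)) * Real.log p - ((k * b : ℕ) : ℝ) * Real.log q := by
        rw [h5]; linarith
      apply lt_of_le_of_ne h6
      intro h7
      have := (log_ne hp hq hpq (sub_eq_zero.mp h7.symm)).1
      omega
    · rw [h5]
      linarith

/-- rational approximations -/
lemma approx {p q : ℕ} (hp : 2 ≤ p) (hq : 2 ≤ q) (hpq : Nat.Coprime p q) {τ η : ℝ} (hτ : 0 ≤ τ)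
    (hη : 0 < η) : ∃ a b : ℕ, τ < (a : ℝ) * Real.log p - b * Real.log q ∧
      (a : ℝ) * Real.log p - b * Real.log q < τ + η := by
  obtain ⟨a, b, _, _, h1, h2⟩ := small_pos hp hq hpq hη
  set u := (a : ℝ) * Real.log p - b * Real.log q with hu
  set k := ⌊τ / u⌋₊ with hk
  have h3 : (k : ℝ) ≤ τ / u := Nat.floor_le (by positivity)
  have h4 : τ / u < k + 1 := Nat.lt_floor_add_one _
  rw [le_div_iff₀ h1] at h3
  rw [div_lt_iff₀ h1] at h4
  have h5 : (((k + 1) * a : ℕ) : ℝ) * Real.log p - (((k + 1) * b : ℕ) : ℝ) * Real.log q =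
      (k + 1) * u := by
    rw [hu]; push_cast; ring
  refine ⟨(k + 1) * a, (k + 1) * b, ?_, ?_⟩
  · rw [h5]; exact h4
  · rw [h5]; linarith

/-- multiplicative density of `S_{p,q}` -/
lemma dens {p q : ℕ} (hp : 2 ≤ p) (hq : 2 ≤ q) (hpq : Nat.Coprime p q) {δ : ℝ} (hδ0 : 0 < δ)
    (hδ1 : δ < 1) : ∃ Y0 : ℝ, 1 ≤ Y0 ∧ ∀ y : ℝ, Y0 ≤ y → ∃ α β : ℕ,
      (1 - δ) * y < ((p ^ α * q ^ β : ℕ) : ℝ) ∧ ((p ^ α * q ^ β : ℕ) : ℝ) ≤ y := by
  have hp0 : (0 : ℝ) < p := by positivity
  have hq0 : (0 : ℝ) < q := by positivity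
  have hlp : 0 < Real.log p := Real.log_pos (by exact_mod_cast hp)
  have hlq : 0 < Real.log q := Real.log_pos (by exact_mod_cast hq)
  have hε : 0 < -Real.log (1 - δ) := by
    have := Real.log_neg (by linarith : 0 < 1 - δ) (by linarith)
    linarith
  obtain ⟨a, b, _, _, h1, h2⟩ := small_pos hp hq hpq hε
  set u := (a : ℝ) * Real.log p - b * Real.log q with hu
  set W : ℝ := (b * (Real.log q / u) + 1) * Real.log q with hW
  have hW0 : 0 ≤ W := by positivity
  refine ⟨Real.exp W, Real.one_le_exp hW0, ?_⟩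
  intro y hy
  have hy0 : 0 < y := lt_of_lt_of_le (Real.exp_pos _) hy
  set T := Real.log y with hT
  have hTW : W ≤ T := by
    rw [hT, Real.le_log_iff_exp_le hy0]; exact hy
  have hT0 : 0 ≤ T := le_trans hW0 hTW
  set n := ⌊T / Real.log q⌋₊ with hn
  have h3 : (n : ℝ) ≤ T / Real.log q := Nat.floor_le (by positivity)
  have h4 : T / Real.log q < n + 1 := Nat.lt_floor_add_one _
  rw [le_div_iff₀ hlq] at h3
  rw [div_lt_iff₀ hlq] at h4
  have h34 : 0 ≤ T - n * Real.log q := by linarith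
  set j := ⌊(T - n * Real.log q) / u⌋₊ with hj
  have h5 : (j : ℝ) ≤ (T - n * Real.log q) / u := Nat.floor_le (by positivity)
  have h6 : (T - n * Real.log q) / u < j + 1 := Nat.lt_floor_add_one _
  rw [le_div_iff₀ h1] at h5
  rw [div_lt_iff₀ h1] at h6
  have hjb : j * b ≤ n := by
    have h7 : (j : ℝ) ≤ Real.log q / u := by
      rw [le_div_iff₀ h1]
      have : (n + 1) * Real.log q = n * Real.log q + Real.log q := by ring
      linarith
    have h8 : (b : ℝ) * (Real.log q / u) + 1 < n + 1 := by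
      have h9 : (b * (Real.log q / u) + 1) * Real.log q < (n + 1) * Real.log q := by
        rw [← hW]; linarith
      exact lt_of_mul_lt_mul_right h9 hlq.le
    have h10 : ((j * b : ℕ) : ℝ) ≤ n := by
      push_cast
      have : (j : ℝ) * b ≤ (Real.log q / u) * b := mul_le_mul_of_nonneg_right h7 (by positivity)
      linarith
    exact_mod_cast h10
  have h11 : Real.log ((p ^ (j * a) * q ^ (n - j * b) : ℕ) : ℝ) = n * Real.log q + j * u := by
    push_cast
    rw [Real.log_mul (by positivity) (by positivity), Real.log_pow, Real.log_pow,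
      Nat.cast_sub hjb, hu]
    push_cast
    ring
  have hval0 : (0 : ℝ) < ((p ^ (j * a) * q ^ (n - j * b) : ℕ) : ℝ) := by positivity
  refine ⟨j * a, n - j * b, ?_, ?_⟩
  · rw [← Real.log_lt_log_iff (by
      apply mul_pos (by linarith) hy0) hval0, h11, Real.log_mul (by linarith) hy0.ne', ← hT]
    linarith
  · rw [← Real.log_le_log_iff hval0 hy0, h11, ← hT]
    linarith

/-- chains of adjusters -/
lemma adj_chain {P Q : ℕ} (hP : 2 ≤ P) (hQ : 2 ≤ Q) (hPQ : Nat.Coprime P Q) (L : ℕ) :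
    ∃ (F : Finset ℕ) (u : ℕ), (∀ s ∈ F, IsS P Q s) ∧
      ∀ j, j ≤ L → ∃ A, A ⊆ F ∧ ∑ s ∈ A, s = u + j := by
  classical
  induction L with
  | zero => exact ⟨∅, 0, by simp, fun j hj => ⟨∅, by simp, by simp; omega⟩⟩
  | succ L ih =>
    obtain ⟨F, u, hF, h⟩ := ih
    obtain ⟨U, V, hUV, hmem, hsum⟩ := adjuster hP hQ hPQ (∑ s ∈ F, s + 1)
    have hdis : ∀ s ∈ U ∪ V, s ∉ F := by
      intro s hs hsF
      have h1 := (hmem s hs).1
      have h2 : s ≤ ∑ s ∈ F, s :=
        Finset.single_le_sum (f := fun s : ℕ => s) (fun _ _ => Nat.zero_le _) hsF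
      omega
    have hdisU : Disjoint F U := by
      rw [Finset.disjoint_left]
      intro s hsF hsU
      exact hdis s (Finset.mem_union_left _ hsU) hsF
    have hdisV : Disjoint F V := by
      rw [Finset.disjoint_left]
      intro s hsF hsU
      exact hdis s (Finset.mem_union_right _ hsU) hsF
    refine ⟨F ∪ (U ∪ V), u + ∑ s ∈ U, s, ?_, ?_⟩
    · intro s hs
      rcases Finset.mem_union.mp hs with h1 | h1
      · exact hF s h1
      · exact (hmem s h1).2
    · intro j hj
      rcases Nat.lt_or_ge j (L + 1) with h1 | h1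
      · obtain ⟨A, hA, hAs⟩ := h j (by omega)
        refine ⟨A ∪ U, ?_, ?_⟩
        · apply Finset.union_subset_union hA Finset.subset_union_left
        · rw [Finset.sum_union (Finset.disjoint_of_subset_left hA hdisU), hAs]
          omega
      · obtain ⟨A, hA, hAs⟩ := h L le_rfl
        refine ⟨A ∪ V, ?_, ?_⟩
        · apply Finset.union_subset_union hA Finset.subset_union_right
        · rw [Finset.sum_union (Finset.disjoint_of_subset_left hA hdisV), hAs, hsum]
          omega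

/-- **Sparse complete subsets.** -/
theorem complete {p q : ℕ} (hp : 2 ≤ p) (hq : 2 ≤ q) (hpq : Nat.Coprime p q) {ε : ℝ} (hε : 0 < ε) :
    ∃ (S1 : Set ℕ) (u : ℕ) (C1 : ℝ), 0 < C1 ∧ (∀ s ∈ S1, IsS p q s) ∧
      (∀ n, u ≤ n → ∃ A : Finset ℕ, (↑A : Set ℕ) ⊆ S1 ∧ ∑ s ∈ A, s = n) ∧
      ∀ (x : ℕ) (A : Finset ℕ), 1 ≤ x → (↑A : Set ℕ) ⊆ S1 → (∀ s ∈ A, s ≤ x) →
        (2 : ℝ) ^ A.card ≤ C1 * (x : ℝ) ^ (1 + ε) := by
  classical
  have hp0 : (0 : ℝ) < p := by positivity
  -- parameters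
  set θ : ℝ := (2 : ℝ) ^ (1 / (1 + ε)) with hθ
  have hθ1 : 1 < θ := Real.one_lt_rpow (by norm_num) (by positivity)
  have hθ2 : θ < 2 := by
    have h1 : (2 : ℝ) ^ (1 / (1 + ε)) < (2 : ℝ) ^ (1 : ℝ) := by
      apply Real.rpow_lt_rpow_of_exponent_lt (by norm_num)
      rw [div_lt_one (by linarith)]; linarith
    rwa [Real.rpow_one] at h1
  have hθpow : θ ^ (1 + ε) = 2 := by
    rw [hθ, ← Real.rpow_mul (by norm_num), one_div_mul_cancel (by linarith), Real.rpow_one]
  set δ : ℝ := min (1 / 4) (2 - θ) with hδ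
  have hδ0 : 0 < δ := lt_min (by norm_num) (by linarith)
  have hδ4 : δ ≤ 1 / 4 := min_le_left _ _
  have hδθ : θ ≤ 2 - δ := by
    have := min_le_right (1 / 4 : ℝ) (2 - θ)
    linarith
  obtain ⟨Y0, hY01, hY0⟩ := dens (p := p ^ 2) (q := q)
    (by calc 2 ≤ p := hp
          _ = p ^ 1 := (pow_one p).symm
          _ ≤ p ^ 2 := Nat.pow_le_pow_right (by omega) (by omega)) hq
    (Nat.Coprime.pow_left 2 hpq) hδ0 (by linarith)
  -- the choice function
  have hchoice : ∀ L : ℕ, ∃ s : ℕ, p * Y0 ≤ L → (∃ α β : ℕ, s = p ^ (2 * α + 1) * q ^ β) ∧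
      (1 - δ) * L < s ∧ s ≤ L := by
    intro L
    by_cases hL : p * Y0 ≤ L
    · obtain ⟨α, β, h1, h2⟩ := hY0 ((L : ℝ) / p) (by rw [le_div_iff₀ hp0]; linarith)
      have he : p * ((p ^ 2) ^ α * q ^ β) = p ^ (2 * α + 1) * q ^ β := by
        rw [← pow_mul, pow_succ]; ring
      refine ⟨p ^ (2 * α + 1) * q ^ β, fun _ => ⟨⟨α, β, rfl⟩, ?_, ?_⟩⟩
      · rw [← he]
        push_cast at h1 ⊢
        have h3 := mul_lt_mul_of_pos_left h1 hp0
        have h4 : (p : ℝ) * ((1 - δ) * (L / p)) = (1 - δ) * L := by field_simp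
        linarith
      · rw [← he]
        have h3 := mul_le_mul_of_nonneg_left h2 hp0.le
        have h4 : (p : ℝ) * (L / p) = L := by field_simp
        rw [h4] at h3
        exact_mod_cast h3
    · exact ⟨0, fun h => absurd h hL⟩
  choose g hg using hchoice
  obtain ⟨L0, hL0⟩ := exists_nat_gt (p * Y0 + 2)
  have hL0Y : p * Y0 ≤ L0 := by linarith
  have hL02 : (2 : ℝ) ≤ L0 := by
    have : 0 ≤ (p : ℝ) * Y0 := by positivity
    linarith
  set Ls : ℕ → ℕ := fun i => Nat.rec L0 (fun _ L => L + g L) i with hLs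
  have hLs0 : Ls 0 = L0 := rfl
  have hLsS : ∀ i, Ls (i + 1) = Ls i + g (Ls i) := fun i => rfl
  have hLsY : ∀ i, p * Y0 ≤ Ls i := by
    intro i
    induction i with
    | zero => exact hL0Y
    | succ i ih =>
      rw [hLsS]
      push_cast
      have : (0 : ℝ) ≤ g (Ls i) := by positivity
      linarith
  set s : ℕ → ℕ := fun i => g (Ls i) with hs
  have hs1 : ∀ i, (∃ α β : ℕ, s i = p ^ (2 * α + 1) * q ^ β) := fun i => (hg _ (hLsY i)).1
  have hs2 : ∀ i, (1 - δ) * Ls i < s i := fun i => (hg _ (hLsY i)).2.1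
  have hs3 : ∀ i, s i ≤ Ls i := fun i => (hg _ (hLsY i)).2.2
  have hLpos : ∀ i, (0 : ℝ) < Ls i := by
    intro i
    have := hLsY i
    have : (0 : ℝ) < p * Y0 := by positivity
    linarith
  have hLgrow : ∀ i, θ * Ls i ≤ Ls (i + 1) := by
    intro i
    rw [hLsS]
    push_cast
    have h1 := hs2 i
    have h2 : (g (Ls i) : ℝ) = s i := rfl
    rw [h2]
    have h3 := mul_le_mul_of_nonneg_right hδθ (hLpos i).le
    linarith
  have hsmono : StrictMono s := by
    apply strictMono_nat_of_lt_succ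
    intro i
    have h1 := hs2 (i + 1)
    have h2 := hs2 i
    have h3 : (s i : ℝ) ≤ Ls i := by exact_mod_cast hs3 i
    have h4 : (Ls (i + 1) : ℝ) = Ls i + s i := by rw [hLsS]; push_cast; rfl
    rw [h4] at h1
    have h5 := hLpos i
    have h6 : (s i : ℝ) < s (i + 1) := by nlinarith
    exact_mod_cast h6
  have hLbig : ∀ i, θ ^ i * 2 ≤ Ls i := by
    intro i
    induction i with
    | zero => rw [hLs0]; simpa using hL02
    | succ i ih =>
      have := hLgrow i
      have h1 := mul_le_mul_of_nonneg_left ih (by linarith : 0 ≤ θ)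
      calc θ ^ (i + 1) * 2 = θ * (θ ^ i * 2) := by rw [pow_succ]; ring
        _ ≤ θ * Ls i := h1
        _ ≤ _ := this
  have hsbig : ∀ i, θ ^ i ≤ s i := by
    intro i
    have h1 := hs2 i
    have h2 := hLbig i
    have h3 : (0 : ℝ) < θ ^ i := by positivity
    nlinarith [hLpos i]
  -- adjusters
  obtain ⟨F, u, hF, hFsum⟩ := adj_chain (P := p ^ 2) (Q := q ^ 2)
    (by calc 2 ≤ p := hp
          _ = p ^ 1 := (pow_one p).symm
          _ ≤ p ^ 2 := Nat.pow_le_pow_right (by omega) (by omega))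
    (by calc 2 ≤ q := hq
          _ = q ^ 1 := (pow_one q).symm
          _ ≤ q ^ 2 := Nat.pow_le_pow_right (by omega) (by omega))
    (Nat.Coprime.pow 2 2 hpq) L0
  have hFs : ∀ i, s i ∉ F := by
    intro i hi
    obtain ⟨a, b, h1⟩ := hF _ hi
    obtain ⟨α, β, h2⟩ := hs1 i
    rw [h2, ← pow_mul, ← pow_mul] at h1
    have := (inj_pq hp hq hpq h1).1
    omega
  have hcov : ∀ i, ∀ n, u ≤ n → n ≤ u + Ls i → ∃ A : Finset ℕ,
      A ⊆ F ∪ (Finset.range i).image s ∧ ∑ s ∈ A, s = n := by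
    intro i
    induction i with
    | zero =>
      intro n h1 h2
      obtain ⟨A, hA, hAs⟩ := hFsum (n - u) (by rw [hLs0] at h2; omega)
      refine ⟨A, ?_, by omega⟩
      simpa using hA
    | succ i ih =>
      intro n h1 h2
      have hsub : F ∪ (Finset.range i).image s ⊆ F ∪ (Finset.range (i + 1)).image s := by
        apply Finset.union_subset_union (Finset.Subset.refl _)
        apply Finset.image_subset_image
        exact Finset.range_subset_range.mpr (by omega)
      rcases Nat.lt_or_ge (u + Ls i) n with h3 | h3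
      · have h4 : s i ≤ Ls i := hs3 i
        have h5 : Ls (i + 1) = Ls i + s i := hLsS i
        obtain ⟨A, hA, hAs⟩ := ih (n - s i) (by omega) (by omega)
        have hnot : s i ∉ A := by
          intro hmem
          rcases Finset.mem_union.mp (hA hmem) with h6 | h6
          · exact hFs i h6
          · obtain ⟨j, hj, hji⟩ := Finset.mem_image.mp h6
            have := hsmono.injective hji
            rw [Finset.mem_range] at hj
            omega
        refine ⟨insert (s i) A, ?_, ?_⟩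
        · intro x hx
          rcases Finset.mem_insert.mp hx with rfl | hx
          · apply Finset.mem_union_right
            exact Finset.mem_image.mpr ⟨i, Finset.mem_range.mpr (by omega), rfl⟩
          · exact hsub (hA hx)
        · rw [Finset.sum_insert hnot, hAs]
          omega
      · obtain ⟨A, hA, hAs⟩ := ih n h1 h3
        exact ⟨A, hA.trans hsub, hAs⟩
  refine ⟨(↑F : Set ℕ) ∪ Set.range s, u, 2 ^ (F.card + 1), by positivity, ?_, ?_, ?_⟩
  · rintro x (hx | ⟨i, rfl⟩)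
    · obtain ⟨a, b, h⟩ := hF x hx
      exact ⟨2 * a, 2 * b, by rw [h, pow_mul, pow_mul]⟩
    · obtain ⟨α, β, h⟩ := hs1 i
      exact ⟨2 * α + 1, β, h⟩
  · intro n hn
    obtain ⟨i, hi⟩ : ∃ i, n ≤ Ls i := by
      obtain ⟨i, hi⟩ := pow_unbounded_of_one_lt (n : ℝ) hθ1
      refine ⟨i, ?_⟩
      have h1 := hLbig i
      have h2 : (n : ℝ) ≤ Ls i := by
        have : (0 : ℝ) < θ ^ i := by positivity
        linarith
      exact_mod_cast h2
    obtain ⟨A, hA, hAs⟩ := hcov i n hn (by omega)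
    refine ⟨A, ?_, hAs⟩
    intro x hx
    rcases Finset.mem_union.mp (hA hx) with h | h
    · exact Or.inl h
    · obtain ⟨j, _, rfl⟩ := Finset.mem_image.mp h
      exact Or.inr ⟨j, rfl⟩
  · intro x A hx hA hAx
    have hx1 : (1 : ℝ) ≤ x := by exact_mod_cast hx
    -- the number of indices
    have hex : ∃ m : ℕ, (x : ℝ) < θ ^ m := pow_unbounded_of_one_lt _ hθ1
    set k := Nat.find hex with hk
    have hk1 : (x : ℝ) < θ ^ k := Nat.find_spec hex
    have hk0 : k ≠ 0 := by
      intro h0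
      rw [h0, pow_zero] at hk1
      linarith
    have hk2 : θ ^ (k - 1) ≤ x := by
      have := Nat.find_min hex (m := k - 1) (by omega)
      exact not_lt.mp this
    have hsub : A ⊆ F ∪ (Finset.range k).image s := by
      intro y hy
      rcases hA hy with h | ⟨i, rfl⟩
      · exact Finset.mem_union_left _ h
      · apply Finset.mem_union_right
        refine Finset.mem_image.mpr ⟨i, Finset.mem_range.mpr ?_, rfl⟩
        by_contra hcon
        push Not at hcon
        have h1 := hsbig i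
        have h2 : θ ^ k ≤ θ ^ i := pow_le_pow_right₀ hθ1.le hcon
        have h3 : ((s i : ℕ) : ℝ) ≤ x := by exact_mod_cast hAx _ hy
        linarith
    have hcard : A.card ≤ F.card + k := by
      refine le_trans (Finset.card_le_card hsub) (le_trans (Finset.card_union_le _ _) ?_)
      have := Finset.card_image_le (s := Finset.range k) (f := s)
      rw [Finset.card_range] at this
      omega
    have h4 : (2 : ℝ) ^ A.card ≤ 2 ^ (F.card + k) := pow_le_pow_right₀ (by norm_num) hcard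
    have h5 : (2 : ℝ) ^ (k - 1) ≤ (x : ℝ) ^ (1 + ε) := by
      have h6 : (2 : ℝ) ^ (k - 1) = (θ ^ (k - 1)) ^ (1 + ε) := by
        rw [pow_rpow_comm (by linarith : (0 : ℝ) ≤ θ), hθpow]
      rw [h6]
      exact Real.rpow_le_rpow (by positivity) hk2 (by linarith)
    refine le_trans h4 ?_
    have h7 : F.card + k = (F.card + 1) + (k - 1) := by omega
    rw [h7, pow_add]
    exact mul_le_mul_of_nonneg_left h5 (by positivity)

/-- **Dissociated subsets.** -/
theorem dissociated {p q : ℕ} (hp : 2 ≤ p) (hq : 2 ≤ q) (hpq : Nat.Coprime p q) {ε : ℝ}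
    (hε : 0 < ε) (hε1 : ε < 1) : ∃ c : ℝ, 0 < c ∧ ∀ x : ℕ, 1 ≤ x → ∃ A : Finset ℕ, (∀ s ∈ A, IsS p q s) ∧
      ∑ s ∈ A, s ≤ x ∧ (∀ B B' : Finset ℕ, B ⊆ A → B' ⊆ A → ∑ s ∈ B, s = ∑ s ∈ B', s → B = B') ∧
      c * (x : ℝ) ^ (1 - ε) ≤ 2 ^ A.card := by
  classical
  -- the ratio
  set θ : ℝ := (2 : ℝ) ^ (1 / (1 - ε)) with hθ
  have hθ2 : 2 < θ := by
    have h1 : (2 : ℝ) ^ (1 : ℝ) < (2 : ℝ) ^ (1 / (1 - ε)) := by
      apply Real.rpow_lt_rpow_of_exponent_lt (by norm_num)
      rw [lt_div_iff₀ (by linarith)]; linarith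
    rwa [Real.rpow_one] at h1
  have hθpow : θ ^ (1 - ε) = 2 := by
    rw [hθ, ← Real.rpow_mul (by norm_num), one_div_mul_cancel (by linarith), Real.rpow_one]
  -- next element in `(T, (θ - 1) T]`
  set δ : ℝ := 1 - 1 / (θ - 1) with hδ
  have hθ1 : 1 < θ - 1 := by linarith
  have hδ0 : 0 < δ := by
    rw [hδ, sub_pos, div_lt_one (by linarith)]; exact hθ1
  have hδ1 : δ < 1 := by
    rw [hδ]
    have : 0 < 1 / (θ - 1) := by positivity
    linarith
  obtain ⟨Y0, hY01, hY0⟩ := dens hp hq hpq hδ0 hδ1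
  obtain ⟨T0, hT0⟩ := exists_nat_gt Y0
  have hT01 : (1 : ℝ) ≤ T0 := by linarith
  have hchain : ∀ i : ℕ, ∃ A : Finset ℕ, (∀ s ∈ A, IsS p q s) ∧ A.card = i ∧
      (∀ B B' : Finset ℕ, B ⊆ A → B' ⊆ A → ∑ s ∈ B, s = ∑ s ∈ B', s → B = B') ∧
      ((T0 + ∑ s ∈ A, s : ℕ) : ℝ) ≤ T0 * θ ^ i := by
    intro i
    induction i with
    | zero =>
      refine ⟨∅, by simp, by simp, ?_, by simp⟩
      intro B B' hB hB' _
      rw [Finset.subset_empty.mp hB, Finset.subset_empty.mp hB']
    | succ i ih =>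
      obtain ⟨A, hA1, hA2, hA3, hA4⟩ := ih
      set T : ℕ := T0 + ∑ s ∈ A, s with hT
      have hTT0 : (T0 : ℝ) ≤ T := by exact_mod_cast (by omega : T0 ≤ T)
      obtain ⟨α, β, h1, h2⟩ := hY0 ((θ - 1) * T) (by nlinarith)
      set s := p ^ α * q ^ β with hs
      have h3 : (1 - δ) * ((θ - 1) * T) = T := by
        rw [hδ]
        have : θ - 1 ≠ 0 := by linarith
        field_simp
        ring
      rw [h3] at h1
      have h4 : T < s := by exact_mod_cast h1
      have hsA : s ∉ A := by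
        intro hmem
        have : s ≤ ∑ s ∈ A, s :=
          Finset.single_le_sum (f := fun s : ℕ => s) (fun _ _ => Nat.zero_le _) hmem
        omega
      refine ⟨insert s A, ?_, ?_, ?_, ?_⟩
      · intro x hx
        rcases Finset.mem_insert.mp hx with rfl | hx
        · exact ⟨α, β, rfl⟩
        · exact hA1 x hx
      · rw [Finset.card_insert_of_notMem hsA, hA2]
      · have hlt : ∀ B : Finset ℕ, B ⊆ A → ∑ s ∈ B, s < s := by
          intro B hB
          have : ∑ s ∈ B, s ≤ ∑ s ∈ A, s := Finset.sum_le_sum_of_subset hB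
          omega
        have herase : ∀ B : Finset ℕ, B ⊆ insert s A → B.erase s ⊆ A := by
          intro B hB x hx
          rcases Finset.mem_insert.mp (hB (Finset.mem_of_mem_erase hx)) with h | h
          · exact absurd h (Finset.ne_of_mem_erase hx)
          · exact h
        have hnot : ∀ B : Finset ℕ, B ⊆ insert s A → s ∉ B → B ⊆ A := by
          intro B hB hsB x hx
          rcases Finset.mem_insert.mp (hB hx) with h | h
          · exact absurd (h ▸ hx) hsB
          · exact h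
        intro B B' hB hB' hsum
        by_cases hsB : s ∈ B
        · by_cases hsB' : s ∈ B'
          · have e1 := Finset.add_sum_erase B (fun s => s) hsB
            have e2 := Finset.add_sum_erase B' (fun s => s) hsB'
            have e3 : B.erase s = B'.erase s :=
              hA3 _ _ (herase B hB) (herase B' hB') (by omega)
            rw [← Finset.insert_erase hsB, ← Finset.insert_erase hsB', e3]
          · exfalso
            have e1 : s ≤ ∑ s ∈ B, s :=
              Finset.single_le_sum (f := fun s : ℕ => s) (fun _ _ => Nat.zero_le _) hsB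
            have e2 := hlt B' (hnot B' hB' hsB')
            omega
        · by_cases hsB' : s ∈ B'
          · exfalso
            have e1 : s ≤ ∑ s ∈ B', s :=
              Finset.single_le_sum (f := fun s : ℕ => s) (fun _ _ => Nat.zero_le _) hsB'
            have e2 := hlt B (hnot B hB hsB)
            omega
          · exact hA3 _ _ (hnot B hB hsB) (hnot B' hB' hsB') hsum
      · rw [Finset.sum_insert hsA]
        have h5 : ((T0 + (s + ∑ s ∈ A, s) : ℕ) : ℝ) = T + s := by rw [hT]; push_cast; ring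
        rw [h5]
        calc (T : ℝ) + s ≤ T + (θ - 1) * T := by linarith
          _ = θ * T := by ring
          _ ≤ θ * (T0 * θ ^ i) := mul_le_mul_of_nonneg_left hA4 (by linarith)
          _ = T0 * θ ^ (i + 1) := by rw [pow_succ]; ring
  refine ⟨1 / (2 * (T0 : ℝ)), by positivity, ?_⟩
  intro x hx
  have hx1 : (1 : ℝ) ≤ x := by exact_mod_cast hx
  by_cases hxT : (x : ℝ) < T0
  · refine ⟨∅, by simp, by simp, ?_, ?_⟩
    · intro B B' hB hB' _
      rw [Finset.subset_empty.mp hB, Finset.subset_empty.mp hB']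
    · rw [Finset.card_empty, pow_zero, one_div_mul_eq_div, div_le_one (by positivity)]
      calc (x : ℝ) ^ (1 - ε) ≤ (x : ℝ) ^ (1 : ℝ) :=
            Real.rpow_le_rpow_of_exponent_le hx1 (by linarith)
        _ = x := Real.rpow_one _
        _ ≤ 2 * T0 := by linarith
  · push Not at hxT
    have hex : ∃ m : ℕ, (x : ℝ) < T0 * θ ^ m := by
      obtain ⟨m, hm⟩ := pow_unbounded_of_one_lt (x : ℝ) (by linarith : 1 < θ)
      refine ⟨m, lt_of_lt_of_le hm ?_⟩
      have : (0 : ℝ) < θ ^ m := by positivity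
      nlinarith
    set k := Nat.find hex with hk
    have hk1 : (x : ℝ) < T0 * θ ^ k := Nat.find_spec hex
    have hk0 : k ≠ 0 := by
      intro h0
      rw [h0, pow_zero] at hk1
      linarith
    have hk2 : T0 * θ ^ (k - 1) ≤ x := by
      have := Nat.find_min hex (m := k - 1) (by omega)
      exact not_lt.mp this
    obtain ⟨A, hA1, hA2, hA3, hA4⟩ := hchain (k - 1)
    refine ⟨A, hA1, ?_, hA3, ?_⟩
    · have h1 : ((T0 + ∑ s ∈ A, s : ℕ) : ℝ) ≤ x := le_trans hA4 hk2
      have h2 : T0 + ∑ s ∈ A, s ≤ x := by exact_mod_cast h1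
      omega
    · rw [hA2]
      have h3 : (x : ℝ) ^ (1 - ε) ≤ (T0 * θ ^ k) ^ (1 - ε) :=
        Real.rpow_le_rpow (by linarith) hk1.le (by linarith)
      have h4 : (T0 * θ ^ k : ℝ) ^ (1 - ε) = (T0 : ℝ) ^ (1 - ε) * 2 ^ k := by
        rw [Real.mul_rpow (by linarith) (by positivity)]
        congr 1
        rw [pow_rpow_comm (by linarith : (0 : ℝ) ≤ θ), hθpow]
      have h5 : (T0 : ℝ) ^ (1 - ε) ≤ T0 := by
        calc (T0 : ℝ) ^ (1 - ε) ≤ (T0 : ℝ) ^ (1 : ℝ) :=
              Real.rpow_le_rpow_of_exponent_le hT01 (by linarith)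
          _ = T0 := Real.rpow_one _
      have h6 : (2 : ℝ) ^ k = 2 * 2 ^ (k - 1) := by
        rw [← pow_succ']; congr 1; omega
      rw [h4] at h3
      rw [one_div_mul_eq_div, div_le_iff₀ (by positivity)]
      calc (x : ℝ) ^ (1 - ε) ≤ (T0 : ℝ) ^ (1 - ε) * 2 ^ k := h3
        _ ≤ T0 * 2 ^ k := mul_le_mul_of_nonneg_right h5 (by positivity)
        _ = 2 ^ (k - 1) * (2 * T0) := by rw [h6]; ring

end Pool.Agent.R447.Comp
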