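import Pool.Agent.R447.CubeRep

/-!
# Digits of the elements of a basis
-/

set_option autoImplicit false

open Finset Filter

namespace Pool.Agent.R447.Prod

/-- `A` is an asymptotic basis of order `h` -/
def IsBasis (A : Set ℕ) (h : ℕ) : Prop :=
  ∃ n₀ : ℕ, ∀ n : ℕ, n₀ ≤ n →
    ∃ s : Multiset ℕ, Multiset.card s = h ∧ (∀ a ∈ s, a ∈ A) ∧ s.sum = n

theorem fin_Iio (A : Set ℕ) (N : ℕ) : (A ∩ Set.Iio N).Finite := (Set.finite_Iio N).inter_of_right A

theorem count_lower (A : Set ℕ) (h : ℕ) (hA : IsBasis A h) :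
    ∃ n₀ : ℕ, ∀ N : ℕ, N ≤ n₀ + ((A ∩ Set.Iio N).ncard) ^ h := by
  classical
  obtain ⟨n₀, hn₀⟩ := hA
  refine ⟨n₀, fun N => ?_⟩
  set F : Finset ℕ := (fin_Iio A N).toFinset with hF
  have hFc : (A ∩ Set.Iio N).ncard = F.card := Set.ncard_eq_toFinset_card _ _
  set Q : Finset (Fin h → ℕ) := Fintype.piFinset (fun _ => F) with hQ
  have hsub : Finset.Ico n₀ N ⊆ Q.image (fun f => ∑ i, f i) := by
    intro n hn
    rw [Finset.mem_Ico] at hn
    obtain ⟨s, hc, hs, hsum⟩ := hn₀ n hn.1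
    rw [mem_image]
    induction s using Quotient.inductionOn with
    | h l =>
      simp only [Multiset.quot_mk_to_coe] at *
      rw [Multiset.coe_card] at hc
      rw [Multiset.sum_coe] at hsum
      subst hc
      refine ⟨fun i => l.get i, ?_, ?_⟩
      · rw [hQ, Fintype.mem_piFinset]
        intro i
        rw [hF, Set.Finite.mem_toFinset]
        have h1 : l.get i ≤ l.sum := List.single_le_sum (fun _ _ => Nat.zero_le _) _ (List.get_mem l i)
        exact ⟨hs _ (by simp), by simp only [Set.mem_Iio]; omega⟩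
      · rw [← hsum, ← List.sum_ofFn, List.ofFn_get]
  have h1 := Finset.card_le_card hsub
  rw [Nat.card_Ico] at h1
  have h2 : (Q.image (fun f => ∑ i, f i)).card ≤ F.card ^ h := by
    refine Finset.card_image_le.trans ?_
    rw [hQ, Fintype.card_piFinset_const]
  rw [hFc]
  omega

theorem count_upper (A : Set ℕ) (h N R : ℕ) (hR : ∀ n, n ≤ h * N → rep A h n ≤ R) :
    ((A ∩ Set.Iio N).ncard) ^ h ≤ h.factorial * (R * (h * N + 1)) := by
  classical
  set F : Finset ℕ := (fin_Iio A N).toFinset with hF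
  have hFc : (A ∩ Set.Iio N).ncard = F.card := Set.ncard_eq_toFinset_card _ _
  set Q : Finset (Fin h → ℕ) := Fintype.piFinset (fun _ => F) with hQ
  have hQc : Q.card = F.card ^ h := by rw [hQ, Fintype.card_piFinset_const]
  set L : (Fin h → ℕ) → List ℕ := fun f => List.ofFn f with hL
  have h1 : Q.card ≤ h.factorial * (Q.image (fun f => ((L f : List ℕ) : Multiset ℕ))).card := by
    refine Finset.card_le_mul_card_image Q _ ?_
    intro m hm
    rw [mem_image] at hm
    obtain ⟨P1, hP1, rfl⟩ := hm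
    have h2 : (Q.filter (fun P => ((L P : List ℕ) : Multiset ℕ) = ((L P1 : List ℕ) : Multiset ℕ))).card
        ≤ ((L P1).permutations.toFinset).card := by
      refine Finset.card_le_card_of_injOn L ?_ (List.ofFn_injective.injOn)
      intro P hP
      rw [Finset.mem_coe, mem_filter, Multiset.coe_eq_coe] at hP
      rw [Finset.mem_coe, List.mem_toFinset, List.mem_permutations]
      exact hP.2
    refine h2.trans ?_
    refine (List.toFinset_card_le _).trans ?_
    rw [List.length_permutations]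
    rw [hL]
    simp
  rw [hFc, ← hQc]
  refine h1.trans (Nat.mul_le_mul_left _ ?_)
  -- the multisets are distributed over the sums
  set G : ℕ → Finset (Multiset ℕ) := fun n => (msets_finite A h n).toFinset with hG
  have hsub : Q.image (fun f => ((L f : List ℕ) : Multiset ℕ)) ⊆ (range (h * N + 1)).biUnion G := by
    intro s hs
    rw [mem_image] at hs
    obtain ⟨f, hf, rfl⟩ := hs
    rw [hQ, Fintype.mem_piFinset] at hf
    have hf' : ∀ i, f i ∈ A ∧ f i < N := by
      intro i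
      have := hf i
      rw [hF, Set.Finite.mem_toFinset] at this
      exact this
    rw [mem_biUnion]
    refine ⟨(L f).sum, ?_, ?_⟩
    · rw [mem_range, hL]
      simp only [List.sum_ofFn]
      have : ∑ i, f i ≤ ∑ _i : Fin h, N := Finset.sum_le_sum (fun i _ => (hf' i).2.le)
      rw [Finset.sum_const, card_univ, Fintype.card_fin, smul_eq_mul] at this
      omega
    · rw [hG]
      simp only [Set.Finite.mem_toFinset, Set.mem_ofPred_eq]
      refine ⟨by rw [Multiset.coe_card, hL]; simp, ?_, Multiset.sum_coe _⟩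
      intro b hb
      rw [Multiset.mem_coe, hL] at hb
      simp only [List.mem_ofFn] at hb
      obtain ⟨j, rfl⟩ := hb
      exact (hf' j).1
  refine (Finset.card_le_card hsub).trans ?_
  refine (Finset.card_biUnion_le).trans ?_
  have h3 : ∀ n ∈ range (h * N + 1), (G n).card ≤ R := by
    intro n hn
    rw [mem_range] at hn
    have := hR n (by omega)
    unfold rep at this
    rwa [Set.ncard_eq_toFinset_card _ (msets_finite A h n)] at this
  refine (Finset.sum_le_sum h3).trans ?_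
  rw [Finset.sum_const, card_range, smul_eq_mul, mul_comm]

theorem digit_sum (q a : ℕ) : ∀ k : ℕ, ∑ i : Fin k, q ^ (i : ℕ) * (a / q ^ (i : ℕ) % q) = a % q ^ k := by
  intro k
  induction k with
  | zero => simp [Nat.mod_one]
  | succ k ih =>
    rw [Fin.sum_univ_castSucc]
    simp only [Fin.val_castSucc, Fin.val_last]
    rw [ih, pow_succ, Nat.mod_mul]

/-- If all the elements of `A` below `q ^ k` use only digits from `D`. -/
theorem dense_step (A : Set ℕ) (h q k : ℕ) (hk : 1 ≤ k) (hq : 1 ≤ q) (D : Finset ℕ)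
    (hD : ∀ a ∈ A, a < q ^ k → ∀ i, i < k → a / q ^ i % q ∈ D) (hD1 : 1 ≤ D.card)
    (hr : ∀ n, n ≤ h * q ^ k → h.factorial * rep A h n < (h.choose (h / 2)) ^ k) :
    ((A ∩ Set.Iio (q ^ k)).ncard : ℝ) < 2 * (D.card : ℝ) ^ k *
      (D.card : ℝ) ^ (-(1 / 2 ^ (k - 1) : ℝ)) := by
  classical
  obtain ⟨j, rfl⟩ : ∃ j, k = j + 1 := ⟨k - 1, by omega⟩
  by_contra hcon
  rw [not_lt] at hcon
  set X : Fin (j + 1) → Finset ℤ := fun i => D.image (fun d => ((q ^ (i : ℕ) * d : ℕ) : ℤ)) with hX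
  have hXc : ∀ i, (X i).card = D.card := by
    intro i
    rw [hX]
    refine Finset.card_image_of_injective _ ?_
    intro d d' hdd
    have h0 : ((q ^ (i : ℕ) * d : ℕ) : ℤ) = ((q ^ (i : ℕ) * d' : ℕ) : ℤ) := hdd
    have h1 : q ^ (i : ℕ) * d = q ^ (i : ℕ) * d' := by exact_mod_cast h0
    exact Nat.eq_of_mul_eq_mul_left (pow_pos (by omega) _) h1
  obtain ⟨n, hn, hrn⟩ := main A h (q ^ (j + 1)) X D.card hD1 (fun i => (hXc i).ge) (by
    have h1 : (∏ i, ((X i).card : ℝ)) = (D.card : ℝ) ^ (j + 1) := by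
      simp_rw [hXc]
      simp
    rw [h1]
    simp only [Nat.add_sub_cancel] at hcon
    refine hcon.trans ?_
    have h2 : A ∩ Set.Iio (q ^ (j + 1)) ⊆ {a : ℕ | a ∈ A ∧ a ≤ q ^ (j + 1) ∧
        ∃ x : Fin (j + 1) → ℤ, (∀ i, x i ∈ X i) ∧ ∑ i, x i = a} := by
      rintro a ⟨ha, haN⟩
      rw [Set.mem_Iio] at haN
      refine ⟨ha, haN.le, fun i => ((q ^ (i : ℕ) * (a / q ^ (i : ℕ) % q) : ℕ) : ℤ), ?_, ?_⟩
      · intro i
        rw [hX]
        simp only
        rw [mem_image]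
        exact ⟨a / q ^ (i : ℕ) % q, hD a ha haN i i.2, rfl⟩
      · rw [← Nat.cast_sum, digit_sum, Nat.mod_eq_of_lt haN]
    exact_mod_cast Set.ncard_le_ncard h2 ((Set.finite_Iic (q ^ (j + 1))).subset (fun a ha => ha.2.1)))
  have := hr n hn
  omega

/-- the digits in base `q` used by the elements of `A` below `q ^ k` -/
def digits (A : Set ℕ) (q k : ℕ) : Set ℕ := {d | ∃ a ∈ A, a < q ^ k ∧ ∃ i, i < k ∧ a / q ^ i % q = d}

theorem digits_finite (A : Set ℕ) (q k : ℕ) (hq : 1 ≤ q) : (digits A q k).Finite := by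
  refine (Set.finite_Iio q).subset ?_
  rintro d ⟨a, _, _, i, _, rfl⟩
  exact Nat.mod_lt _ (by omega)

theorem digits_bound (A : Set ℕ) (h k : ℕ) (hh : 1 ≤ h) (hk : 1 ≤ k) (hA : IsBasis A h)
    (hr : ∀ n, h.factorial * rep A h n < (h.choose (h / 2)) ^ k) :
    ∀ᶠ q : ℕ in atTop, (q : ℝ) ^ ((1 : ℝ) / h + 1 / (h * k * 2 ^ (k - 1))) <
      ((digits A q k).ncard : ℝ) := by
  classical
  obtain ⟨n₀, hn₀⟩ := count_lower A h hA
  have hh0 : (0 : ℝ) < h := by exact_mod_cast hh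
  have hk0 : (0 : ℝ) < k := by exact_mod_cast hk
  have hk1 : (1 : ℝ) ≤ k := by exact_mod_cast hk
  have h2p : (1 : ℝ) ≤ 2 ^ (k - 1) := one_le_pow₀ (by norm_num)
  set P : ℝ := 2 ^ (k - 1) with hP
  have hP0 : 0 < P := by linarith
  set ε : ℝ := 1 / (h * k * P) with hε
  have hε0 : 0 < ε := by rw [hε]; positivity
  set η : ℝ := h * ε / P with hη
  have hη0 : 0 < η := by rw [hη]; positivity
  have hηk : η ≤ k := by
    have : η = 1 / (k * P * P) := by
      rw [hη, hε]; field_simp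
    rw [this]
    have h1 : 1 ≤ k * P * P := by
      have : 1 ≤ k * P := by nlinarith
      nlinarith
    have h2 : 1 / (k * P * P) ≤ 1 := by
      rw [div_le_one (by positivity)]; exact h1
    linarith
  have hlarge : ∀ᶠ q : ℕ in atTop, (2 : ℝ) ^ h + n₀ + 1 ≤ (q : ℝ) ^ η :=
    ((tendsto_rpow_atTop hη0).comp tendsto_natCast_atTop_atTop).eventually_ge_atTop _
  filter_upwards [hlarge, eventually_ge_atTop 2, eventually_gt_atTop n₀] with q hq1 hq2 hq3
  by_contra hcon
  rw [not_lt] at hcon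
  have hq0 : (0 : ℝ) < q := by exact_mod_cast (show 0 < q by omega)
  have hq1' : (1 : ℝ) ≤ q := by exact_mod_cast (show 1 ≤ q by omega)
  set D : Finset ℕ := (digits_finite A q k (by omega)).toFinset with hD
  have hDc : (digits A q k).ncard = D.card := Set.ncard_eq_toFinset_card _ _
  have hA1 := hn₀ (q ^ k)
  have hqk : q ≤ q ^ k := Nat.le_self_pow (by omega) q
  -- there is an element of A below q ^ k
  have hD1 : 1 ≤ D.card := by
    have h1 : (A ∩ Set.Iio (q ^ k)).ncard ≠ 0 := by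
      intro h2
      rw [h2, zero_pow (by omega)] at hA1
      omega
    obtain ⟨a, ha⟩ := Set.nonempty_of_ncard_ne_zero h1
    rw [Nat.one_le_iff_ne_zero, ← Nat.pos_iff_ne_zero, Finset.card_pos]
    refine ⟨a / q ^ 0 % q, ?_⟩
    rw [hD, Set.Finite.mem_toFinset]
    exact ⟨a, ha.1, ha.2, 0, by omega, rfl⟩
  have hstep := dense_step A h q k hk (by omega) D (by
    intro a ha haq i hi
    rw [hD, Set.Finite.mem_toFinset]
    exact ⟨a, ha, haq, i, hi, rfl⟩) hD1 (fun n _ => hr n)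
  rw [hDc] at hcon
  set d : ℝ := (D.card : ℝ) with hd
  have hd0 : 0 < d := by rw [hd]; exact_mod_cast hD1
  -- combine
  have h1 : (2 : ℝ) * d ^ k * d ^ (-(1 / P)) = 2 * d ^ ((k : ℝ) - 1 / P) := by
    rw [mul_assoc, ← Real.rpow_natCast d k, ← Real.rpow_add hd0]
    rfl
  have hexp : 0 ≤ (k : ℝ) - 1 / P := by
    have : 1 / P ≤ 1 := by rw [div_le_one hP0]; exact h2p
    linarith
  have h2 : d ^ ((k : ℝ) - 1 / P) ≤ (q : ℝ) ^ ((1 / h + ε) * ((k : ℝ) - 1 / P)) := by
    rw [Real.rpow_mul hq0.le]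
    exact Real.rpow_le_rpow hd0.le hcon hexp
  have h3 : (1 / h + ε) * ((k : ℝ) - 1 / P) * h = k - η := by
    rw [hη, hε]
    field_simp
    ring
  set c : ℝ := ((A ∩ Set.Iio (q ^ k)).ncard : ℝ) with hc
  have h4 : c < 2 * (q : ℝ) ^ ((1 / h + ε) * ((k : ℝ) - 1 / P)) := by
    calc c < 2 * d ^ k * d ^ (-(1 / P)) := hstep
      _ = 2 * d ^ ((k : ℝ) - 1 / P) := h1
      _ ≤ _ := mul_le_mul_of_nonneg_left h2 (by norm_num)
  have h5 : c ^ h ≤ 2 ^ h * (q : ℝ) ^ (k - η) := by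
    have h6 : c ^ h ≤ (2 * (q : ℝ) ^ ((1 / h + ε) * ((k : ℝ) - 1 / P))) ^ h :=
      pow_le_pow_left₀ (by rw [hc]; positivity) h4.le h
    rw [mul_pow, ← Real.rpow_natCast ((q : ℝ) ^ ((1 / h + ε) * ((k : ℝ) - 1 / P))) h,
      ← Real.rpow_mul hq0.le, h3] at h6
    exact h6
  have h6 : (q : ℝ) ^ k ≤ n₀ + c ^ h := by
    rw [hc]; exact_mod_cast hA1
  have h7 : (q : ℝ) ^ (k : ℕ) = (q : ℝ) ^ η * (q : ℝ) ^ (k - η) := by
    rw [← Real.rpow_add hq0, ← Real.rpow_natCast]
    congr 1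
    ring
  have h8 : (1 : ℝ) ≤ (q : ℝ) ^ (k - η) := Real.one_le_rpow hq1' (by linarith)
  rw [h7] at h6
  have h9 : ((2 : ℝ) ^ h + n₀ + 1) * (q : ℝ) ^ (k - η) ≤ (q : ℝ) ^ η * (q : ℝ) ^ (k - η) :=
    mul_le_mul_of_nonneg_right hq1 (by linarith)
  have h10 : (n₀ : ℝ) ≤ n₀ * (q : ℝ) ^ (k - η) := le_mul_of_one_le_right (Nat.cast_nonneg _) h8
  nlinarith

end Pool.Agent.R447.Prod
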