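import Pool.Agent.R447.CubeDigits

/-!
# Growth of the representation function of block closed bases
-/

set_option autoImplicit false

open Finset Filter

namespace Pool.Agent.R447.Prod

theorem rpow_lt_rpow_eventually (C a b : ℝ) (hab : a < b) :
    ∀ᶠ x : ℝ in atTop, C * x ^ a < x ^ b := by
  filter_upwards [(tendsto_rpow_atTop (sub_pos.2 hab)).eventually_gt_atTop C,
    eventually_gt_atTop (0 : ℝ)] with x h1 h2
  have h3 : x ^ b = x ^ (b - a) * x ^ a := by
    rw [← Real.rpow_add h2]; congr 1; ring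
  rw [h3]
  exact mul_lt_mul_of_pos_right h1 (Real.rpow_pos_of_pos h2 _)

theorem ana1 (F R0 L1 L2 β γ : ℝ) (hF : 0 ≤ F) (hR : 0 ≤ R0) (hL1 : 0 ≤ L1) (hL2 : 0 ≤ L2)
    (hβ : 0 < β) (hγ : β < γ) :
    ∀ᶠ x : ℝ in atTop, F * (R0 + (L1 + x * (2 * Real.log x + 1) * L2) ^ β) < x ^ γ := by
  set σ : ℝ := (γ / β - 1) / 2 with hσ
  have hσ0 : 0 < σ := by
    have : 1 < γ / β := by rw [lt_div_iff₀ hβ]; linarith
    rw [hσ]; linarith
  have hσβ : (1 + σ) * β < γ := by
    have : (1 + σ) * β = (β + γ) / 2 := by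
      rw [hσ]; field_simp; ring
    rw [this]; linarith
  set C1 : ℝ := L1 + (2 / σ + 1) * L2 with hC1
  have hC1' : 0 ≤ C1 := by positivity
  filter_upwards [rpow_lt_rpow_eventually (F * (R0 + C1 ^ β)) ((1 + σ) * β) γ hσβ,
    eventually_ge_atTop (1 : ℝ)] with x h1 hx
  have hx0 : 0 < x := by linarith
  have hlog : Real.log x ≤ x ^ σ / σ := Real.log_le_rpow_div hx0.le hσ0
  have hlog0 : 0 ≤ Real.log x := Real.log_nonneg hx
  have hxσ : 1 ≤ x ^ σ := Real.one_le_rpow hx hσ0.le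
  have hx1σ : x ^ (1 + σ) = x * x ^ σ := by rw [Real.rpow_add hx0, Real.rpow_one]
  have h2 : L1 + x * (2 * Real.log x + 1) * L2 ≤ C1 * x ^ (1 + σ) := by
    rw [hx1σ, hC1]
    have h3 : 2 * Real.log x + 1 ≤ (2 / σ + 1) * x ^ σ := by
      have : 2 * (x ^ σ / σ) = 2 / σ * x ^ σ := by ring
      nlinarith
    have h4 : x * (2 * Real.log x + 1) * L2 ≤ x * ((2 / σ + 1) * x ^ σ) * L2 :=
      mul_le_mul_of_nonneg_right (mul_le_mul_of_nonneg_left h3 hx0.le) hL2
    have h5 : L1 ≤ L1 * (x * x ^ σ) := by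
      refine le_mul_of_one_le_right hL1 ?_
      nlinarith
    nlinarith
  have h6 : 0 ≤ L1 + x * (2 * Real.log x + 1) * L2 := by positivity
  have h7 : (L1 + x * (2 * Real.log x + 1) * L2) ^ β ≤ C1 ^ β * x ^ ((1 + σ) * β) := by
    refine (Real.rpow_le_rpow h6 h2 hβ.le).trans ?_
    rw [Real.mul_rpow hC1' (by positivity), ← Real.rpow_mul hx0.le]
  have h8 : R0 ≤ R0 * x ^ ((1 + σ) * β) :=
    le_mul_of_one_le_right hR (Real.one_le_rpow hx (by positivity))
  refine lt_of_le_of_lt ?_ h1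
  rw [show F * (R0 + C1 ^ β) * x ^ ((1 + σ) * β) = F * ((R0 + C1 ^ β) * x ^ ((1 + σ) * β)) by ring]
  refine mul_le_mul_of_nonneg_left ?_ hF
  nlinarith

theorem ana2 (H C4 β L θ : ℝ) (hH : 0 ≤ H) (hC4 : 0 ≤ C4) (hβ : 0 ≤ β) (hL : 0 < L) (hθ : θ < 1) :
    ∀ᶠ x : ℝ in atTop, H + (2 * Real.log x + 1) * (C4 + β * Real.log x) < L * x ^ (1 - θ) := by
  set τ : ℝ := (1 - θ) / 4 with hτ
  have hτ0 : 0 < τ := by rw [hτ]; linarith
  set C5 : ℝ := H + (2 / τ + 1) * (C4 + β / τ) with hC5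
  filter_upwards [rpow_lt_rpow_eventually (C5 / L) (2 * τ) (1 - θ) (by rw [hτ]; linarith),
    eventually_ge_atTop (1 : ℝ)] with x h1 hx
  have hx0 : 0 < x := by linarith
  have hlog : Real.log x ≤ x ^ τ / τ := Real.log_le_rpow_div hx0.le hτ0
  have hlog0 : 0 ≤ Real.log x := Real.log_nonneg hx
  have hxτ : 1 ≤ x ^ τ := Real.one_le_rpow hx hτ0.le
  have hx2τ : x ^ (2 * τ) = x ^ τ * x ^ τ := by
    rw [← Real.rpow_add hx0]; congr 1; ring
  have h3 : 2 * Real.log x + 1 ≤ (2 / τ + 1) * x ^ τ := by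
    have : 2 * (x ^ τ / τ) = 2 / τ * x ^ τ := by ring
    nlinarith
  have h4 : C4 + β * Real.log x ≤ (C4 + β / τ) * x ^ τ := by
    have h5 : β * Real.log x ≤ β * (x ^ τ / τ) := mul_le_mul_of_nonneg_left hlog hβ
    have h6 : β * (x ^ τ / τ) = β / τ * x ^ τ := by ring
    nlinarith
  have h7 : (2 * Real.log x + 1) * (C4 + β * Real.log x) ≤
      ((2 / τ + 1) * x ^ τ) * ((C4 + β / τ) * x ^ τ) :=
    mul_le_mul h3 h4 (by positivity) (by positivity)
  have h8 : H ≤ H * x ^ (2 * τ) := le_mul_of_one_le_right hH (by rw [hx2τ]; nlinarith)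
  have h9 : H + (2 * Real.log x + 1) * (C4 + β * Real.log x) ≤ C5 * x ^ (2 * τ) := by
    have e1 : C5 * x ^ (2 * τ) = H * x ^ (2 * τ) +
        ((2 / τ + 1) * x ^ τ) * ((C4 + β / τ) * x ^ τ) := by rw [hC5, hx2τ]; ring
    rw [e1]
    exact add_le_add h8 h7
  refine lt_of_le_of_lt h9 ?_
  have h10 : C5 / L * x ^ (2 * τ) * L < x ^ (1 - θ) * L := mul_lt_mul_of_pos_right h1 hL
  have h11 : C5 / L * x ^ (2 * τ) * L = C5 * x ^ (2 * τ) := by field_simp
  linarith

set_option maxHeartbeats 4000000 in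
theorem block_growth (A : Set ℕ) (h b : ℕ) (hh : 2 ≤ h) (hb : 2 ≤ b) (hA : IsBasis A h)
    (hB : ∀ a ∈ A, ∀ i m : ℕ, a / b ^ i % b ^ m ∈ A) (β : ℝ) (hβ0 : 0 < β)
    (hβ : β < Real.logb 2 (h.choose (h / 2) : ℝ)) :
    ∃ᶠ n : ℕ in atTop, (Real.log n) ^ β ≤ (rep A h n : ℝ) := by
  classical
  by_contra hcon
  rw [not_frequently] at hcon
  obtain ⟨n₁, hn₁⟩ := eventually_atTop.1 hcon
  obtain ⟨n₀, hn₀⟩ := count_lower A h hA
  -- a bound for the small values
  set R0 : ℕ := ∑ n ∈ range n₁, rep A h n with hR0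
  have hrep : ∀ n N : ℕ, 1 ≤ N → n ≤ N → (rep A h n : ℝ) ≤ R0 + (Real.log N) ^ β := by
    intro n N hN hnN
    have hlogN : 0 ≤ Real.log N := Real.log_natCast_nonneg N
    have h0 : 0 ≤ (Real.log N) ^ β := Real.rpow_nonneg hlogN _
    by_cases h1 : n < n₁
    · have h2 : rep A h n ≤ R0 := by
        rw [hR0]
        exact Finset.single_le_sum (f := fun n => rep A h n) (fun _ _ => Nat.zero_le _)
          (mem_range.2 h1)
      have h3 : (rep A h n : ℝ) ≤ R0 := by exact_mod_cast h2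
      linarith
    · have h2 := hn₁ n (not_lt.1 h1)
      rw [not_le] at h2
      have h3 : (Real.log n) ^ β ≤ (Real.log N) ^ β := by
        refine Real.rpow_le_rpow (Real.log_natCast_nonneg n) ?_ hβ0.le
        rcases Nat.eq_zero_or_pos n with h4 | h4
        · rw [h4]; simpa using hlogN
        · exact Real.log_le_log (by exact_mod_cast h4) (by exact_mod_cast hnN)
      have h4 : (0 : ℝ) ≤ R0 := Nat.cast_nonneg _
      linarith
  -- the parameters
  set C : ℕ := h.choose (h / 2) with hC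
  have hC2 : 2 ≤ C := by
    have h1 : h ≤ h.choose (h / 2) := by
      have := Nat.choose_le_middle 1 h
      rwa [Nat.choose_one_right] at this
    omega
  have hCr : (0 : ℝ) < C := by exact_mod_cast (show 0 < C by omega)
  set β₀ : ℝ := Real.logb 2 (C : ℝ) with hβ₀
  have hβ₀C : (2 : ℝ) ^ β₀ = C := Real.rpow_logb (by norm_num) (by norm_num) hCr
  have hβ₀0 : 0 < β₀ := hβ0.trans hβ
  set θ : ℝ := (β / β₀ + 1) / 2 with hθ
  have hθ1 : θ < 1 := by
    have : β / β₀ < 1 := by rw [div_lt_one hβ₀0]; exact hβ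
    rw [hθ]; linarith
  have hθ0 : 0 < θ := by rw [hθ]; positivity
  have hθβ : β < θ * β₀ := by
    have : θ * β₀ = (β + β₀) / 2 := by rw [hθ]; field_simp
    rw [this]; linarith
  have hlogb : 0 < Real.log b := Real.log_pos (by exact_mod_cast (show 1 < b by omega))
  have hlogh : 0 ≤ Real.log h := Real.log_natCast_nonneg h
  set C2 : ℝ := R0 + (Real.log h + Real.log b) ^ β with hC2def
  set C3 : ℝ := h.factorial * (2 * h) * C2 with hC3def
  set C4 : ℝ := |Real.log C3| with hC4def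
  have hC2pos : 0 < C2 := by
    have : 0 < (Real.log h + Real.log b) ^ β := Real.rpow_pos_of_pos (by linarith) _
    have h4 : (0 : ℝ) ≤ R0 := Nat.cast_nonneg _
    rw [hC2def]; linarith
  have hh0 : (0 : ℝ) < h := by exact_mod_cast (show 0 < h by omega)
  have hC3pos : 0 < C3 := by
    rw [hC3def]; positivity
  have hE1 := (ana1 (h.factorial : ℝ) R0 (Real.log h) (Real.log b) β (θ * β₀) (by positivity)
    (by positivity) hlogh hlogb.le hβ0 hθβ)
  have hE2 := (ana2 (h + 2 : ℝ) C4 β (Real.log b) θ (by positivity) (abs_nonneg _) hβ0.le hlogb hθ1)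
  have hE1' := tendsto_natCast_atTop_atTop.eventually hE1
  have hE2' := tendsto_natCast_atTop_atTop.eventually hE2
  obtain ⟨m, hm1, hm2, hm3, hm4⟩ := (hE1'.and (hE2'.and ((eventually_ge_atTop 1).and
    (eventually_ge_atTop (2 * n₀ + 1))))).exists
  set x : ℝ := (m : ℝ) with hx
  have hx1 : 1 ≤ x := by rw [hx]; exact_mod_cast hm3
  have hx0 : 0 < x := by linarith
  have hlogx : 0 ≤ Real.log x := Real.log_nonneg hx1
  set k : ℕ := ⌊Real.logb 2 (x ^ θ)⌋₊ + 1 with hk
  have hxθ1 : 1 ≤ x ^ θ := Real.one_le_rpow hx1 hθ0.le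
  have hxθ0 : 0 < x ^ θ := by linarith
  have hlb0 : 0 ≤ Real.logb 2 (x ^ θ) := Real.logb_nonneg (by norm_num) hxθ1
  have hk1 : 1 ≤ k := by omega
  have hkP : (2 : ℝ) ^ (k - 1) ≤ x ^ θ := by
    have h1 : ((k - 1 : ℕ) : ℝ) ≤ Real.logb 2 (x ^ θ) := by
      rw [hk, Nat.add_sub_cancel]; exact Nat.floor_le hlb0
    rw [← Real.rpow_natCast]
    calc (2 : ℝ) ^ (((k - 1 : ℕ) : ℝ)) ≤ 2 ^ Real.logb 2 (x ^ θ) :=
          Real.rpow_le_rpow_of_exponent_le (by norm_num) h1
      _ = x ^ θ := Real.rpow_logb (by norm_num) (by norm_num) hxθ0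
  have hkx : x ^ (θ * β₀) ≤ (C : ℝ) ^ k := by
    have h1 : Real.logb 2 (x ^ θ) ≤ k := by
      rw [hk]; push_cast; exact (Nat.lt_floor_add_one _).le
    have h2 : x ^ θ ≤ 2 ^ (k : ℝ) := by
      calc x ^ θ = 2 ^ Real.logb 2 (x ^ θ) := (Real.rpow_logb (by norm_num) (by norm_num) hxθ0).symm
        _ ≤ _ := Real.rpow_le_rpow_of_exponent_le (by norm_num) h1
    have h3 : (C : ℝ) ^ k = (2 ^ (k : ℝ)) ^ β₀ := by
      rw [← hβ₀C, ← Real.rpow_natCast, ← Real.rpow_mul (by norm_num), ← Real.rpow_mul (by norm_num),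
        mul_comm]
    rw [h3, Real.rpow_mul hx0.le]
    exact Real.rpow_le_rpow hxθ0.le h2 hβ₀0.le
  have hkup : (k : ℝ) ≤ 2 * Real.log x + 1 := by
    have h1 : (k : ℝ) ≤ Real.logb 2 (x ^ θ) + 1 := by
      rw [hk]; push_cast; linarith [Nat.floor_le hlb0]
    have h2 : Real.logb 2 (x ^ θ) ≤ 2 * Real.log x := by
      rw [Real.logb, Real.log_rpow hx0, div_le_iff₀ (Real.log_pos (by norm_num))]
      have h3 : (0.5 : ℝ) ≤ Real.log 2 := by linarith [Real.log_two_gt_d9]
      have h4 : θ * Real.log x ≤ 1 * Real.log x := mul_le_mul_of_nonneg_right hθ1.le hlogx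
      have h5 : Real.log x * 0.5 ≤ Real.log x * Real.log 2 := mul_le_mul_of_nonneg_left h3 hlogx
      have h6 : 2 * Real.log x * Real.log 2 = 2 * (Real.log x * Real.log 2) := by ring
      linarith
    linarith
  set q : ℕ := b ^ m with hq
  have hqm : m < q := Nat.lt_pow_self (by omega)
  have hq1 : 1 ≤ q := by omega
  have hqr : (0 : ℝ) < q := by exact_mod_cast hq1
  have hlogq : Real.log q = x * Real.log b := by
    rw [hq]; push_cast; rw [Real.log_pow]
  -- the first condition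
  have hsmall : ∀ n, n ≤ h * q ^ k → h.factorial * rep A h n < C ^ k := by
    intro n hn
    have hN1 : 1 ≤ h * q ^ k := Nat.mul_pos (by omega) (pow_pos hq1 k)
    have h1 := hrep n (h * q ^ k) hN1 hn
    have h2 : Real.log ((h * q ^ k : ℕ) : ℝ) ≤ Real.log h + x * (2 * Real.log x + 1) * Real.log b := by
      push_cast
      rw [Real.log_mul hh0.ne' (by positivity), Real.log_pow, hlogq]
      have : (k : ℝ) * (x * Real.log b) ≤ (2 * Real.log x + 1) * (x * Real.log b) :=
        mul_le_mul_of_nonneg_right hkup (mul_nonneg hx0.le hlogb.le)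
      have h20 : x * (2 * Real.log x + 1) * Real.log b =
          (2 * Real.log x + 1) * (x * Real.log b) := by ring
      rw [h20]
      exact add_le_add le_rfl this
    have h3 : (Real.log ((h * q ^ k : ℕ) : ℝ)) ^ β ≤
        (Real.log h + x * (2 * Real.log x + 1) * Real.log b) ^ β :=
      Real.rpow_le_rpow (Real.log_natCast_nonneg _) h2 hβ0.le
    have h4 : (h.factorial : ℝ) * rep A h n < (C : ℝ) ^ k := by
      refine lt_of_le_of_lt ?_ (hm1.trans_le hkx)
      refine mul_le_mul_of_nonneg_left ?_ (by positivity)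
      linarith
    exact_mod_cast h4
  set D : Finset ℕ := (fin_Iio A q).toFinset with hD
  have hDc : (A ∩ Set.Iio q).ncard = D.card := Set.ncard_eq_toFinset_card _ _
  have hDq := hn₀ q
  rw [hDc] at hDq
  have hD1 : 1 ≤ D.card := by
    by_contra h1
    have h2 : D.card = 0 := by omega
    rw [h2, zero_pow (by omega)] at hDq
    omega
  have hstep := dense_step A h q k hk1 hq1 D (by
    intro a ha haq i hi
    rw [hD, Set.Finite.mem_toFinset]
    refine ⟨?_, Nat.mod_lt _ hq1⟩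
    have := hB a ha (m * i) m
    rwa [pow_mul] at this) hD1 hsmall
  set P : ℝ := 2 ^ (k - 1) with hP
  have hP0 : 0 < P := by positivity
  set d : ℝ := (D.card : ℝ) with hd
  have hd0 : 0 < d := by rw [hd]; exact_mod_cast hD1
  set c : ℝ := ((A ∩ Set.Iio (q ^ k)).ncard : ℝ) with hc
  -- upper bound for `d ^ h`
  have hdup : d ^ h ≤ C3 * x ^ β * q := by
    have h1 := count_upper A h q ⌊(R0 : ℝ) + (Real.log ((h * q : ℕ) : ℝ)) ^ β⌋₊ (by
      intro n hn
      exact Nat.le_floor (hrep n (h * q) (Nat.mul_pos (by omega) hq1) hn))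
    rw [hDc] at h1
    have h2 : (⌊(R0 : ℝ) + (Real.log ((h * q : ℕ) : ℝ)) ^ β⌋₊ : ℝ) ≤ C2 * x ^ β := by
      have h3 : 0 ≤ (Real.log ((h * q : ℕ) : ℝ)) ^ β :=
        Real.rpow_nonneg (Real.log_natCast_nonneg _) _
      refine (Nat.floor_le (by positivity)).trans ?_
      have h4 : Real.log ((h * q : ℕ) : ℝ) ≤ (Real.log h + Real.log b) * x := by
        push_cast
        rw [Real.log_mul hh0.ne' hqr.ne', hlogq]
        have h40 : Real.log h ≤ Real.log h * x := le_mul_of_one_le_right hlogh hx1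
        have h41 : (Real.log h + Real.log b) * x = Real.log h * x + x * Real.log b := by ring
        rw [h41]
        exact add_le_add h40 le_rfl
      have h5 : (Real.log ((h * q : ℕ) : ℝ)) ^ β ≤ (Real.log h + Real.log b) ^ β * x ^ β := by
        rw [← Real.mul_rpow (by linarith) hx0.le]
        exact Real.rpow_le_rpow (Real.log_natCast_nonneg _) h4 hβ0.le
      have h6 : (R0 : ℝ) ≤ R0 * x ^ β :=
        le_mul_of_one_le_right (Nat.cast_nonneg _) (Real.one_le_rpow hx1 hβ0.le)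
      rw [hC2def, add_mul]
      linarith
    have h3 : d ^ h ≤ h.factorial * ((⌊(R0 : ℝ) + (Real.log ((h * q : ℕ) : ℝ)) ^ β⌋₊ : ℝ) *
        (h * q + 1)) := by
      rw [hd]; exact_mod_cast h1
    refine h3.trans ?_
    have h4 : (h : ℝ) * q + 1 ≤ 2 * h * q := by
      have : (1 : ℝ) ≤ h * q := by
        have : 1 ≤ h * q := Nat.mul_pos (by omega) hq1
        exact_mod_cast this
      linarith
    have h5 : (⌊(R0 : ℝ) + (Real.log ((h * q : ℕ) : ℝ)) ^ β⌋₊ : ℝ) * (h * q + 1) ≤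
        (C2 * x ^ β) * (2 * h * q) := mul_le_mul h2 h4 (by positivity) (by positivity)
    have h6 := mul_le_mul_of_nonneg_left h5 (Nat.cast_nonneg h.factorial : (0:ℝ) ≤ h.factorial)
    refine h6.trans (le_of_eq ?_)
    rw [hC3def]; ring
  have hqn : (2 * n₀ : ℝ) ≤ q := by
    have : 2 * n₀ ≤ q := by omega
    exact_mod_cast this
  have hdlow : (q : ℝ) / 2 ≤ d ^ h := by
    have h1 : (q : ℝ) ≤ n₀ + d ^ h := by rw [hd]; exact_mod_cast hDq
    linarith
  have hclow : (q : ℝ) ^ k / 2 ≤ c ^ h := by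
    have h1 : (q : ℝ) ^ k ≤ n₀ + c ^ h := by rw [hc]; exact_mod_cast hn₀ (q ^ k)
    have h2 : (q : ℝ) ≤ (q : ℝ) ^ k := by
      exact_mod_cast Nat.le_self_pow (by omega : k ≠ 0) q
    linarith
  -- raise the main inequality to the power `h`
  have hmain : c ^ h ≤ 2 ^ h * (d ^ h) ^ k * (d ^ h) ^ (-(1 / P)) := by
    have h1 : c ^ h ≤ (2 * d ^ k * d ^ (-(1 / P))) ^ h :=
      pow_le_pow_left₀ (by rw [hc]; positivity) hstep.le h
    refine h1.trans (le_of_eq ?_)
    rw [mul_pow, mul_pow, ← pow_mul, ← pow_mul, mul_comm k h]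
    congr 1
    rw [← Real.rpow_natCast (d ^ (-(1 / P))) h, ← Real.rpow_mul hd0.le, ← Real.rpow_natCast d h,
      ← Real.rpow_mul hd0.le, mul_comm]
  have hq2 : 0 < (q : ℝ) / 2 := by positivity
  have h1 : (d ^ h) ^ (-(1 / P)) ≤ ((q : ℝ) / 2) ^ (-(1 / P)) :=
    Real.rpow_le_rpow_of_nonpos hq2 hdlow (by
      have : 0 < 1 / P := by positivity
      linarith)
  have h2 : (d ^ h) ^ k ≤ (C3 * x ^ β * q) ^ k := pow_le_pow_left₀ (by positivity) hdup k
  have h3 : (q : ℝ) ^ k / 2 ≤ 2 ^ h * (C3 * x ^ β * q) ^ k * ((q : ℝ) / 2) ^ (-(1 / P)) := by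
    refine hclow.trans (hmain.trans ?_)
    exact mul_le_mul (mul_le_mul_of_nonneg_left h2 (by positivity)) h1 (by positivity) (by positivity)
  -- take logarithms
  have hxβ : 0 < x ^ β := Real.rpow_pos_of_pos hx0 _
  have h4 := Real.log_le_log (by positivity) h3
  rw [Real.log_div (by positivity) (by norm_num), Real.log_mul (by positivity) (by positivity),
    Real.log_mul (by positivity) (by positivity), Real.log_rpow hq2,
    Real.log_div hqr.ne' (by norm_num), Real.log_pow, Real.log_pow, Real.log_pow,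
    Real.log_mul (by positivity) (by positivity), Real.log_mul (by positivity) (by positivity),
    Real.log_rpow hx0, hlogq] at h4
  have hl2 : Real.log 2 ≤ 1 := by linarith [Real.log_two_lt_d9]
  have hl20 : 0 < Real.log 2 := Real.log_pos (by norm_num)
  have hCC : Real.log C3 ≤ C4 := le_abs_self _
  have h5 : 1 / P * (x * Real.log b - Real.log 2) ≤
      (h + 1) * Real.log 2 + k * (Real.log C3 + β * Real.log x) := by
    linarith
  have h6 : (k : ℝ) * (Real.log C3 + β * Real.log x) ≤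
      (2 * Real.log x + 1) * (C4 + β * Real.log x) := by
    have h7 : (k : ℝ) * (Real.log C3 + β * Real.log x) ≤ k * (C4 + β * Real.log x) :=
      mul_le_mul_of_nonneg_left (by linarith) (Nat.cast_nonneg _)
    have h8 : 0 ≤ C4 + β * Real.log x := by
      have : 0 ≤ C4 := abs_nonneg _
      positivity
    exact h7.trans (mul_le_mul_of_nonneg_right hkup h8)
  have h7 : (h + 1 : ℝ) * Real.log 2 ≤ h + 1 :=
    mul_le_of_le_one_right (add_nonneg hh0.le zero_le_one) hl2
  have h8 : Real.log b * x ^ (1 - θ) - 1 ≤ 1 / P * (x * Real.log b - Real.log 2) := by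
    have h9 : 1 / x ^ θ ≤ 1 / P := one_div_le_one_div_of_le hP0 hkP
    have h10 : x ^ (1 - θ) = x * (1 / x ^ θ) := by
      rw [Real.rpow_sub hx0, Real.rpow_one]; ring
    have h11 : 1 / P ≤ 1 := by
      rw [div_le_one hP0]
      exact one_le_pow₀ (by norm_num)
    have h12 : Real.log b * x ^ (1 - θ) ≤ 1 / P * (x * Real.log b) := by
      rw [h10]
      have : x * Real.log b * (1 / x ^ θ) ≤ x * Real.log b * (1 / P) :=
        mul_le_mul_of_nonneg_left h9 (mul_nonneg hx0.le hlogb.le)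
      calc Real.log b * (x * (1 / x ^ θ)) = x * Real.log b * (1 / x ^ θ) := by ring
        _ ≤ x * Real.log b * (1 / P) := this
        _ = 1 / P * (x * Real.log b) := by ring
    have h13 : 1 / P * Real.log 2 ≤ 1 := mul_le_one₀ h11 hl20.le hl2
    linarith
  linarith

end Pool.Agent.R447.Prod
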