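import Mathlib

/-!
# Cubes in dense subsets of a product

A subset of `D 0 × ⋯ × D k` of density `2 γ`, with `γ ^ (2 ^ k) |D i| ≥ 1` for all `i`, contains the
vertices of a nondegenerate combinatorial cube `{x 0, y 0} × ⋯ × {x k, y k}`, `x i ≠ y i`.
-/

set_option autoImplicit false

open Finset

namespace Pool.Agent.R447.Prod

/-- mixing two points -/
def mix {k : ℕ} (x y : Fin k → ℤ) (e : Fin k → Bool) : Fin k → ℤ := fun i => if e i then x i else y i

theorem mix_cons {k : ℕ} (a b : ℤ) (x y : Fin k → ℤ) (e : Fin (k + 1) → Bool) :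
    mix (Fin.cons a x : Fin (k + 1) → ℤ) (Fin.cons b y) e =
      Fin.cons (if e 0 then a else b) (mix x y (Fin.tail e)) := by
  funext i
  refine Fin.cases ?_ (fun j => ?_) i
  · simp [mix]
  · rfl

theorem mix_injective {k : ℕ} {x y : Fin k → ℤ} (h : ∀ i, x i ≠ y i) :
    Function.Injective (mix x y) := by
  intro e e' hee
  funext i
  have h1 : (if e i then x i else y i) = (if e' i then x i else y i) := congrFun hee i
  have h2 := h i
  rcases Bool.eq_false_or_eq_true (e i) with h3 | h3 <;>
  rcases Bool.eq_false_or_eq_true (e' i) with h4 | h4 <;>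
  simp_all

/-- the slice of `S` over the first coordinate `x` -/
noncomputable def slice {k : ℕ} (S : Finset (Fin (k + 1) → ℤ)) (x : ℤ) : Finset (Fin k → ℤ) :=
  (S.filter (fun f => f 0 = x)).image Fin.tail

theorem mem_slice {k : ℕ} {S : Finset (Fin (k + 1) → ℤ)} {x : ℤ} {t : Fin k → ℤ} :
    t ∈ slice S x ↔ (Fin.cons x t : Fin (k + 1) → ℤ) ∈ S := by
  unfold slice
  rw [mem_image]
  constructor
  · rintro ⟨f, hf, rfl⟩
    rw [mem_filter] at hf
    have : (Fin.cons x (Fin.tail f) : Fin (k + 1) → ℤ) = f := by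
      rw [← hf.2]; exact Fin.cons_self_tail f
    rw [this]; exact hf.1
  · intro h
    exact ⟨Fin.cons x t, by simp [h], Fin.tail_cons _ _⟩

theorem step {k : ℕ} (D0 : Finset ℤ) (T : Finset (Fin k → ℤ)) (S : Finset (Fin (k + 1) → ℤ))
    (hS : ∀ f ∈ S, f 0 ∈ D0 ∧ Fin.tail f ∈ T) (γ : ℝ) (hγ : 0 < γ) (hT : 0 < T.card)
    (h1 : 1 ≤ γ * D0.card) (h2 : 2 * γ * (D0.card * T.card) ≤ S.card) :
    ∃ x ∈ D0, ∃ y ∈ D0, x ≠ y ∧ 2 * γ ^ 2 * T.card ≤ ((slice S x ∩ slice S y).card : ℝ) := by
  classical
  by_contra hcon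
  push Not at hcon
  -- the degree of t
  set deg : (Fin k → ℤ) → ℕ := fun t => (D0.filter (fun x => t ∈ slice S x)).card with hdeg
  have hcardS : (S.card : ℝ) = ∑ t ∈ T, (deg t : ℝ) := by
    have : S.card = ∑ t ∈ T, deg t := by
      rw [Finset.card_eq_sum_card_fiberwise (f := Fin.tail) (t := T) (fun f hf => (hS f hf).2)]
      refine Finset.sum_congr rfl (fun t _ => ?_)
      rw [hdeg]
      refine Finset.card_bij (fun f _ => f 0) ?_ ?_ ?_
      · intro f hf
        rw [mem_filter] at hf ⊢
        refine ⟨(hS f hf.1).1, ?_⟩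
        rw [mem_slice, ← hf.2, Fin.cons_self_tail]
        exact hf.1
      · intro f hf g hg hfg
        rw [mem_filter] at hf hg
        rw [← Fin.cons_self_tail f, ← Fin.cons_self_tail g, hf.2, hg.2, hfg]
      · intro x hx
        rw [mem_filter, mem_slice] at hx
        exact ⟨Fin.cons x t, by simp [hx.2], by simp⟩
    rw [this]; push_cast; rfl
  have hpairs : ∑ x ∈ D0, ∑ y ∈ D0, ((slice S x ∩ slice S y).card : ℝ) =
      ∑ t ∈ T, (deg t : ℝ) ^ 2 := by
    have h3 : ∀ x ∈ D0, ∀ y ∈ D0, ((slice S x ∩ slice S y).card : ℝ) =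
        ∑ t ∈ T, (if t ∈ slice S x then (1:ℝ) else 0) * (if t ∈ slice S y then 1 else 0) := by
      intro x hx y hy
      have hsub : slice S x ∩ slice S y = T.filter (fun t => t ∈ slice S x ∧ t ∈ slice S y) := by
        ext t
        rw [mem_inter, mem_filter]
        constructor
        · rintro ⟨a, b⟩
          refine ⟨?_, a, b⟩
          have := (hS _ (mem_slice.1 a)).2
          rwa [Fin.tail_cons] at this
        · exact fun h => h.2
      rw [hsub, Finset.card_filter]
      push_cast
      refine Finset.sum_congr rfl (fun t _ => ?_)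
      by_cases a : t ∈ slice S x <;> by_cases b : t ∈ slice S y <;> simp [a, b]
    rw [Finset.sum_congr rfl (fun x hx => Finset.sum_congr rfl (fun y hy => h3 x hx y hy))]
    have h4 : ∀ x ∈ D0, ∑ y ∈ D0, ∑ t ∈ T, (if t ∈ slice S x then (1:ℝ) else 0) *
        (if t ∈ slice S y then 1 else 0) = ∑ t ∈ T, (if t ∈ slice S x then (1:ℝ) else 0) * deg t := by
      intro x _
      rw [Finset.sum_comm]
      refine Finset.sum_congr rfl (fun t _ => ?_)
      rw [← Finset.mul_sum]
      congr 1
      rw [hdeg]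
      simp only [Finset.card_filter]
      push_cast
      rfl
    rw [Finset.sum_congr rfl h4, Finset.sum_comm]
    refine Finset.sum_congr rfl (fun t _ => ?_)
    rw [← Finset.sum_mul, sq]
    congr 1
    rw [hdeg]
    simp only [Finset.card_filter]
    push_cast
    rfl
  have hdiag : ∑ x ∈ D0, ((slice S x ∩ slice S x).card : ℝ) = S.card := by
    rw [hcardS]
    have h5 : ∀ x ∈ D0, ((slice S x ∩ slice S x).card : ℝ) =
        ∑ t ∈ T, (if t ∈ slice S x then (1:ℝ) else 0) := by
      intro x hx
      rw [Finset.inter_self]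
      have hsub : slice S x = T.filter (fun t => t ∈ slice S x) := by
        ext t
        rw [mem_filter]
        constructor
        · intro a
          refine ⟨?_, a⟩
          have := (hS _ (mem_slice.1 a)).2
          rwa [Fin.tail_cons] at this
        · exact fun h => h.2
      conv_lhs => rw [hsub]
      rw [Finset.card_filter]
      push_cast
      rfl
    rw [Finset.sum_congr rfl h5, Finset.sum_comm]
    refine Finset.sum_congr rfl (fun t _ => ?_)
    rw [hdeg]
    simp only [Finset.card_filter]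
    push_cast
    rfl
  have hCS : (S.card : ℝ) ^ 2 ≤ T.card * ∑ t ∈ T, (deg t : ℝ) ^ 2 := by
    rw [hcardS]
    exact sq_sum_le_card_mul_sum_sq
  have hoff : ∑ x ∈ D0, ∑ y ∈ D0, ((slice S x ∩ slice S y).card : ℝ) ≤
      S.card + ((D0.card : ℝ) ^ 2 - D0.card) * (2 * γ ^ 2 * T.card) := by
    have h6 : ∀ x ∈ D0, ∑ y ∈ D0, ((slice S x ∩ slice S y).card : ℝ) ≤
        ((slice S x ∩ slice S x).card : ℝ) + ((D0.card : ℝ) - 1) * (2 * γ ^ 2 * T.card) := by
      intro x hx
      rw [← Finset.add_sum_erase _ _ hx]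
      refine add_le_add le_rfl ?_
      have h7 : ∑ y ∈ D0.erase x, ((slice S x ∩ slice S y).card : ℝ) ≤
          ∑ y ∈ D0.erase x, (2 * γ ^ 2 * T.card) := by
        refine Finset.sum_le_sum (fun y hy => ?_)
        rw [mem_erase] at hy
        exact (hcon x hx y hy.2 hy.1.symm).le
      refine h7.trans ?_
      rw [Finset.sum_const, Finset.card_erase_of_mem hx, nsmul_eq_mul]
      have h8 : 1 ≤ D0.card := Finset.card_pos.2 ⟨x, hx⟩
      rw [Nat.cast_sub h8]
      push_cast
      exact le_rfl
    refine (Finset.sum_le_sum h6).trans ?_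
    rw [Finset.sum_add_distrib, hdiag, Finset.sum_const, nsmul_eq_mul]
    apply le_of_eq
    ring
  rw [hpairs] at hoff
  have hTpos : (0 : ℝ) < T.card := by exact_mod_cast hT
  have hDpos : (0 : ℝ) < D0.card := by
    by_contra h
    have : (D0.card : ℝ) = 0 := le_antisymm (not_lt.1 h) (Nat.cast_nonneg _)
    rw [this] at h1; linarith
  set s : ℝ := (S.card : ℝ) with hs
  set d : ℝ := (D0.card : ℝ) with hd
  set t : ℝ := (T.card : ℝ) with ht
  set Q : ℝ := ∑ t ∈ T, (deg t : ℝ) ^ 2 with hQ
  -- s^2 ≤ t Q, Q ≤ s + (d^2 - d) 2γ²t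
  have h9 : s ^ 2 ≤ t * (s + (d ^ 2 - d) * (2 * γ ^ 2 * t)) :=
    hCS.trans (mul_le_mul_of_nonneg_left hoff hTpos.le)
  -- s (s - t) ≥ 2 γ² d² t²
  have h10 : s - t ≥ γ * d * t := by nlinarith
  have h11 : s * (s - t) ≥ (2 * γ * (d * t)) * (γ * d * t) := by
    have : 0 ≤ γ * d * t := by positivity
    exact mul_le_mul h2 h10 this (le_trans (by positivity) h2)
  have h12 : 0 < d * (2 * γ ^ 2 * t) * t := by positivity
  nlinarith

theorem cube (k : ℕ) : ∀ (D : Fin (k + 1) → Finset ℤ) (S : Finset (Fin (k + 1) → ℤ)) (γ : ℝ),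
    0 < γ → γ ≤ 1 → (∀ f ∈ S, ∀ i, f i ∈ D i) → (2 * γ * ∏ i, ((D i).card : ℝ) ≤ S.card) →
    (∀ i, 1 ≤ γ ^ (2 ^ k) * ((D i).card : ℝ)) →
    ∃ x y : Fin (k + 1) → ℤ, (∀ i, x i ≠ y i) ∧ ∀ e, mix x y e ∈ S := by
  classical
  induction k with
  | zero =>
    intro D S γ hγ _ hS h2 hm
    have h3 := hm 0
    have h4 : (2 : ℝ) ≤ S.card := by
      refine le_trans ?_ h2
      simp only [pow_zero, pow_one] at h3
      rw [Fin.prod_univ_succ]
      simp only [Finset.univ_eq_empty, Finset.prod_empty, mul_one]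
      nlinarith
    have h5 : 1 < S.card := by
      have : (2 : ℝ) ≤ ((S.card : ℕ) : ℝ) := h4
      exact_mod_cast (show (1 : ℝ) < S.card by linarith)
    obtain ⟨x, hx, y, hy, hxy⟩ := Finset.one_lt_card.1 h5
    refine ⟨x, y, ?_, ?_⟩
    · intro i
      intro h
      apply hxy
      funext j
      have hij : j = i := Fin.ext (by omega)
      rw [hij]; exact h
    · intro e
      by_cases he : e 0 = true
      · have : mix x y e = x := by
          funext j
          have hij : j = 0 := Fin.ext (by omega)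
          rw [hij]; simp [mix, he]
        rw [this]; exact hx
      · have : mix x y e = y := by
          funext j
          have hij : j = 0 := Fin.ext (by omega)
          rw [hij]; simp [mix, he]
        rw [this]; exact hy
  | succ k ih =>
    intro D S γ hγ hγ1 hS h2 hm
    set T : Finset (Fin (k + 1) → ℤ) := Fintype.piFinset (fun i => D i.succ) with hT
    have hTc : (T.card : ℝ) = ∏ i : Fin (k + 1), ((D i.succ).card : ℝ) := by
      rw [hT, Fintype.card_piFinset]; push_cast; rfl
    have hpos : ∀ i, 0 < (D i).card := by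
      intro i
      rw [Nat.pos_iff_ne_zero]
      intro h
      have := hm i
      rw [h] at this
      simp at this
      linarith
    have hTpos : 0 < T.card := by
      have : (0 : ℝ) < T.card := by
        rw [hTc]
        exact Finset.prod_pos (fun i _ => by exact_mod_cast hpos i.succ)
      exact_mod_cast this
    obtain ⟨x, _, y, _, hxy, hcard⟩ := step (D 0) T S (by
      intro f hf
      refine ⟨hS f hf 0, ?_⟩
      rw [hT, Fintype.mem_piFinset]
      intro i
      exact hS f hf i.succ) γ hγ hTpos (by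
      have h3 := hm 0
      have h4 : γ ^ (2 ^ (k + 1)) ≤ γ := by
        have : γ ^ (2 ^ (k + 1)) ≤ γ ^ 1 := pow_le_pow_of_le_one hγ.le hγ1 Nat.one_le_two_pow
        simpa using this
      have h5 : (0 : ℝ) ≤ (D 0).card := Nat.cast_nonneg _
      nlinarith) (by
      rw [hTc, ← Fin.prod_univ_succ (fun i => ((D i).card : ℝ))]
      exact h2)
    obtain ⟨x', y', h6, h7⟩ := ih (fun i => D i.succ) (slice S x ∩ slice S y) (γ ^ 2)
      (by positivity) (by nlinarith) (by
        intro f hf i
        rw [mem_inter, mem_slice] at hf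
        have := hS _ hf.1 i.succ
        simpa using this) (by rw [← hTc]; exact hcard) (by
        intro i
        rw [← pow_mul, show 2 * 2 ^ k = 2 ^ (k + 1) by ring]
        exact hm i.succ)
    refine ⟨Fin.cons x x', Fin.cons y y', ?_, ?_⟩
    · intro i
      refine Fin.cases ?_ (fun j => ?_) i
      · simpa using hxy
      · simpa using h6 j
    · intro e
      rw [mix_cons]
      have h8 := h7 (Fin.tail e)
      rw [mem_inter, mem_slice, mem_slice] at h8
      by_cases he : e 0 = true
      · rw [if_pos he]; exact h8.1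
      · rw [if_neg he]; exact h8.2

end Pool.Agent.R447.Prod
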