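import Pool.Agent.R447.CubeProd

/-!
# Nondegenerate cubes in `A` give many representations
-/

set_option autoImplicit false

open Finset

namespace Pool.Agent.R447.Prod

/-- `r_{A,h}(n)`: the number of multisets of `h` elements of `A` with sum `n` -/
noncomputable def rep (A : Set ℕ) (h n : ℕ) : ℕ :=
  Set.ncard {s : Multiset ℕ | Multiset.card s = h ∧ (∀ a ∈ s, a ∈ A) ∧ s.sum = n}

theorem msets_finite (A : Set ℕ) (h n : ℕ) :
    {s : Multiset ℕ | Multiset.card s = h ∧ (∀ a ∈ s, a ∈ A) ∧ s.sum = n}.Finite := by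
  have hfin : (Set.range (fun f : Fin h → Fin (n + 1) =>
      ((List.ofFn (fun i => (f i : ℕ)) : List ℕ) : Multiset ℕ))).Finite := Set.finite_range _
  refine hfin.subset ?_
  rintro s ⟨hc, _, hs⟩
  induction s using Quotient.inductionOn with
  | h l =>
    simp only [Multiset.quot_mk_to_coe] at *
    rw [Multiset.coe_card] at hc
    rw [Multiset.sum_coe] at hs
    subst hc
    have hle : ∀ i : Fin l.length, l.get i < n + 1 := by
      intro i
      have h1 : l.get i ≤ l.sum := List.single_le_sum (fun _ _ => Nat.zero_le _) _ (List.get_mem l i)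
      omega
    refine ⟨fun i => ⟨l.get i, hle i⟩, ?_⟩
    simp only
    congr 1
    exact List.ofFn_get l

/-- the `0/1` vector of the `j`-th summand -/
def vec {h k : ℕ} (P : Fin k → Finset (Fin h)) (j : Fin h) : Fin k → Bool := fun i => decide (j ∈ P i)

theorem vec_inj {h k : ℕ} {P P' : Fin k → Finset (Fin h)} (hP : ∀ j, vec P j = vec P' j) : P = P' := by
  funext i
  ext j
  have := congrFun (hP j) i
  simpa [vec] using this

theorem reps_of_cube {k : ℕ} (A : Set ℕ) (h N : ℕ) (x y : Fin k → ℤ) (a : (Fin k → Bool) → ℕ)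
    (ha : Function.Injective a) (haA : ∀ e, a e ∈ A) (haN : ∀ e, a e ≤ N)
    (hsum : ∀ e, (a e : ℤ) = ∑ i, mix x y e i) :
    ∃ n, n ≤ h * N ∧ (h.choose (h / 2)) ^ k ≤ h.factorial * rep A h n := by
  classical
  set Q : Finset (Fin k → Finset (Fin h)) :=
    Fintype.piFinset (fun _ => powersetCard (h / 2) (univ : Finset (Fin h))) with hQ
  have hQc : Q.card = (h.choose (h / 2)) ^ k := by
    rw [hQ, Fintype.card_piFinset_const, card_powersetCard, card_univ, Fintype.card_fin]
  set L : (Fin k → Finset (Fin h)) → List ℕ := fun P => List.ofFn (fun j => a (vec P j)) with hL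
  have hLinj : Function.Injective L := by
    intro P P' hPP
    have h1 : (fun j => a (vec P j)) = fun j => a (vec P' j) := List.ofFn_injective hPP
    exact vec_inj (fun j => ha (congrFun h1 j))
  -- the sums are all equal
  have hsumL : ∀ P ∈ Q, ((L P).sum : ℤ) = ∑ i : Fin k, (((h / 2 : ℕ) : ℤ) * x i +
      (((h - h / 2 : ℕ)) : ℤ) * y i) := by
    intro P hP
    rw [hQ, Fintype.mem_piFinset] at hP
    rw [hL]
    simp only [List.sum_ofFn]
    push_cast
    simp_rw [hsum]
    rw [Finset.sum_comm]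
    refine Finset.sum_congr rfl (fun i _ => ?_)
    have hPi := hP i
    rw [mem_powersetCard] at hPi
    have h2 : ∀ j : Fin h, mix x y (vec P j) i = if j ∈ P i then x i else y i := by
      intro j
      simp [mix, vec]
    simp_rw [h2]
    rw [Finset.sum_ite, Finset.sum_const, Finset.sum_const]
    have h3 : (univ.filter (fun j : Fin h => j ∈ P i)).card = h / 2 := by
      rw [Finset.filter_univ_mem]; exact hPi.2
    have h4 : (univ.filter (fun j : Fin h => j ∉ P i)).card = h - h / 2 := by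
      rw [Finset.filter_not, Finset.card_sdiff_of_subset (Finset.filter_subset _ _), h3, card_univ,
        Fintype.card_fin]
    rw [h3, h4]
    simp
  -- a reference point
  obtain ⟨P0, hP0⟩ : Q.Nonempty := by
    rw [← Finset.card_pos, hQc]
    exact pow_pos (Nat.choose_pos (Nat.div_le_self h 2)) k
  set n : ℕ := (L P0).sum with hn
  have hsumN : ∀ P ∈ Q, (L P).sum = n := by
    intro P hP
    have h1 := hsumL P hP
    have h2 := hsumL P0 hP0
    rw [← h2] at h1
    exact_mod_cast h1
  refine ⟨n, ?_, ?_⟩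
  · rw [hn, hL]
    simp only [List.sum_ofFn]
    calc ∑ j, a (vec P0 j) ≤ ∑ _j : Fin h, N := Finset.sum_le_sum (fun j _ => haN _)
      _ = h * N := by simp
  · rw [← hQc]
    have h1 : Q.card ≤ h.factorial * (Q.image (fun P => ((L P : List ℕ) : Multiset ℕ))).card := by
      refine Finset.card_le_mul_card_image Q _ ?_
      intro m hm
      rw [mem_image] at hm
      obtain ⟨P1, hP1, rfl⟩ := hm
      have h2 : (Q.filter (fun P => ((L P : List ℕ) : Multiset ℕ) = ((L P1 : List ℕ) : Multiset ℕ))).card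
          ≤ ((L P1).permutations.toFinset).card := by
        refine Finset.card_le_card_of_injOn L ?_ (hLinj.injOn)
        intro P hP
        rw [Finset.mem_coe, mem_filter, Multiset.coe_eq_coe] at hP
        rw [Finset.mem_coe, List.mem_toFinset, List.mem_permutations]
        exact hP.2
      refine h2.trans ?_
      refine (List.toFinset_card_le _).trans ?_
      rw [List.length_permutations]
      rw [hL]
      simp
    refine h1.trans (Nat.mul_le_mul_left _ ?_)
    unfold rep
    rw [← Set.ncard_coe_finset]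
    refine Set.ncard_le_ncard ?_ (msets_finite A h n)
    intro s hs
    rw [Finset.mem_coe, mem_image] at hs
    obtain ⟨P, hP, rfl⟩ := hs
    refine ⟨?_, ?_, ?_⟩
    · rw [Multiset.coe_card, hL]; simp
    · intro b hb
      rw [Multiset.mem_coe, hL] at hb
      simp only [List.mem_ofFn] at hb
      obtain ⟨j, rfl⟩ := hb
      exact haA _
    · rw [Multiset.sum_coe]; exact hsumN P hP

/-- **Sets with many elements in a `k`-fold sumset, `k ≥ 1`.** -/
theorem main {k : ℕ} (A : Set ℕ) (h N : ℕ) (X : Fin (k + 1) → Finset ℤ) (m : ℕ) (hm : 1 ≤ m)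
    (hX : ∀ i, m ≤ (X i).card)
    (hT : 2 * (∏ i, ((X i).card : ℝ)) * (m : ℝ) ^ (-(1 / 2 ^ k : ℝ)) ≤
      ({a : ℕ | a ∈ A ∧ a ≤ N ∧ ∃ x : Fin (k + 1) → ℤ, (∀ i, x i ∈ X i) ∧ ∑ i, x i = a}.ncard : ℝ)) :
    ∃ n, n ≤ h * N ∧ (h.choose (h / 2)) ^ (k + 1) ≤ h.factorial * rep A h n := by
  classical
  set T0 : Set ℕ := {a : ℕ | a ∈ A ∧ a ≤ N ∧ ∃ x : Fin (k + 1) → ℤ, (∀ i, x i ∈ X i) ∧ ∑ i, x i = a}
    with hT0
  have hfin : T0.Finite := (Set.finite_Iic N).subset (fun a ha => ha.2.1)
  set T : Finset ℕ := hfin.toFinset with hTdef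
  have hTc : T0.ncard = T.card := Set.ncard_eq_toFinset_card T0 hfin
  have hmem : ∀ a ∈ T, a ∈ T0 := fun a ha => (Set.Finite.mem_toFinset hfin).1 ha
  -- choose tuples
  have hch : ∀ a : ℕ, ∃ x : Fin (k + 1) → ℤ, a ∈ T → (∀ i, x i ∈ X i) ∧ ∑ i, x i = a := by
    intro a
    by_cases h1 : a ∈ T
    · obtain ⟨x, hx⟩ := (hmem a h1).2.2
      exact ⟨x, fun _ => hx⟩
    · exact ⟨fun _ => 0, fun h => absurd h h1⟩
  choose f hf using hch
  set S : Finset (Fin (k + 1) → ℤ) := T.image f with hS
  have hfinj : Set.InjOn f (T : Set ℕ) := by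
    intro a ha b hb hab
    have h1 := (hf a ha).2
    have h2 := (hf b hb).2
    rw [hab] at h1
    rw [h1] at h2
    exact_mod_cast h2
  have hSc : S.card = T.card := Finset.card_image_of_injOn hfinj
  have hm0 : (0 : ℝ) < m := by exact_mod_cast hm
  have hm1 : (1 : ℝ) ≤ m := by exact_mod_cast hm
  set γ : ℝ := (m : ℝ) ^ (-(1 / 2 ^ k : ℝ)) with hγ
  have hγ0 : 0 < γ := Real.rpow_pos_of_pos hm0 _
  have hγ1 : γ ≤ 1 := Real.rpow_le_one_of_one_le_of_nonpos hm1 (by
    have : (0 : ℝ) ≤ 1 / 2 ^ k := by positivity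
    linarith)
  have hγp : γ ^ (2 ^ k) * m = 1 := by
    rw [hγ, ← Real.rpow_natCast, ← Real.rpow_mul hm0.le]
    have : -(1 / 2 ^ k : ℝ) * ((2 ^ k : ℕ) : ℝ) = -1 := by
      push_cast
      have : (2 : ℝ) ^ k ≠ 0 := by positivity
      field_simp
    rw [this, Real.rpow_neg_one]
    exact inv_mul_cancel₀ hm0.ne'
  obtain ⟨x, y, hxy, hcube⟩ := cube k X S γ hγ0 hγ1 (by
    intro g hg i
    rw [hS, mem_image] at hg
    obtain ⟨a, ha, rfl⟩ := hg
    exact (hf a ha).1 i) (by
    rw [hSc, ← hTc]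
    calc 2 * γ * ∏ i, ((X i).card : ℝ) = 2 * (∏ i, ((X i).card : ℝ)) * γ := by ring
      _ ≤ _ := hT) (by
    intro i
    have h1 : (m : ℝ) ≤ (X i).card := by exact_mod_cast hX i
    have h2 : 0 ≤ γ ^ (2 ^ k) := by positivity
    nlinarith)
  -- the elements of `A`
  have hch2 : ∀ e : Fin (k + 1) → Bool, ∃ a ∈ T, f a = mix x y e := by
    intro e
    have := hcube e
    rw [hS, mem_image] at this
    exact this
  choose a haT hfa using hch2
  refine reps_of_cube A h N x y a ?_ (fun e => (hmem _ (haT e)).1) (fun e => (hmem _ (haT e)).2.1) ?_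
  · intro e e' hee
    apply mix_injective hxy
    rw [← hfa e, ← hfa e', hee]
  · intro e
    rw [← hfa e]
    exact ((hf (a e) (haT e)).2).symm

end Pool.Agent.R447.Prod
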