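import Pool.Agent.R447.Comp

set_option autoImplicit false

/-!
Growth of the number of representations as sums of distinct members of `{p ^ α * q ^ β}`.
-/

namespace Pool.Agent.R447.Growth

open Finset Pool.Agent.R447.Adj Pool.Agent.R447.Comp

open Classical in
/-- sets of members of `S_{p,q}` with sum `n` -/
noncomputable def Fn (p q n : ℕ) : Finset (Finset ℕ) :=
  (((range (n + 1)).filter (fun t => IsS p q t)).powerset).filter (fun T => ∑ t ∈ T, t = n)

open Classical in
/-- sets of members of `S_{p,q}` with sum at most `n` -/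
noncomputable def Mn (p q n : ℕ) : Finset (Finset ℕ) :=
  (((range (n + 1)).filter (fun t => IsS p q t)).powerset).filter (fun T => ∑ t ∈ T, t ≤ n)

lemma le_sum {T : Finset ℕ} {t : ℕ} (ht : t ∈ T) : t ≤ ∑ t ∈ T, t :=
  Finset.single_le_sum (f := fun t : ℕ => t) (fun _ _ => Nat.zero_le _) ht

lemma mem_Fn {p q n : ℕ} {T : Finset ℕ} :
    T ∈ Fn p q n ↔ (∀ t ∈ T, IsS p q t) ∧ ∑ t ∈ T, t = n := by
  classical
  unfold Fn
  rw [Finset.mem_filter, Finset.mem_powerset]
  constructor
  · rintro ⟨h1, h2⟩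
    exact ⟨fun t ht => (Finset.mem_filter.mp (h1 ht)).2, h2⟩
  · rintro ⟨h1, h2⟩
    refine ⟨fun t ht => Finset.mem_filter.mpr ⟨?_, h1 t ht⟩, h2⟩
    rw [Finset.mem_range]
    have := le_sum ht
    omega

lemma mem_Mn {p q n : ℕ} {T : Finset ℕ} :
    T ∈ Mn p q n ↔ (∀ t ∈ T, IsS p q t) ∧ ∑ t ∈ T, t ≤ n := by
  classical
  unfold Mn
  rw [Finset.mem_filter, Finset.mem_powerset]
  constructor
  · rintro ⟨h1, h2⟩
    exact ⟨fun t ht => (Finset.mem_filter.mp (h1 ht)).2, h2⟩
  · rintro ⟨h1, h2⟩
    refine ⟨fun t ht => Finset.mem_filter.mpr ⟨?_, h1 t ht⟩, h2⟩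
    rw [Finset.mem_range]
    have := le_sum ht
    omega

lemma Mn_mono {p q m n : ℕ} (h : m ≤ n) : (Mn p q m).card ≤ (Mn p q n).card := by
  apply Finset.card_le_card
  intro T hT
  rw [mem_Mn] at hT ⊢
  exact ⟨hT.1, le_trans hT.2 h⟩

lemma F1 {p q m : ℕ} {A : Finset ℕ} (hA : ∀ s ∈ A, IsS p q s)
    (hd : ∀ B B' : Finset ℕ, B ⊆ A → B' ⊆ A → ∑ s ∈ B, s = ∑ s ∈ B', s → B = B') :
    (Fn p q m).card * 2 ^ A.card ≤ (Mn p q (m + ∑ s ∈ A, s)).card := by
  classical
  rw [← Finset.card_powerset, ← Finset.card_product]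
  apply Finset.card_le_card_of_injOn (fun w => (w.1 \ A) ∪ w.2)
  · intro w hw
    obtain ⟨hT, hB⟩ := Finset.mem_product.mp (Finset.mem_coe.mp hw)
    rw [mem_Fn] at hT
    rw [Finset.mem_powerset] at hB
    apply Finset.mem_coe.mpr
    rw [mem_Mn]
    refine ⟨?_, ?_⟩
    · intro t ht
      rcases Finset.mem_union.mp ht with h | h
      · exact hT.1 t (Finset.mem_sdiff.mp h).1
      · exact hA t (hB h)
    · have h1 : ∑ t ∈ (w.1 \ A) ∪ w.2, t ≤ ∑ t ∈ w.1 \ A, t + ∑ t ∈ w.2, t := by
        have := Finset.sum_union_inter (s₁ := w.1 \ A) (s₂ := w.2) (f := fun t : ℕ => t)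
        omega
      have h2 : ∑ t ∈ w.1 \ A, t ≤ ∑ t ∈ w.1, t :=
        Finset.sum_le_sum_of_subset Finset.sdiff_subset
      have h3 : ∑ t ∈ w.2, t ≤ ∑ t ∈ A, t := Finset.sum_le_sum_of_subset hB
      have h4 := hT.2
      simp only
      omega
  · intro w hw w' hw' heq
    obtain ⟨hT, hB⟩ := Finset.mem_product.mp (Finset.mem_coe.mp hw)
    obtain ⟨hT', hB'⟩ := Finset.mem_product.mp (Finset.mem_coe.mp hw')
    rw [mem_Fn] at hT hT'
    rw [Finset.mem_powerset] at hB hB'
    simp only at heq
    have h1 : w.2 = w'.2 := by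
      have e1 : ((w.1 \ A) ∪ w.2) ∩ A = w.2 := by
        ext t
        simp only [Finset.mem_inter, Finset.mem_union, Finset.mem_sdiff]
        constructor
        · rintro ⟨h | h, h'⟩
          · exact absurd h' h.2
          · exact h
        · intro h
          exact ⟨Or.inr h, hB h⟩
      have e2 : ((w'.1 \ A) ∪ w'.2) ∩ A = w'.2 := by
        ext t
        simp only [Finset.mem_inter, Finset.mem_union, Finset.mem_sdiff]
        constructor
        · rintro ⟨h | h, h'⟩
          · exact absurd h' h.2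
          · exact h
        · intro h
          exact ⟨Or.inr h, hB' h⟩
      rw [← e1, ← e2, heq]
    have h2 : w.1 \ A = w'.1 \ A := by
      have e1 : ((w.1 \ A) ∪ w.2) \ A = w.1 \ A := by
        ext t
        simp only [Finset.mem_union, Finset.mem_sdiff]
        constructor
        · rintro ⟨h | h, h'⟩
          · exact h
          · exact absurd (hB h) h'
        · intro h
          exact ⟨Or.inl h, h.2⟩
      have e2 : ((w'.1 \ A) ∪ w'.2) \ A = w'.1 \ A := by
        ext t
        simp only [Finset.mem_union, Finset.mem_sdiff]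
        constructor
        · rintro ⟨h | h, h'⟩
          · exact h
          · exact absurd (hB' h) h'
        · intro h
          exact ⟨Or.inl h, h.2⟩
      rw [← e1, ← e2, heq]
    have h3 : w.1 ∩ A = w'.1 ∩ A := by
      apply hd _ _ Finset.inter_subset_right Finset.inter_subset_right
      have e1 := Finset.sum_inter_add_sum_sdiff w.1 A (fun t : ℕ => t)
      have e2 := Finset.sum_inter_add_sum_sdiff w'.1 A (fun t : ℕ => t)
      rw [h2] at e1
      have e3 := hT.2
      have e4 := hT'.2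
      omega
    have h4 : w.1 = w'.1 := by
      rw [← Finset.sdiff_union_inter w.1 A, ← Finset.sdiff_union_inter w'.1 A, h2, h3]
    exact Prod.ext h4 h1

lemma F2 {p q : ℕ} {S1 : Set ℕ} {u : ℕ} (hS1 : ∀ s ∈ S1, IsS p q s)
    (hc : ∀ n, u ≤ n → ∃ A : Finset ℕ, (↑A : Set ℕ) ⊆ S1 ∧ ∑ s ∈ A, s = n) {n : ℕ} (hn : u ≤ n)
    {K : ℝ} (hK : ∀ A : Finset ℕ, (↑A : Set ℕ) ⊆ S1 → (∀ s ∈ A, s ≤ n) → (2 : ℝ) ^ A.card ≤ K) :
    ((Mn p q (n - u)).card : ℝ) ≤ (Fn p q n).card * K := by
  classical
  have hcov : ∀ T : Finset ℕ, ∃ A : Finset ℕ, T ∈ Mn p q (n - u) →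
      (↑A : Set ℕ) ⊆ S1 ∧ ∑ s ∈ A, s + ∑ t ∈ T.filter (fun t => t ∉ S1), t = n := by
    intro T
    by_cases hT : T ∈ Mn p q (n - u)
    · have h1 := (mem_Mn.mp hT).2
      have h2 : ∑ t ∈ T.filter (fun t => t ∉ S1), t ≤ ∑ t ∈ T, t :=
        Finset.sum_le_sum_of_subset (Finset.filter_subset _ _)
      obtain ⟨A, hA, hAs⟩ := hc (n - ∑ t ∈ T.filter (fun t => t ∉ S1), t) (by omega)
      exact ⟨A, fun _ => ⟨hA, by omega⟩⟩
    · exact ⟨∅, fun h => absurd h hT⟩
  choose A hA using hcov
  set P := (range (n + 1)).filter (fun t => t ∈ S1) with hP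
  have hle : (Mn p q (n - u)).card ≤ (Fn p q n ×ˢ P.powerset).card := by
    apply Finset.card_le_card_of_injOn
      (fun T => (T.filter (fun t => t ∉ S1) ∪ A T, T.filter (fun t => t ∈ S1)))
    · intro T hT
      have hT' := Finset.mem_coe.mp hT
      obtain ⟨h1, h2⟩ := hA T hT'
      have h3 := mem_Mn.mp hT'
      apply Finset.mem_coe.mpr
      rw [Finset.mem_product, mem_Fn, Finset.mem_powerset]
      refine ⟨⟨?_, ?_⟩, ?_⟩
      · intro t ht
        rcases Finset.mem_union.mp ht with h | h
        · exact h3.1 t (Finset.mem_filter.mp h).1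
        · exact hS1 t (h1 (Finset.mem_coe.mpr h))
      · simp only
        rw [Finset.sum_union]
        · omega
        · rw [Finset.disjoint_left]
          intro t ht ht'
          exact (Finset.mem_filter.mp ht).2 (h1 (Finset.mem_coe.mpr ht'))
      · intro t ht
        rw [hP, Finset.mem_filter, Finset.mem_range]
        have h4 := Finset.mem_filter.mp ht
        have h5 := le_sum h4.1
        have h6 := h3.2
        exact ⟨by omega, h4.2⟩
    · intro T hT T' hT' heq
      have hT1 := Finset.mem_coe.mp hT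
      have hT1' := Finset.mem_coe.mp hT'
      obtain ⟨h1, h2⟩ := hA T hT1
      obtain ⟨h1', h2'⟩ := hA T' hT1'
      simp only [Prod.mk.injEq] at heq
      obtain ⟨e1, e2⟩ := heq
      have e3 : T.filter (fun t => t ∉ S1) = T'.filter (fun t => t ∉ S1) := by
        have g1 : (T.filter (fun t => t ∉ S1) ∪ A T).filter (fun t => t ∉ S1) =
            T.filter (fun t => t ∉ S1) := by
          ext t
          simp only [Finset.mem_filter, Finset.mem_union]
          constructor
          · rintro ⟨h | h, h'⟩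
            · exact h
            · exact absurd (h1 (Finset.mem_coe.mpr h)) h'
          · intro h
            exact ⟨Or.inl h, h.2⟩
        have g2 : (T'.filter (fun t => t ∉ S1) ∪ A T').filter (fun t => t ∉ S1) =
            T'.filter (fun t => t ∉ S1) := by
          ext t
          simp only [Finset.mem_filter, Finset.mem_union]
          constructor
          · rintro ⟨h | h, h'⟩
            · exact h
            · exact absurd (h1' (Finset.mem_coe.mpr h)) h'
          · intro h
            exact ⟨Or.inl h, h.2⟩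
        rw [← g1, ← g2, e1]
      rw [← Finset.filter_union_filter_not_eq (fun t => t ∈ S1) T,
        ← Finset.filter_union_filter_not_eq (fun t => t ∈ S1) T', e2, e3]
  rw [Finset.card_product, Finset.card_powerset] at hle
  have h1 : (2 : ℝ) ^ P.card ≤ K := by
    apply hK
    · intro t ht
      exact (Finset.mem_filter.mp (Finset.mem_coe.mp ht)).2
    · intro t ht
      have := Finset.mem_range.mp (Finset.mem_filter.mp ht).1
      omega
  calc ((Mn p q (n - u)).card : ℝ) ≤ (((Fn p q n).card * 2 ^ P.card : ℕ) : ℝ) := by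
        exact_mod_cast hle
    _ = (Fn p q n).card * (2 : ℝ) ^ P.card := by push_cast; ring
    _ ≤ (Fn p q n).card * K := mul_le_mul_of_nonneg_left h1 (by positivity)

lemma not_dvd_pow {p q : ℕ} (hp : 2 ≤ p) (hpq : Nat.Coprime p q) (β : ℕ) : ¬ p ∣ q ^ β := by
  intro h
  have h1 : Nat.Coprime p (q ^ β) := Nat.Coprime.pow_right β hpq
  have := Nat.Coprime.eq_one_of_dvd h1 h
  omega

lemma M1 {p q : ℕ} (hp : 2 ≤ p) (hq : 2 ≤ q) (hpq : Nat.Coprime p q) (x : ℕ) :
    (Mn p q x).card ≤ (Mn p q (x / p)).card * 2 ^ (Nat.log q x + 1) := by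
  classical
  set P := (range (Nat.log q x + 1)).image (fun β => q ^ β) with hP
  have hPc : P.card = Nat.log q x + 1 := by
    rw [hP, Finset.card_image_of_injective, Finset.card_range]
    exact Nat.pow_right_injective hq
  rw [← hPc, ← Finset.card_powerset, ← Finset.card_product]
  have key : ∀ t, IsS p q t → p ∣ t → IsS p q (t / p) ∧ p * (t / p) = t := by
    rintro t ⟨α, β, rfl⟩ hd
    refine ⟨?_, Nat.mul_div_cancel' hd⟩
    rcases Nat.eq_zero_or_pos α with h0 | h0
    · subst h0
      rw [pow_zero, one_mul] at hd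
      exact absurd hd (not_dvd_pow hp hpq β)
    · refine ⟨α - 1, β, ?_⟩
      apply Nat.div_eq_of_eq_mul_right (by omega)
      rw [← mul_assoc, ← pow_succ']
      congr 2
      omega
  have key2 : ∀ t, IsS p q t → ¬ p ∣ t → ∃ β, t = q ^ β := by
    rintro t ⟨α, β, rfl⟩ hd
    refine ⟨β, ?_⟩
    rcases Nat.eq_zero_or_pos α with h0 | h0
    · subst h0
      rw [pow_zero, one_mul]
    · exact absurd (Dvd.dvd.mul_right (dvd_pow_self p (by omega)) _) hd
  apply Finset.card_le_card_of_injOn
    (fun T => ((T.filter (fun t => p ∣ t)).image (fun t => t / p), T.filter (fun t => ¬ p ∣ t)))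
  · intro T hT
    have hT' := mem_Mn.mp (Finset.mem_coe.mp hT)
    apply Finset.mem_coe.mpr
    rw [Finset.mem_product, mem_Mn, Finset.mem_powerset]
    refine ⟨⟨?_, ?_⟩, ?_⟩
    · intro t ht
      obtain ⟨s, hs, rfl⟩ := Finset.mem_image.mp ht
      rw [Finset.mem_filter] at hs
      exact (key s (hT'.1 s hs.1) hs.2).1
    · simp only
      rw [Finset.sum_image]
      · rw [Nat.le_div_iff_mul_le (by omega), Finset.sum_mul]
        calc ∑ t ∈ T.filter (fun t => p ∣ t), t / p * p = ∑ t ∈ T.filter (fun t => p ∣ t), t := by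
              apply Finset.sum_congr rfl
              intro t ht
              exact Nat.div_mul_cancel (Finset.mem_filter.mp ht).2
          _ ≤ ∑ t ∈ T, t := Finset.sum_le_sum_of_subset (Finset.filter_subset _ _)
          _ ≤ x := hT'.2
      · intro s hs t ht hst
        have h1 := Nat.div_mul_cancel (Finset.mem_filter.mp (Finset.mem_coe.mp hs)).2
        have h2 := Nat.div_mul_cancel (Finset.mem_filter.mp (Finset.mem_coe.mp ht)).2
        simp only at hst
        rw [← h1, ← h2, hst]
    · intro t ht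
      have ht' := Finset.mem_filter.mp ht
      obtain ⟨β, rfl⟩ := key2 t (hT'.1 t ht'.1) ht'.2
      rw [hP, Finset.mem_image]
      refine ⟨β, ?_, rfl⟩
      rw [Finset.mem_range]
      have h1 : q ^ β ≤ x := le_trans (le_sum ht'.1) hT'.2
      have h2 : β ≤ Nat.log q x := Nat.le_log_of_pow_le (by omega) h1
      omega
  · intro T hT T' hT' heq
    have hT1 := mem_Mn.mp (Finset.mem_coe.mp hT)
    have hT1' := mem_Mn.mp (Finset.mem_coe.mp hT')
    simp only [Prod.mk.injEq] at heq
    obtain ⟨e1, e2⟩ := heq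
    have e3 : T.filter (fun t => p ∣ t) = T'.filter (fun t => p ∣ t) := by
      have g : ∀ U : Finset ℕ, ((U.filter (fun t => p ∣ t)).image (fun t => t / p)).image
          (fun t => p * t) = U.filter (fun t => p ∣ t) := by
        intro U
        rw [Finset.image_image]
        ext t
        simp only [Finset.mem_image, Function.comp, Finset.mem_filter]
        constructor
        · rintro ⟨s, ⟨hs, hd⟩, rfl⟩
          rw [Nat.mul_div_cancel' hd]
          exact ⟨hs, hd⟩
        · rintro ⟨ht, hd⟩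
          exact ⟨t, ⟨ht, hd⟩, Nat.mul_div_cancel' hd⟩
      rw [← g T, ← g T', e1]
    rw [← Finset.filter_union_filter_not_eq (fun t => p ∣ t) T,
      ← Finset.filter_union_filter_not_eq (fun t => p ∣ t) T', e2, e3]

lemma M1iter {p q : ℕ} (hp : 2 ≤ p) (hq : 2 ≤ q) (hpq : Nat.Coprime p q) (x a : ℕ) :
    (Mn p q x).card ≤ (Mn p q (x / p ^ a)).card * 2 ^ (a * (Nat.log q x + 1)) := by
  induction a with
  | zero => simp
  | succ a ih =>
    have h1 := M1 hp hq hpq (x / p ^ a)
    have h2 : Nat.log q (x / p ^ a) ≤ Nat.log q x := Nat.log_mono_right (Nat.div_le_self _ _)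
    have h3 : (2 : ℕ) ^ (Nat.log q (x / p ^ a) + 1) ≤ 2 ^ (Nat.log q x + 1) :=
      Nat.pow_le_pow_right (by norm_num) (by omega)
    rw [Nat.div_div_eq_div_mul, ← pow_succ] at h1
    calc (Mn p q x).card ≤ (Mn p q (x / p ^ a)).card * 2 ^ (a * (Nat.log q x + 1)) := ih
      _ ≤ ((Mn p q (x / p ^ (a + 1))).card * 2 ^ (Nat.log q x + 1)) *
            2 ^ (a * (Nat.log q x + 1)) := by
          apply Nat.mul_le_mul_right
          exact le_trans h1 (Nat.mul_le_mul_left _ h3)
      _ = (Mn p q (x / p ^ (a + 1))).card * 2 ^ ((a + 1) * (Nat.log q x + 1)) := by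
          rw [mul_assoc, ← pow_add]
          congr 2
          ring

lemma M2 {p q : ℕ} (hp : 2 ≤ p) (hq : 2 ≤ q) (hpq : Nat.Coprime p q) (y k : ℕ) :
    (Mn p q y).card * 2 ^ k ≤ (Mn p q (q * y + p ^ k)).card := by
  classical
  set P := (range k).image (fun α => p ^ α) with hP
  have hPc : P.card = k := by
    rw [hP, Finset.card_image_of_injective, Finset.card_range]
    exact Nat.pow_right_injective hp
  have hPs : ∑ t ∈ P, t ≤ p ^ k := by
    rw [hP, Finset.sum_image (fun a _ b _ h => Nat.pow_right_injective hp h)]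
    have h1 := Nat.geomSum_lt (m := p) hp (n := k) (s := range k)
      (fun i hi => Finset.mem_range.mp hi)
    exact h1.le
  rw [← hPc, ← Finset.card_powerset, ← Finset.card_product]
  rw [hPc]
  have hPd : ∀ t ∈ P, ¬ q ∣ t := by
    intro t ht
    rw [hP, Finset.mem_image] at ht
    obtain ⟨α, _, rfl⟩ := ht
    exact not_dvd_pow hq hpq.symm α
  have hdis : ∀ T B : Finset ℕ, B ⊆ P → Disjoint (T.image (fun t => q * t)) B := by
    intro T B hB
    rw [Finset.disjoint_left]
    intro t ht ht'
    obtain ⟨s, _, rfl⟩ := Finset.mem_image.mp ht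
    exact hPd _ (hB ht') (dvd_mul_right _ _)
  apply Finset.card_le_card_of_injOn (fun w => w.1.image (fun t => q * t) ∪ w.2)
  · intro w hw
    obtain ⟨hT, hB⟩ := Finset.mem_product.mp (Finset.mem_coe.mp hw)
    rw [mem_Mn] at hT
    rw [Finset.mem_powerset] at hB
    apply Finset.mem_coe.mpr
    rw [mem_Mn]
    refine ⟨?_, ?_⟩
    · intro t ht
      rcases Finset.mem_union.mp ht with h | h
      · obtain ⟨s, hs, rfl⟩ := Finset.mem_image.mp h
        obtain ⟨α, β, rfl⟩ := hT.1 s hs
        exact ⟨α, β + 1, by ring⟩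
      · have h1 := hB h
        rw [hP, Finset.mem_image] at h1
        obtain ⟨α, _, rfl⟩ := h1
        exact ⟨α, 0, by ring⟩
    · simp only
      rw [Finset.sum_union (hdis _ _ hB), Finset.sum_image, ← Finset.mul_sum]
      · have h1 : ∑ t ∈ w.2, t ≤ ∑ t ∈ P, t := Finset.sum_le_sum_of_subset hB
        have h2 : q * ∑ t ∈ w.1, t ≤ q * y := Nat.mul_le_mul_left _ hT.2
        omega
      · intro a _ b _ h
        exact Nat.eq_of_mul_eq_mul_left (by omega) h
  · intro w hw w' hw' heq
    obtain ⟨hT, hB⟩ := Finset.mem_product.mp (Finset.mem_coe.mp hw)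
    obtain ⟨hT', hB'⟩ := Finset.mem_product.mp (Finset.mem_coe.mp hw')
    rw [Finset.mem_powerset] at hB hB'
    simp only at heq
    have g1 : ∀ T B : Finset ℕ, B ⊆ P →
        ((T.image (fun t => q * t)) ∪ B).filter (fun t => ¬ q ∣ t) = B := by
      intro T B hB
      ext t
      simp only [Finset.mem_filter, Finset.mem_union]
      constructor
      · rintro ⟨h | h, h'⟩
        · obtain ⟨s, _, rfl⟩ := Finset.mem_image.mp h
          exact absurd (dvd_mul_right _ _) h'
        · exact h
      · intro h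
        exact ⟨Or.inr h, hPd _ (hB h)⟩
    have g2 : ∀ T B : Finset ℕ, B ⊆ P →
        ((T.image (fun t => q * t)) ∪ B).filter (fun t => q ∣ t) = T.image (fun t => q * t) := by
      intro T B hB
      ext t
      simp only [Finset.mem_filter, Finset.mem_union]
      constructor
      · rintro ⟨h | h, h'⟩
        · exact h
        · exact absurd h' (hPd _ (hB h))
      · intro h
        refine ⟨Or.inl h, ?_⟩
        obtain ⟨s, _, rfl⟩ := Finset.mem_image.mp h
        exact dvd_mul_right _ _
    have e1 : w.2 = w'.2 := by rw [← g1 w.1 w.2 hB, ← g1 w'.1 w'.2 hB', heq]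
    have e2 : w.1.image (fun t => q * t) = w'.1.image (fun t => q * t) := by
      rw [← g2 w.1 w.2 hB, ← g2 w'.1 w'.2 hB', heq]
    have e3 : w.1 = w'.1 :=
      Finset.image_injective (fun a b h => Nat.eq_of_mul_eq_mul_left (by omega) h) e2
    exact Prod.ext e3 e1

lemma M2iter {p q : ℕ} (hp : 2 ≤ p) (hq : 2 ≤ q) (hpq : Nat.Coprime p q) (k b : ℕ) :
    ∀ y w : ℕ, q ^ b * (y + p ^ k) ≤ w + p ^ k →
      (Mn p q y).card * 2 ^ (b * k) ≤ (Mn p q w).card := by
  induction b with
  | zero =>
    intro y w h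
    rw [pow_zero, one_mul] at h
    rw [Nat.zero_mul, pow_zero, mul_one]
    exact Mn_mono (by omega)
  | succ b ih =>
    intro y w h
    have h1 := M2 hp hq hpq y k
    have h2 := ih (q * y + p ^ k) w (by
      refine le_trans ?_ h
      rw [pow_succ, mul_assoc]
      apply Nat.mul_le_mul_left
      have : 2 * p ^ k ≤ q * p ^ k := Nat.mul_le_mul_right _ hq
      linarith [mul_add q y (p ^ k)])
    calc (Mn p q y).card * 2 ^ ((b + 1) * k) = ((Mn p q y).card * 2 ^ k) * 2 ^ (b * k) := by
          rw [mul_assoc, ← pow_add]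
          congr 2
          ring
      _ ≤ (Mn p q (q * y + p ^ k)).card * 2 ^ (b * k) := Nat.mul_le_mul_right _ h1
      _ ≤ _ := h2

end Pool.Agent.R447.Growth
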