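import Pool.Agent.R447.Growth

set_option autoImplicit false

/-!
Growth of the number of representations as sums of distinct members of `{p ^ α * q ^ β}`:
the main inequality.
-/

namespace Pool.Agent.R447.Growth

open Finset Pool.Agent.R447.Adj Pool.Agent.R447.Comp

/-- the growth exponent -/
noncomputable def cexp (p q : ℕ) (lam : ℝ) : ℝ :=
  Real.log 2 * Real.log lam / (Real.log p * Real.log q)

lemma M3 {p q : ℕ} (hp : 2 ≤ p) (hq : 2 ≤ q) (hpq : Nat.Coprime p q) {lam ε : ℝ} (hl : 1 ≤ lam)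
    (hε : 0 < ε) :
    ∃ (C : ℝ) (x0 : ℕ), 0 < C ∧ ∀ x : ℕ, x0 ≤ x → ∀ z : ℕ, (z : ℝ) ≤ lam * x →
      ((Mn p q z).card : ℝ) ≤ C * (x : ℝ) ^ (cexp p q lam + ε) * (Mn p q x).card := by
  have hp0 : (0 : ℝ) < p := by positivity
  have hq0 : (0 : ℝ) < q := by positivity
  have hlp : 0 < Real.log p := Real.log_pos (by exact_mod_cast hp)
  have hlq : 0 < Real.log q := Real.log_pos (by exact_mod_cast hq)
  have hl2 : 0 < Real.log 2 := Real.log_pos (by norm_num)
  have hlam0 : 0 < lam := by linarith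
  have hll : 0 ≤ Real.log lam := Real.log_nonneg hl
  set η : ℝ := ε * (Real.log p * Real.log q) / Real.log 2 with hη
  have hη0 : 0 < η := by positivity
  obtain ⟨a, b, h1, h2⟩ := approx hp hq hpq hll hη0
  have hlt : lam * q ^ b < p ^ a := by
    rw [← Real.log_lt_log_iff (by positivity) (by positivity), Real.log_mul (by positivity)
      (by positivity), Real.log_pow, Real.log_pow]
    linarith
  set κ : ℝ := 1 - lam * q ^ b / p ^ a with hκ
  have hκ0 : 0 < κ := by
    have : lam * q ^ b / p ^ a < 1 := by rw [div_lt_one (by positivity)]; exact hlt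
    linarith
  set D : ℝ := a * (Real.log lam / Real.log q + 1) -
    b * ((Real.log κ - b * Real.log q) / Real.log p - 1) with hD
  refine ⟨Real.exp (Real.log 2 * D), ⌈(q : ℝ) ^ b / κ⌉₊ + 1, Real.exp_pos _, ?_⟩
  intro x hx z hz
  have hx1 : (q : ℝ) ^ b / κ ≤ x := by
    have h3 := Nat.le_ceil ((q : ℝ) ^ b / κ)
    have h4 : ((⌈(q : ℝ) ^ b / κ⌉₊ + 1 : ℕ) : ℝ) ≤ x := by exact_mod_cast hx
    push_cast at h4
    linarith
  have hx2 : 1 ≤ x := by omega
  have hx2' : (1 : ℝ) ≤ x := by exact_mod_cast hx2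
  have hlx : 0 ≤ Real.log x := Real.log_nonneg hx2'
  have hN1 : 1 ≤ κ * x / q ^ b := by
    rw [le_div_iff₀ (by positivity), one_mul]
    rw [div_le_iff₀ hκ0] at hx1
    linarith
  set N := ⌊κ * x / (q : ℝ) ^ b⌋₊ with hN
  have hN2 : 1 ≤ N := Nat.le_floor (by simpa using hN1)
  have hN3 : (N : ℝ) ≤ κ * x / q ^ b := Nat.floor_le (by positivity)
  have hN4 : κ * x / q ^ b < N + 1 := Nat.lt_floor_add_one _
  set k := Nat.log p N with hk
  have hk1 : p ^ k ≤ N := Nat.pow_log_le_self p (by omega)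
  have hk2 : N < p ^ (k + 1) := Nat.lt_pow_succ_log_self (by omega) N
  have hk3 : (Real.log x + Real.log κ - b * Real.log q) / Real.log p - 1 ≤ k := by
    have h3 : κ * x / (q : ℝ) ^ b ≤ (p : ℝ) ^ (k + 1) := by
      have : ((N + 1 : ℕ) : ℝ) ≤ ((p ^ (k + 1) : ℕ) : ℝ) := by exact_mod_cast hk2
      push_cast at this
      linarith
    have h4 : Real.log (κ * x / (q : ℝ) ^ b) ≤ Real.log ((p : ℝ) ^ (k + 1)) :=
      Real.log_le_log (by positivity) h3
    rw [Real.log_pow, Real.log_div (by positivity) (by positivity), Real.log_mul (by positivity)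
      (by positivity), Real.log_pow] at h4
    have h5 : (Real.log x + Real.log κ - b * Real.log q) / Real.log p ≤ k + 1 := by
      rw [div_le_iff₀ hlp]
      push_cast at h4
      linarith
    linarith
  set L := Nat.log q z with hL
  have hL1 : (L : ℝ) ≤ (Real.log lam + Real.log x) / Real.log q := by
    rcases Nat.eq_zero_or_pos z with h0 | h0
    · rw [hL, h0, Nat.log_zero_right, Nat.cast_zero]
      positivity
    · have h3 : q ^ L ≤ z := Nat.pow_log_le_self q (by omega)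
      have h4 : (q : ℝ) ^ L ≤ lam * x := by
        refine le_trans ?_ hz
        exact_mod_cast h3
      have h5 := Real.log_le_log (by positivity) h4
      rw [Real.log_pow, Real.log_mul (by positivity) (by positivity)] at h5
      rw [le_div_iff₀ hlq]
      exact h5
  -- the two chains of inequalities
  have hM1 := M1iter hp hq hpq z a
  have hM2 := M2iter hp hq hpq k b (z / p ^ a) x (by
    have h3 : (((z / p ^ a : ℕ) : ℝ)) ≤ lam * x / p ^ a := by
      have h4 : ((z / p ^ a : ℕ) : ℝ) ≤ (z : ℝ) / ((p ^ a : ℕ) : ℝ) := Nat.cast_div_le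
      push_cast at h4
      refine le_trans h4 ?_
      exact div_le_div_of_nonneg_right hz (by positivity)
    have h4 : ((p ^ k : ℕ) : ℝ) ≤ κ * x / q ^ b := by
      refine le_trans ?_ hN3
      exact_mod_cast hk1
    have h5 : ((q ^ b * (z / p ^ a + p ^ k) : ℕ) : ℝ) ≤ x := by
      push_cast
      push_cast at h4
      calc (q : ℝ) ^ b * (((z / p ^ a : ℕ) : ℝ) + (p : ℝ) ^ k) ≤
            (q : ℝ) ^ b * (lam * x / p ^ a + κ * x / q ^ b) :=
            mul_le_mul_of_nonneg_left (add_le_add h3 h4) (by positivity)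
        _ = x := by
            rw [hκ]; field_simp; ring
    have h6 : q ^ b * (z / p ^ a + p ^ k) ≤ x := by exact_mod_cast h5
    omega)
  rw [← hL] at hM1
  have hM3 : (Mn p q z).card * 2 ^ (b * k) ≤ (Mn p q x).card * 2 ^ (a * (L + 1)) := by
    calc (Mn p q z).card * 2 ^ (b * k) ≤
          ((Mn p q (z / p ^ a)).card * 2 ^ (a * (L + 1))) * 2 ^ (b * k) :=
          Nat.mul_le_mul_right _ hM1
      _ = ((Mn p q (z / p ^ a)).card * 2 ^ (b * k)) * 2 ^ (a * (L + 1)) := by ring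
      _ ≤ _ := Nat.mul_le_mul_right _ hM2
  have hM4 : ((Mn p q z).card : ℝ) * 2 ^ (b * k) ≤ (Mn p q x).card * 2 ^ (a * (L + 1)) := by
    exact_mod_cast hM3
  have hexp : ∀ m : ℕ, (2 : ℝ) ^ m = Real.exp (Real.log 2 * m) := by
    intro m
    rw [← Real.rpow_natCast, Real.rpow_def_of_pos (by norm_num)]
  have hM5 : ((Mn p q z).card : ℝ) ≤ (Mn p q x).card *
      Real.exp (Real.log 2 * (a * (L + 1) - b * k)) := by
    have h3 : Real.exp (Real.log 2 * (a * (L + 1) - b * k)) =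
        (2 : ℝ) ^ (a * (L + 1)) / 2 ^ (b * k) := by
      rw [hexp, hexp, ← Real.exp_sub]
      congr 1
      push_cast
      ring
    rw [h3, ← mul_div_assoc, le_div_iff₀ (by positivity)]
    exact hM4
  refine le_trans hM5 ?_
  rw [mul_comm]
  apply mul_le_mul_of_nonneg_right _ (by positivity)
  rw [Real.rpow_def_of_pos (by linarith), ← Real.exp_add]
  apply Real.exp_le_exp.mpr
  have h6 : (a : ℝ) * (L + 1) - b * k ≤ D + Real.log x * ((a * Real.log p - b * Real.log q) /
      (Real.log p * Real.log q)) := by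
    have h7 : (a : ℝ) * (L + 1) ≤ a * ((Real.log lam + Real.log x) / Real.log q + 1) :=
      mul_le_mul_of_nonneg_left (by linarith) (by positivity)
    have h8 : (b : ℝ) * ((Real.log x + Real.log κ - b * Real.log q) / Real.log p - 1) ≤ b * k :=
      mul_le_mul_of_nonneg_left hk3 (by positivity)
    have h9 : D + Real.log x * ((a * Real.log p - b * Real.log q) /
      (Real.log p * Real.log q)) = a * ((Real.log lam + Real.log x) / Real.log q + 1) -
        b * ((Real.log x + Real.log κ - b * Real.log q) / Real.log p - 1) := by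
      rw [hD]; field_simp; ring
    rw [h9]
    linarith
  have h7 : (a * Real.log p - b * Real.log q) / (Real.log p * Real.log q) ≤
      (Real.log lam + η) / (Real.log p * Real.log q) :=
    div_le_div_of_nonneg_right h2.le (by positivity)
  have h8 : Real.log 2 * ((Real.log lam + η) / (Real.log p * Real.log q)) = cexp p q lam + ε := by
    rw [hη, cexp]; field_simp
  calc Real.log 2 * (a * (L + 1) - b * k) ≤ Real.log 2 * (D + Real.log x *
        ((Real.log lam + η) / (Real.log p * Real.log q))) := by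
        apply mul_le_mul_of_nonneg_left _ hl2.le
        have := mul_le_mul_of_nonneg_left h7 hlx
        linarith
    _ = Real.log 2 * D + Real.log x * (cexp p q lam + ε) := by
        rw [← h8]; ring

lemma fin_arith {F G C C1 c d N1 N2 N3 N4 : ℝ}
    (hfin : F * (c * (d * N1)) ≤ C * N2 * (G * (C1 * N3))) (hpow : N2 * N3 ≤ N4 * N1)
    (hN1 : 0 < N1) (hc : 0 < c) (hd : 0 < d) (hG : 0 ≤ G) (hC : 0 ≤ C) (hC1 : 0 ≤ C1) :
    F ≤ C * C1 / (c * d) * N4 * G := by
  rw [div_mul_eq_mul_div, div_mul_eq_mul_div, le_div_iff₀ (by positivity)]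
  have h10 : F * (c * d) * N1 ≤ C * C1 * N4 * G * N1 := by
    calc F * (c * d) * N1 = F * (c * (d * N1)) := by ring
      _ ≤ C * N2 * (G * (C1 * N3)) := hfin
      _ = (C * C1 * G) * (N2 * N3) := by ring
      _ ≤ (C * C1 * G) * (N4 * N1) := mul_le_mul_of_nonneg_left hpow (by positivity)
      _ = _ := by ring
  exact le_of_mul_le_mul_right h10 hN1

theorem main {p q : ℕ} (hp : 2 ≤ p) (hq : 2 ≤ q) (hpq : Nat.Coprime p q) {l : ℕ} (hl : 2 ≤ l)
    {ε : ℝ} (hε : 0 < ε) : ∃ (C : ℝ) (n0 : ℕ), ∀ n : ℕ, n0 ≤ n →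
      ((Fn p q (l * n)).card : ℝ) ≤ C * (n : ℝ) ^ (cexp p q l + ε) * (Fn p q n).card := by
  have hp0 : (0 : ℝ) < p := by positivity
  have hq0 : (0 : ℝ) < q := by positivity
  have hlp : 0 < Real.log p := Real.log_pos (by exact_mod_cast hp)
  have hlq : 0 < Real.log q := Real.log_pos (by exact_mod_cast hq)
  have hl2 : 0 < Real.log 2 := Real.log_pos (by norm_num)
  have hl0 : (2 : ℝ) ≤ l := by exact_mod_cast hl
  have hll : 0 < Real.log l := Real.log_pos (by linarith)
  set e : ℝ := min (ε / 5) (1 / 2) with he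
  have he0 : 0 < e := by positivity
  have he1 : e ≤ ε / 5 := min_le_left _ _
  have he2 : e ≤ 1 / 2 := min_le_right _ _
  set g : ℝ := e * (Real.log p * Real.log q) / Real.log 2 with hg
  have hg0 : 0 < g := by positivity
  set δ : ℝ := (Real.exp g - 1) * l / 2 with hδ
  have hg1 : 1 < Real.exp g := Real.one_lt_exp_iff.mpr hg0
  have hδ0 : 0 < δ := by
    rw [hδ]
    have : 0 < Real.exp g - 1 := by linarith
    positivity
  have hlam : (l : ℝ) + 2 * δ = l * Real.exp g := by rw [hδ]; ring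
  have hcexp : cexp p q (l + 2 * δ) = cexp p q l + e := by
    rw [hlam, cexp, cexp, Real.log_mul (by positivity) (by positivity), Real.log_exp, hg]
    field_simp
  have hc0 : 0 ≤ cexp p q l := by
    unfold cexp
    positivity
  obtain ⟨S1, u, C1, hC1, hS1, hS2, hS3⟩ := complete hp hq hpq he0
  obtain ⟨c, hc, hdis⟩ := dissociated hp hq hpq he0 (by linarith)
  obtain ⟨C, x0, hC, hM3⟩ := M3 hp hq hpq (lam := l + 2 * δ) (by linarith) he0
  refine ⟨C * C1 / (c * (δ / 2) ^ (1 - e)),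
    x0 + u + 1 + ⌈(l + 2 * δ) * u / δ⌉₊ + ⌈2 / δ⌉₊, ?_⟩
  intro n hn
  have hnR : (x0 : ℝ) + u + 1 + (⌈(l + 2 * δ) * u / δ⌉₊ : ℝ) + (⌈2 / δ⌉₊ : ℝ) ≤ n := by
    exact_mod_cast hn
  have h1 : (l + 2 * δ) * u / δ ≤ n := by
    have := Nat.le_ceil ((l + 2 * δ) * u / δ)
    have h3 : (0 : ℝ) ≤ x0 := by positivity
    have h4 : (0 : ℝ) ≤ u := by positivity
    have h5 : (0 : ℝ) ≤ (⌈2 / δ⌉₊ : ℝ) := by positivity
    linarith
  have h2 : 2 / δ ≤ n := by
    have := Nat.le_ceil (2 / δ)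
    have h3 : (0 : ℝ) ≤ x0 := by positivity
    have h4 : (0 : ℝ) ≤ u := by positivity
    have h5 : (0 : ℝ) ≤ (⌈(l + 2 * δ) * u / δ⌉₊ : ℝ) := by positivity
    linarith
  rw [div_le_iff₀ hδ0] at h1 h2
  have hn1 : 1 ≤ n := by omega
  have hn1' : (1 : ℝ) ≤ n := by exact_mod_cast hn1
  have hun : u ≤ n := by omega
  set x := ⌊δ * n⌋₊ with hx
  have hx1 : (x : ℝ) ≤ δ * n := Nat.floor_le (by positivity)
  have hx2 : δ * n < x + 1 := Nat.lt_floor_add_one _
  have hx3 : δ / 2 * n ≤ x := by nlinarith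
  have hx4 : 1 ≤ x := by
    have : (1 : ℝ) ≤ x := by nlinarith
    exact_mod_cast this
  obtain ⟨A, hA1, hA2, hA3, hA4⟩ := hdis x hx4
  have hF1 := F1 (m := l * n) hA1 hA3
  have hz : ((l * n + ∑ s ∈ A, s : ℕ) : ℝ) ≤ (l + 2 * δ) * ((n - u : ℕ) : ℝ) := by
    have h3 : ((∑ s ∈ A, s : ℕ) : ℝ) ≤ x := by exact_mod_cast hA2
    rw [Nat.cast_add, Nat.cast_mul, Nat.cast_sub hun]
    nlinarith
  have hM := hM3 (n - u) (by omega) _ hz
  rw [hcexp] at hM
  have hF2 := F2 hS1 hS2 hun (K := C1 * (n : ℝ) ^ (1 + e))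
    (fun B hB hBn => hS3 n B hn1 hB hBn)
  have hM' : ((Mn p q (l * n + ∑ s ∈ A, s)).card : ℝ) ≤ C * (n : ℝ) ^ (cexp p q l + e + e) *
      ((Fn p q n).card * (C1 * (n : ℝ) ^ (1 + e))) := by
    refine le_trans hM ?_
    apply mul_le_mul _ hF2 (Nat.cast_nonneg _)
      (mul_nonneg hC.le (Real.rpow_nonneg (Nat.cast_nonneg _) _))
    apply mul_le_mul_of_nonneg_left _ hC.le
    apply Real.rpow_le_rpow (by positivity) _ (by positivity)
    exact_mod_cast Nat.sub_le n u
  have hF1' : ((Fn p q (l * n)).card : ℝ) * 2 ^ A.card ≤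
      ((Mn p q (l * n + ∑ s ∈ A, s)).card : ℝ) := by exact_mod_cast hF1
  have h2A : c * ((δ / 2) ^ (1 - e) * (n : ℝ) ^ (1 - e)) ≤ 2 ^ A.card := by
    refine le_trans ?_ hA4
    apply mul_le_mul_of_nonneg_left _ hc.le
    rw [← Real.mul_rpow (by positivity) (by positivity)]
    exact Real.rpow_le_rpow (by positivity) hx3 (by linarith)
  have hfin : ((Fn p q (l * n)).card : ℝ) * (c * ((δ / 2) ^ (1 - e) * (n : ℝ) ^ (1 - e))) ≤
      C * (n : ℝ) ^ (cexp p q l + e + e) * ((Fn p q n).card * (C1 * (n : ℝ) ^ (1 + e))) :=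
    le_trans (mul_le_mul_of_nonneg_left h2A (Nat.cast_nonneg _)) (le_trans hF1' hM')
  have hpow : (n : ℝ) ^ (cexp p q l + e + e) * (n : ℝ) ^ (1 + e) ≤
      (n : ℝ) ^ (cexp p q l + ε) * (n : ℝ) ^ (1 - e) := by
    have hn0 : (0 : ℝ) < n := lt_of_lt_of_le one_pos hn1'
    rw [← Real.rpow_add hn0, ← Real.rpow_add hn0]
    apply Real.rpow_le_rpow_of_exponent_le hn1'
    linarith
  have hne : 0 < (n : ℝ) ^ (1 - e) := Real.rpow_pos_of_pos (lt_of_lt_of_le one_pos hn1') _
  have hδe : 0 < (δ / 2) ^ (1 - e) := Real.rpow_pos_of_pos (half_pos hδ0) _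
  exact fin_arith hfin hpow hne hc hδe (Nat.cast_nonneg _) hC.le hC1.le

end Pool.Agent.R447.Growth
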