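import Mathlib

set_option autoImplicit false

/-!
Hausdorff approximation by positive kernels: a rate comparable with the width of the kernel
forces continuity.
-/

namespace Pool.Agent.R447.HKernel

open MeasureTheory Filter Topology Set

/-- the lower envelope of `f` -/
noncomputable def lo (f : ℝ → ℝ) (x : ℝ) : ℝ := min (f x) (liminf f (𝓝[≠] x))

/-- the upper envelope of `f` -/
noncomputable def hi (f : ℝ → ℝ) (x : ℝ) : ℝ := max (f x) (limsup f (𝓝[≠] x))

/-- the completed graph of `f`, with the first coordinate divided by `α` -/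
def cgraph (α : ℝ) (f : ℝ → ℝ) : Set (ℝ × ℝ) :=
  (fun p : ℝ × ℝ => (p.1 / α, p.2)) '' {p | lo f p.1 ≤ p.2 ∧ p.2 ≤ hi f p.1}

/-- the Hausdorff distance of the completed graphs -/
noncomputable def r (α : ℝ) (f g : ℝ → ℝ) : ℝ := Metric.hausdorffDist (cgraph α f) (cgraph α g)

lemma bdd_above {f : ℝ → ℝ} {B : ℝ} (hB : ∀ t, |f t| ≤ B) (l : Filter ℝ) :
    IsBoundedUnder (· ≤ ·) l f :=
  isBoundedUnder_of ⟨B, fun t => (abs_le.mp (hB t)).2⟩

lemma bdd_below {f : ℝ → ℝ} {B : ℝ} (hB : ∀ t, |f t| ≤ B) (l : Filter ℝ) :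
    IsBoundedUnder (· ≥ ·) l f :=
  isBoundedUnder_of ⟨-B, fun t => (abs_le.mp (hB t)).1⟩

lemma hi_le {f : ℝ → ℝ} {B : ℝ} (hB : ∀ t, |f t| ≤ B) (x : ℝ) : hi f x ≤ B := by
  apply max_le (abs_le.mp (hB x)).2
  exact limsup_le_of_le ((bdd_below hB _).isCoboundedUnder_le)
    (Eventually.of_forall fun t => (abs_le.mp (hB t)).2)

lemma le_lo {f : ℝ → ℝ} {B : ℝ} (hB : ∀ t, |f t| ≤ B) (x : ℝ) : -B ≤ lo f x := by
  apply le_min (abs_le.mp (hB x)).1
  exact le_liminf_of_le ((bdd_above hB _).isCoboundedUnder_ge)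
    (Eventually.of_forall fun t => (abs_le.mp (hB t)).1)

lemma lo_le_hi (f : ℝ → ℝ) (x : ℝ) : lo f x ≤ hi f x :=
  le_trans (min_le_left _ _) (le_max_left _ _)

lemma hi_near {g : ℝ → ℝ} {B : ℝ} (hB : ∀ t, |g t| ≤ B) {x v η δ : ℝ} (hη : 0 < η) (hδ : 0 < δ)
    (hv : v ≤ hi g x) : ∃ y, |y - x| ≤ η ∧ v - δ ≤ g y := by
  rcases le_or_gt v (g x) with h | h
  · exact ⟨x, by simpa using hη.le, by linarith⟩
  · have h1 : v ≤ limsup g (𝓝[≠] x) := by
      rcases le_max_iff.mp hv with h2 | h2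
      · linarith
      · exact h2
    have h2 : ∃ᶠ y in 𝓝[≠] x, v - δ < g y :=
      frequently_lt_of_lt_limsup ((bdd_below hB _).isCoboundedUnder_le) (by linarith)
    have h3 : ∀ᶠ y in 𝓝[≠] x, |y - x| < η := by
      apply eventually_nhdsWithin_of_eventually_nhds
      have := Metric.ball_mem_nhds x hη
      filter_upwards [this] with y hy
      rwa [Metric.mem_ball, Real.dist_eq] at hy
    obtain ⟨y, hy1, hy2⟩ := (h2.and_eventually h3).exists
    exact ⟨y, hy2.le, hy1.le⟩

lemma lo_near {g : ℝ → ℝ} {B : ℝ} (hB : ∀ t, |g t| ≤ B) {x v η δ : ℝ} (hη : 0 < η) (hδ : 0 < δ)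
    (hv : lo g x ≤ v) : ∃ y, |y - x| ≤ η ∧ g y ≤ v + δ := by
  rcases le_or_gt (g x) v with h | h
  · exact ⟨x, by simpa using hη.le, by linarith⟩
  · have h1 : liminf g (𝓝[≠] x) ≤ v := by
      rcases min_le_iff.mp hv with h2 | h2
      · linarith
      · exact h2
    have h2 : ∃ᶠ y in 𝓝[≠] x, g y < v + δ :=
      frequently_lt_of_liminf_lt ((bdd_above hB _).isCoboundedUnder_ge) (by linarith)
    have h3 : ∀ᶠ y in 𝓝[≠] x, |y - x| < η := by
      apply eventually_nhdsWithin_of_eventually_nhds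
      have := Metric.ball_mem_nhds x hη
      filter_upwards [this] with y hy
      rwa [Metric.mem_ball, Real.dist_eq] at hy
    obtain ⟨y, hy1, hy2⟩ := (h2.and_eventually h3).exists
    exact ⟨y, hy2.le, hy1.le⟩

lemma local_hi {f : ℝ → ℝ} {B : ℝ} (hB : ∀ t, |f t| ≤ B) (x : ℝ) {δ : ℝ} (hδ : 0 < δ) :
    ∃ η > 0, ∀ t, |t - x| < η → f t ≤ hi f x + δ := by
  have h1 : ∀ᶠ t in 𝓝[≠] x, f t < hi f x + δ :=
    eventually_lt_of_limsup_lt (lt_of_le_of_lt (le_max_right _ _) (by
      show hi f x < hi f x + δ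
      linarith)) (bdd_above hB _)
  rw [eventually_nhdsWithin_iff, Metric.eventually_nhds_iff] at h1
  obtain ⟨η, hη, h2⟩ := h1
  refine ⟨η, hη, fun t ht => ?_⟩
  by_cases htx : t = x
  · subst htx
    have : f t ≤ hi f t := le_max_left _ _
    linarith
  · exact (h2 (by rwa [Real.dist_eq]) htx).le

lemma local_lo {f : ℝ → ℝ} {B : ℝ} (hB : ∀ t, |f t| ≤ B) (x : ℝ) {δ : ℝ} (hδ : 0 < δ) :
    ∃ η > 0, ∀ t, |t - x| < η → lo f x - δ ≤ f t := by
  have h1 : ∀ᶠ t in 𝓝[≠] x, lo f x - δ < f t :=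
    eventually_lt_of_lt_liminf (lt_of_lt_of_le (by
      show lo f x - δ < lo f x
      linarith) (min_le_right _ _)) (bdd_below hB _)
  rw [eventually_nhdsWithin_iff, Metric.eventually_nhds_iff] at h1
  obtain ⟨η, hη, h2⟩ := h1
  refine ⟨η, hη, fun t ht => ?_⟩
  by_cases htx : t = x
  · subst htx
    have : lo f t ≤ f t := min_le_left _ _
    linarith
  · exact (h2 (by rwa [Real.dist_eq]) htx).le

/-- if the envelopes agree at a point, `f` is continuous there -/
lemma continuousAt_of_env {f : ℝ → ℝ} {B : ℝ} (hB : ∀ t, |f t| ≤ B) {x : ℝ} (h : hi f x ≤ lo f x) :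
    ContinuousAt f x := by
  have h1 : f x ≤ hi f x := le_max_left _ _
  have h2 : lo f x ≤ f x := min_le_left _ _
  rw [Metric.continuousAt_iff]
  intro ε hε
  obtain ⟨η1, hη1, ha⟩ := local_hi hB x (half_pos hε)
  obtain ⟨η2, hη2, hb⟩ := local_lo hB x (half_pos hε)
  refine ⟨min η1 η2, lt_min hη1 hη2, fun {t} ht => ?_⟩
  rw [Real.dist_eq] at ht
  have h3 := ha t (lt_of_lt_of_le ht (min_le_left _ _))
  have h4 := hb t (lt_of_lt_of_le ht (min_le_right _ _))
  rw [Real.dist_eq, abs_lt]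
  constructor <;> linarith

/-- the main inequality for one kernel -/
lemma key {k : ℝ → ℝ} (hk0 : ∀ s, 0 ≤ k s) (hki : Integrable k) (hk1 : ∫ s, k s = 1)
    {f : ℝ → ℝ} (hf : AEMeasurable f) {B : ℝ} (hB : ∀ t, |f t| ≤ B) {N x0 y η σ c : ℝ}
    (hN : |N| ≤ B + 1)
    (hloc : ∀ t, |t - x0| < η → f t ≤ N) (hy : |y - x0| < η / 2)
    (hJ : ∀ t ∈ Icc x0 (x0 + σ), |t - y| ≤ η / 2)
    (hlow : ∀ t ∈ Icc x0 (x0 + σ), c / σ ≤ k (t - y)) :
    c / σ * ∫ t in Icc x0 (x0 + σ), (N - f t) ≤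
      N - (∫ s, f (y + s) * k s) + (2 * B + 1) * ∫ s in {s | η / 2 < |s|}, k s := by
  set G : ℝ → ℝ := fun t => (N - f t) * k (t - y) with hG
  have hNf : ∀ t, |N - f t| ≤ 2 * B + 1 := by
    intro t
    have h1 := abs_le.mp (hB t)
    have h2 := abs_le.mp hN
    rw [abs_le]
    constructor <;> linarith [h1.1, h1.2, h2.1, h2.2]
  have hki' : Integrable (fun t => k (t - y)) := hki.comp_sub_right y
  have hGi : Integrable G := by
    apply Integrable.bdd_mul (c := 2 * B + 1) hki'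
    · exact (aemeasurable_const.sub hf).aestronglyMeasurable
    · exact Eventually.of_forall fun t => by rw [Real.norm_eq_abs]; exact hNf t
  have hfk : Integrable (fun s => f (y + s) * k s) := by
    have h0 : Integrable (fun t => f t * k (t - y)) := by
      apply Integrable.bdd_mul (c := B) hki'
      · exact hf.aestronglyMeasurable
      · exact Eventually.of_forall fun t => by rw [Real.norm_eq_abs]; exact hB _
    have h00 := h0.comp_add_left y
    simpa using h00
  have h1 : N - (∫ s, f (y + s) * k s) = ∫ t, G t := by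
    have h2 : ∫ t, G t = ∫ s, G (s + y) := (integral_add_right_eq_self G y).symm
    rw [h2]
    have h3 : (fun s => G (s + y)) = fun s => N * k s - f (y + s) * k s := by
      funext s
      simp only [hG]
      rw [add_sub_cancel_right, add_comm s y]
      ring
    rw [h3, integral_sub (hki.const_mul N) hfk, integral_const_mul, hk1, mul_one]
  rw [h1]
  set U : Set ℝ := {t | |t - y| ≤ η / 2} with hU
  have hUm : MeasurableSet U := by
    apply measurableSet_le
    · exact (measurable_id.sub measurable_const).abs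
    · exact measurable_const
  have h2 : ∫ t, G t = (∫ t in U, G t) + ∫ t in Uᶜ, G t := (integral_add_compl hUm hGi).symm
  have hUpos : ∀ t ∈ U, 0 ≤ G t := by
    intro t ht
    apply mul_nonneg _ (hk0 _)
    have h3 : |t - x0| < η := by
      calc |t - x0| = |(t - y) + (y - x0)| := by ring_nf
        _ ≤ |t - y| + |y - x0| := abs_add_le _ _
        _ < η := by
            have : |t - y| ≤ η / 2 := ht
            linarith
    linarith [hloc t h3]
  have hJU : Icc x0 (x0 + σ) ⊆ U := fun t ht => hJ t ht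
  have h3 : ∫ t in Icc x0 (x0 + σ), G t ≤ ∫ t in U, G t := by
    apply setIntegral_mono_set hGi.integrableOn
    · rw [EventuallyLE, ae_restrict_iff' hUm]
      exact Eventually.of_forall fun t ht => hUpos t ht
    · exact hJU.eventuallyLE
  have hNfi : IntegrableOn (fun t => N - f t) (Icc x0 (x0 + σ)) := by
    apply Measure.integrableOn_of_bounded (M := 2 * B + 1)
    · exact measure_Icc_lt_top.ne
    · exact (aemeasurable_const.sub hf).aestronglyMeasurable
    · exact Eventually.of_forall fun t => by rw [Real.norm_eq_abs]; exact hNf t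
  have h4 : c / σ * ∫ t in Icc x0 (x0 + σ), (N - f t) ≤ ∫ t in Icc x0 (x0 + σ), G t := by
    rw [← integral_const_mul]
    apply setIntegral_mono_on (hNfi.const_mul _) hGi.integrableOn measurableSet_Icc
    intro t ht
    have h5 : |t - x0| < η := by
      calc |t - x0| = |(t - y) + (y - x0)| := by ring_nf
        _ ≤ |t - y| + |y - x0| := abs_add_le _ _
        _ < η := by
            have := hJ t ht
            linarith
    have h6 := hloc t h5
    rw [mul_comm]
    exact mul_le_mul_of_nonneg_left (hlow t ht) (by linarith)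
  have h5 : -((2 * B + 1) * ∫ s in {s | η / 2 < |s|}, k s) ≤ ∫ t in Uᶜ, G t := by
    have h6 : ∫ s in {s | η / 2 < |s|}, k s = ∫ t in Uᶜ, k (t - y) := by
      have hV : MeasurableSet {s : ℝ | η / 2 < |s|} :=
        measurableSet_lt measurable_const measurable_id.abs
      rw [← integral_indicator hV, ← integral_indicator hUm.compl,
        ← integral_sub_right_eq_self _ y]
      congr 1
      funext t
      by_cases ht : t ∈ Uᶜ
      · rw [indicator_of_mem ht, indicator_of_mem]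
        have : ¬ |t - y| ≤ η / 2 := ht
        exact not_le.mp this
      · rw [indicator_of_notMem ht, indicator_of_notMem]
        have : |t - y| ≤ η / 2 := not_not.mp ht
        exact not_lt.mpr this
    rw [h6, ← integral_const_mul, ← integral_neg]
    apply setIntegral_mono (hki'.integrableOn.const_mul _).neg hGi.integrableOn
    intro t
    have h7 := (abs_le.mp (hNf t)).1
    have h8 := hk0 (t - y)
    show -((2 * B + 1) * k (t - y)) ≤ (N - f t) * k (t - y)
    nlinarith
  linarith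

lemma abs_conv_le {k : ℝ → ℝ} (hk0 : ∀ s, 0 ≤ k s) (hki : Integrable k) (hk1 : ∫ s, k s = 1)
    {f : ℝ → ℝ} {B : ℝ} (hB : ∀ t, |f t| ≤ B) (x : ℝ) : |∫ s, f (x + s) * k s| ≤ B := by
  have h1 : ‖∫ s, f (x + s) * k s‖ ≤ ∫ s, B * k s := by
    apply norm_integral_le_of_norm_le (hki.const_mul B)
    apply Eventually.of_forall
    intro s
    rw [norm_mul, Real.norm_eq_abs, Real.norm_eq_abs, abs_of_nonneg (hk0 s)]
    exact mul_le_mul_of_nonneg_right (hB _) (hk0 s)
  rw [integral_const_mul, hk1, mul_one, Real.norm_eq_abs] at h1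
  exact h1

lemma abs_hi_le {f : ℝ → ℝ} {B : ℝ} (hB : ∀ t, |f t| ≤ B) (x : ℝ) : |hi f x| ≤ B :=
  abs_le.mpr ⟨(le_lo hB x).trans (lo_le_hi f x), hi_le hB x⟩

lemma abs_lo_le {f : ℝ → ℝ} {B : ℝ} (hB : ∀ t, |f t| ≤ B) (x : ℝ) : |lo f x| ≤ B :=
  abs_le.mpr ⟨le_lo hB x, (lo_le_hi f x).trans (hi_le hB x)⟩

/-- two completed graphs of bounded functions are at finite Hausdorff distance -/
lemma edist_ne_top {α : ℝ} {f g : ℝ → ℝ} {B : ℝ} (hB : ∀ t, |f t| ≤ B) (hB' : ∀ t, |g t| ≤ B) :
    Metric.hausdorffEDist (cgraph α f) (cgraph α g) ≠ ⊤ := by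
  have key : ∀ f g : ℝ → ℝ, (∀ t, |f t| ≤ B) → (∀ t, |g t| ≤ B) →
      ∀ p ∈ cgraph α f, ∃ q ∈ cgraph α g, edist p q ≤ ENNReal.ofReal (2 * B) := by
    rintro f g hB hB' _ ⟨p, hp, rfl⟩
    refine ⟨(p.1 / α, g p.1), ⟨(p.1, g p.1), ⟨min_le_left _ _, le_max_left _ _⟩, rfl⟩, ?_⟩
    rw [edist_dist]
    apply ENNReal.ofReal_le_ofReal
    rw [Prod.dist_eq]
    have hB0 : 0 ≤ B := (abs_nonneg _).trans (hB 0)
    apply max_le
    · simp only [dist_self]
      linarith
    · simp only
      rw [Real.dist_eq]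
      have h1 := (le_lo hB p.1).trans hp.1
      have h2 := hp.2.trans (hi_le hB p.1)
      have h3 := abs_le.mp (hB' p.1)
      rw [abs_le]
      constructor <;> linarith [h3.1, h3.2]
  have h1 : Metric.hausdorffEDist (cgraph α f) (cgraph α g) ≤ ENNReal.ofReal (2 * B) :=
    Metric.hausdorffEDist_le_of_mem_edist (key f g hB hB') (key g f hB' hB)
  exact ne_top_of_le_ne_top ENNReal.ofReal_ne_top h1

/-- a bounded measurable function which is approximated by positive kernels, in the Hausdorff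
metric, with a rate comparable with the width of the kernel is continuous -/
theorem continuous_of_rate {ι : Type*} {l : Filter ι} {k : ι → ℝ → ℝ} {σ : ι → ℝ}
    (hσ : ∀ᶠ i in l, 0 < σ i) (hσ0 : Tendsto σ l (𝓝 0))
    (hk0 : ∀ᶠ i in l, ∀ s, 0 ≤ k i s) (hki : ∀ᶠ i in l, Integrable (k i))
    (hk1 : ∀ᶠ i in l, ∫ s, k i s = 1)
    (htail : ∀ η > 0, Tendsto (fun i => ∫ s in {s | η < |s|}, k i s) l (𝓝 0))
    (hlow : ∀ A : ℝ, ∃ c > 0, ∀ᶠ i in l, ∀ s, |s| ≤ A * σ i → c / σ i ≤ k i s)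
    {α : ℝ} (hα : 0 < α) {f : ℝ → ℝ} (hf : AEMeasurable f) {B : ℝ} (hB : ∀ t, |f t| ≤ B)
    {C : ℝ} (hr : ∃ᶠ i in l, r α f (fun x => ∫ s, f (x + s) * k i s) ≤ C * σ i) :
    Continuous f := by
  have hB0 : 0 ≤ B := (abs_nonneg _).trans (hB 0)
  rw [continuous_iff_continuousAt]
  intro x0
  apply continuousAt_of_env hB
  set C' : ℝ := |C| with hC'
  have hC0 : 0 ≤ C' := abs_nonneg C
  set A : ℝ := α * (C' + 1) + 2 with hA
  have hA0 : 0 < A := by positivity
  obtain ⟨c, hc, hlowA⟩ := hlow A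
  -- it suffices to bound the oscillation by a multiple of `δ`
  suffices H : ∀ δ : ℝ, 0 < δ → δ ≤ 1 → c * (hi f x0 - lo f x0) ≤ 6 * δ by
    by_contra hcon
    push Not at hcon
    have h1 : 0 < c * (hi f x0 - lo f x0) := mul_pos hc (by linarith)
    have h2 := H (min 1 (c * (hi f x0 - lo f x0) / 12)) (lt_min one_pos (by positivity))
      (min_le_left _ _)
    have h3 := min_le_right 1 (c * (hi f x0 - lo f x0) / 12)
    linarith
  intro δ hδ hδ1
  obtain ⟨η1, hη1, hloc1⟩ := local_hi hB x0 hδ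
  obtain ⟨η2, hη2, hloc2⟩ := local_lo hB x0 hδ
  set η : ℝ := min η1 η2 with hη
  have hη0 : 0 < η := lt_min hη1 hη2
  have e1 : ∀ᶠ i in l, σ i < min (η / (2 * A)) (δ / (C' + 2)) :=
    hσ0.eventually_lt_const (lt_min (by positivity) (by positivity))
  have e2 : ∀ᶠ i in l, ∫ s in {s | η / 2 < |s|}, k i s < δ / (2 * B + 1) :=
    (htail (η / 2) (half_pos hη0)).eventually_lt_const (by positivity)
  obtain ⟨i, hri, hσi, hk0i, hkii, hk1i, hlowi, e1i, e2i⟩ :=
    (hr.and_eventually (hσ.and (hk0.and (hki.and (hk1.and (hlowA.and (e1.and e2))))))).exists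
  set τ : ℝ := σ i with hτ
  set g : ℝ → ℝ := fun x => ∫ s, f (x + s) * k i s with hg
  have hBg : ∀ t, |g t| ≤ B := fun t => abs_conv_le hk0i hkii hk1i hB t
  have hη2A : A * τ < η / 2 := by
    have := lt_of_lt_of_le e1i (min_le_left _ _)
    rw [lt_div_iff₀ (by positivity)] at this
    linarith
  have hτδ : (C' + 2) * τ < δ := by
    have := lt_of_lt_of_le e1i (min_le_right _ _)
    rw [lt_div_iff₀ (by positivity)] at this
    linarith
  have htl : (2 * B + 1) * ∫ s in {s | η / 2 < |s|}, k i s ≤ δ := by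
    have := e2i.le
    rw [le_div_iff₀ (by positivity)] at this
    linarith
  have hrlt : r α f g < (C' + 1) * τ := by
    have h1 : C * τ ≤ C' * τ := mul_le_mul_of_nonneg_right (le_abs_self C) hσi.le
    linarith
  have hfin := edist_ne_top (α := α) hB hBg
  -- geometric facts about points near `x0`
  have hgeo : ∀ x' y : ℝ, dist (x0 / α) (x' / α) < (C' + 1) * τ → |y - x'| ≤ τ →
      |y - x0| < η / 2 ∧ (∀ t ∈ Icc x0 (x0 + τ), |t - y| ≤ A * τ) := by
    intro x' y h1 h2
    rw [Real.dist_eq, ← sub_div, abs_div, abs_of_pos hα, div_lt_iff₀ hα] at h1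
    have h3 : |y - x0| < (α * (C' + 1) + 1) * τ := by
      calc |y - x0| = |(y - x') + (x' - x0)| := by ring_nf
        _ ≤ |y - x'| + |x' - x0| := abs_add_le _ _
        _ < τ + (C' + 1) * τ * α := by
            rw [abs_sub_comm x' x0]
            linarith
        _ = (α * (C' + 1) + 1) * τ := by ring
    constructor
    · have : (α * (C' + 1) + 1) * τ ≤ A * τ := by
        apply mul_le_mul_of_nonneg_right _ hσi.le
        rw [hA]; linarith
      linarith
    · intro t ht
      calc |t - y| = |(t - x0) - (y - x0)| := by ring_nf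
        _ ≤ |t - x0| + |y - x0| := abs_sub _ _
        _ ≤ τ + (α * (C' + 1) + 1) * τ := by
            have h4 : |t - x0| ≤ τ := by
              rw [abs_le]
              constructor <;> linarith [ht.1, ht.2]
            linarith
        _ = A * τ := by rw [hA]; ring
  -- the upper point
  have hup : c / τ * ∫ t in Icc x0 (x0 + τ), (hi f x0 + δ - f t) ≤ 3 * δ := by
    have hp : ((x0 / α, hi f x0) : ℝ × ℝ) ∈ cgraph α f :=
      ⟨(x0, hi f x0), ⟨lo_le_hi f x0, le_refl _⟩, rfl⟩
    obtain ⟨q, hq, hdq⟩ := Metric.exists_dist_lt_of_hausdorffDist_lt hp hrlt hfin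
    obtain ⟨⟨x', v'⟩, hqm, rfl⟩ := hq
    rw [Prod.dist_eq, max_lt_iff] at hdq
    obtain ⟨hd1, hd2⟩ := hdq
    simp only at hd1 hd2
    obtain ⟨y, hy1, hy2⟩ := hi_near hBg hσi hσi hqm.2
    obtain ⟨g1, g2⟩ := hgeo x' y hd1 hy1
    have hk := key hk0i hkii hk1i hf hB (N := hi f x0 + δ) (x0 := x0) (y := y) (η := η) (σ := τ)
      (c := c) (by
        have := abs_le.mp (abs_hi_le hB x0)
        rw [abs_le]
        constructor <;> linarith [this.1, this.2])
      (fun t ht => hloc1 t (lt_of_lt_of_le ht (min_le_left _ _))) g1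
      (fun t ht => (g2 t ht).trans hη2A.le) (fun t ht => hlowi _ (g2 t ht))
    rw [Real.dist_eq] at hd2
    have h5 := (abs_lt.mp hd2).2
    have h6 : g y = ∫ s, f (y + s) * k i s := rfl
    rw [← h6] at hk
    simp only at hy2
    nlinarith
  have hdn : c / τ * ∫ t in Icc x0 (x0 + τ), (f t - (lo f x0 - δ)) ≤ 3 * δ := by
    have hp : ((x0 / α, lo f x0) : ℝ × ℝ) ∈ cgraph α f :=
      ⟨(x0, lo f x0), ⟨le_refl _, lo_le_hi f x0⟩, rfl⟩
    obtain ⟨q, hq, hdq⟩ := Metric.exists_dist_lt_of_hausdorffDist_lt hp hrlt hfin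
    obtain ⟨⟨x', v'⟩, hqm, rfl⟩ := hq
    rw [Prod.dist_eq, max_lt_iff] at hdq
    obtain ⟨hd1, hd2⟩ := hdq
    simp only at hd1 hd2
    obtain ⟨y, hy1, hy2⟩ := lo_near hBg hσi hσi hqm.1
    obtain ⟨g1, g2⟩ := hgeo x' y hd1 hy1
    have hk := key hk0i hkii hk1i hf.neg (B := B) (by intro t; rw [Pi.neg_apply, abs_neg]; exact hB t)
      (N := -(lo f x0 - δ)) (x0 := x0) (y := y) (η := η) (σ := τ)
      (c := c) (by
        have := abs_le.mp (abs_lo_le hB x0)
        rw [abs_le]
        constructor <;> linarith [this.1, this.2])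
      (fun t ht => by
        have := hloc2 t (lt_of_lt_of_le ht (min_le_right _ _))
        rw [Pi.neg_apply]
        linarith) g1
      (fun t ht => (g2 t ht).trans hη2A.le) (fun t ht => hlowi _ (g2 t ht))
    rw [Real.dist_eq] at hd2
    have h5 := (abs_lt.mp hd2).1
    have h6 : ∫ s, (-f) (y + s) * k i s = - g y := by
      rw [hg]
      simp only [Pi.neg_apply, neg_mul]
      rw [integral_neg]
    rw [h6] at hk
    have h7 : ∫ t in Icc x0 (x0 + τ), (-(lo f x0 - δ) - (-f) t) =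
        ∫ t in Icc x0 (x0 + τ), (f t - (lo f x0 - δ)) := by
      congr 1
      funext t
      rw [Pi.neg_apply]
      ring
    rw [h7] at hk
    simp only at hy2
    nlinarith
  -- add the two inequalities
  have hfi : IntegrableOn f (Icc x0 (x0 + τ)) := by
    apply Measure.integrableOn_of_bounded (M := B)
    · exact measure_Icc_lt_top.ne
    · exact hf.aestronglyMeasurable
    · exact Eventually.of_forall fun t => by rw [Real.norm_eq_abs]; exact hB t
  have hci : ∀ a : ℝ, IntegrableOn (fun _ : ℝ => a) (Icc x0 (x0 + τ)) := fun a =>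
    integrableOn_const measure_Icc_lt_top.ne
  have hvol : ∀ a : ℝ, ∫ _ in Icc x0 (x0 + τ), a = τ * a := by
    intro a
    rw [setIntegral_const, smul_eq_mul, Real.volume_real_Icc_of_le (by linarith)]
    ring
  have hsum : (∫ t in Icc x0 (x0 + τ), (hi f x0 + δ - f t)) +
      ∫ t in Icc x0 (x0 + τ), (f t - (lo f x0 - δ)) = τ * (hi f x0 - lo f x0 + 2 * δ) := by
    rw [integral_sub (hci _) hfi, integral_sub hfi (hci _), hvol, hvol]
    ring
  have hfinal : c / τ * (τ * (hi f x0 - lo f x0 + 2 * δ)) ≤ 6 * δ := by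
    rw [← hsum, mul_add]
    linarith
  have h8 : c / τ * (τ * (hi f x0 - lo f x0 + 2 * δ)) = c * (hi f x0 - lo f x0 + 2 * δ) := by
    field_simp
  rw [h8] at hfinal
  have : 0 ≤ c * (2 * δ) := by positivity
  linarith

end Pool.Agent.R447.HKernel
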