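import Pool.Agent.R447.HKernel

set_option autoImplicit false

/-!
The three classical kernels: Gauss-Weierstrass, Poisson, de la Vallée-Poussin.
-/

namespace Pool.Agent.R447.HKernel

open MeasureTheory Filter Topology Set Real

/-- the Gauss-Weierstrass operator -/
noncomputable def W (n : ℕ) (f : ℝ → ℝ) (x : ℝ) : ℝ :=
  √(n / π) * ∫ s, f (x + s) * exp (-(n * s ^ 2))

/-- the Poisson operator -/
noncomputable def P (ρ : ℝ) (f : ℝ → ℝ) (x : ℝ) : ℝ :=
  1 / (2 * π) * ∫ s in (-π)..π, f (x + s) * ((1 - ρ ^ 2) / (1 + ρ ^ 2 - 2 * ρ * cos s))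

/-- the de la Vallée-Poussin operator -/
noncomputable def V (n : ℕ) (f : ℝ → ℝ) (x : ℝ) : ℝ :=
  (n.factorial : ℝ) ^ 2 / ((2 * n).factorial : ℝ) * (1 / (2 * π)) *
    ∫ s in (-π)..π, f (x + s) * (2 * cos (s / 2)) ^ (2 * n)

/-- the Gauss kernel -/
noncomputable def kW (n : ℕ) (s : ℝ) : ℝ := √(n / π) * exp (-(n * s ^ 2))

lemma W_eq (n : ℕ) (f : ℝ → ℝ) : W n f = fun x => ∫ s, f (x + s) * kW n s := by
  funext x
  rw [W, ← integral_const_mul]
  congr 1
  funext s
  rw [kW]
  ring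

lemma kW_nonneg (n : ℕ) (s : ℝ) : 0 ≤ kW n s := mul_nonneg (sqrt_nonneg _) (exp_pos _).le

lemma kW_integrable {n : ℕ} (hn : 0 < n) : Integrable (kW n) := by
  have h := integrable_exp_neg_mul_sq (b := (n : ℝ)) (by exact_mod_cast hn)
  have h2 := h.const_mul (√(n / π))
  refine h2.congr (Eventually.of_forall fun s => ?_)
  simp only [kW, neg_mul]

lemma kW_integral {n : ℕ} (hn : 0 < n) : ∫ s, kW n s = 1 := by
  have hn' : (0 : ℝ) < n := by exact_mod_cast hn
  have h : ∫ s, kW n s = √(n / π) * ∫ s, exp (-(n : ℝ) * s ^ 2) := by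
    rw [← integral_const_mul]
    congr 1
    funext s
    simp only [kW, neg_mul]
  rw [h, integral_gaussian, ← sqrt_mul (by positivity)]
  have : (n : ℝ) / π * (π / n) = 1 := by
    field_simp
  rw [this, sqrt_one]

lemma kW_tail {η : ℝ} (hη : 0 < η) :
    Tendsto (fun n : ℕ => ∫ s in {s | η < |s|}, kW n s) atTop (𝓝 0) := by
  have hbd : ∀ᶠ n : ℕ in atTop,
      ∫ s in {s | η < |s|}, kW n s ≤ √2 * exp (-(η ^ 2 / 2) * n) := by
    filter_upwards [eventually_gt_atTop 0] with n hn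
    have hn' : (0 : ℝ) < n := by exact_mod_cast hn
    have hV : MeasurableSet {s : ℝ | η < |s|} :=
      measurableSet_lt measurable_const measurable_id.abs
    have hint : Integrable (fun s : ℝ => exp (-(η ^ 2 / 2) * n) * (√(n / π) *
        exp (-(n / 2 : ℝ) * s ^ 2))) :=
      ((integrable_exp_neg_mul_sq (b := (n : ℝ) / 2) (by positivity)).const_mul _).const_mul _
    calc ∫ s in {s | η < |s|}, kW n s
        ≤ ∫ s in {s | η < |s|}, exp (-(η ^ 2 / 2) * n) * (√(n / π) *
            exp (-(n / 2 : ℝ) * s ^ 2)) := by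
          apply setIntegral_mono_on (kW_integrable hn).integrableOn hint.integrableOn hV
          intro s hs
          have hs' : η < |s| := hs
          have h1 : η ^ 2 ≤ s ^ 2 := by
            rw [← sq_abs s]
            exact pow_le_pow_left₀ hη.le hs'.le 2
          have h2 : exp (-(n * s ^ 2)) ≤ exp (-(η ^ 2 / 2) * n) * exp (-(n / 2 : ℝ) * s ^ 2) := by
            rw [← exp_add, exp_le_exp]
            nlinarith
          calc kW n s = √(n / π) * exp (-(n * s ^ 2)) := rfl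
            _ ≤ √(n / π) * (exp (-(η ^ 2 / 2) * n) * exp (-(n / 2 : ℝ) * s ^ 2)) :=
                mul_le_mul_of_nonneg_left h2 (sqrt_nonneg _)
            _ = _ := by ring
      _ ≤ ∫ s, exp (-(η ^ 2 / 2) * n) * (√(n / π) * exp (-(n / 2 : ℝ) * s ^ 2)) := by
          apply setIntegral_le_integral hint
          exact Eventually.of_forall fun s => by positivity
      _ = √2 * exp (-(η ^ 2 / 2) * n) := by
          rw [integral_const_mul, integral_const_mul, integral_gaussian,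
            ← sqrt_mul (by positivity)]
          have : (n : ℝ) / π * (π / (n / 2)) = 2 := by
            field_simp
          rw [this, mul_comm]
  have hlim : Tendsto (fun n : ℕ => √2 * exp (-(η ^ 2 / 2) * n)) atTop (𝓝 0) := by
    have h1 : Tendsto (fun n : ℕ => -(η ^ 2 / 2) * (n : ℝ)) atTop atBot :=
      Tendsto.const_mul_atTop_of_neg (by
        have : 0 < η ^ 2 := by positivity
        linarith) tendsto_natCast_atTop_atTop
    have h2 := (tendsto_exp_atBot.comp h1).const_mul (√2)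
    simpa using h2
  apply tendsto_of_tendsto_of_tendsto_of_le_of_le' tendsto_const_nhds hlim _ hbd
  apply Eventually.of_forall
  intro n
  exact integral_nonneg fun s => kW_nonneg n s

lemma kW_low (A : ℝ) : ∃ c > 0, ∀ᶠ n : ℕ in atTop, ∀ s, |s| ≤ A * (1 / √n) →
    c / (1 / √n) ≤ kW n s := by
  refine ⟨exp (-A ^ 2) / √π, by positivity, ?_⟩
  filter_upwards [eventually_gt_atTop 0] with n hn
  have hn' : (0 : ℝ) < n := by exact_mod_cast hn
  intro s hs
  have hsq : √(n : ℝ) ^ 2 = n := sq_sqrt hn'.le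
  have hsp : 0 < √(n : ℝ) := sqrt_pos.mpr hn'
  have h1 : n * s ^ 2 ≤ A ^ 2 := by
    have h2 : |s| * √n ≤ A := by
      rw [mul_one_div, le_div_iff₀ hsp] at hs
      exact hs
    have h3 : (|s| * √n) ^ 2 ≤ A ^ 2 := pow_le_pow_left₀ (by positivity) h2 2
    rw [mul_pow, sq_abs, hsq] at h3
    linarith
  have h4 : exp (-A ^ 2) ≤ exp (-(n * s ^ 2)) := by
    rw [exp_le_exp]
    linarith
  rw [kW, sqrt_div hn'.le, div_div_eq_mul_div, div_one]
  calc exp (-A ^ 2) / √π * √n = √n / √π * exp (-A ^ 2) := by ring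
    _ ≤ √n / √π * exp (-(n * s ^ 2)) := mul_le_mul_of_nonneg_left h4 (by positivity)

lemma sigma_pos : ∀ᶠ n : ℕ in atTop, (0 : ℝ) < 1 / √n := by
  filter_upwards [eventually_gt_atTop 0] with n hn
  have hn' : (0 : ℝ) < n := by exact_mod_cast hn
  positivity

lemma sigma_tendsto : Tendsto (fun n : ℕ => 1 / √(n : ℝ)) atTop (𝓝 0) := by
  have h1 : Tendsto (fun n : ℕ => √(n : ℝ)) atTop atTop :=
    tendsto_sqrt_atTop.comp tendsto_natCast_atTop_atTop
  refine h1.inv_tendsto_atTop.congr fun n => ?_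
  rw [Pi.inv_apply, one_div]

lemma rate_conv {l : Filter ℕ} (hl : ∀ᶠ n : ℕ in l, (0 : ℝ) < 1 / √n) {q : ℕ → ℝ} {C : ℝ}
    (h : ∃ᶠ n : ℕ in l, √(n : ℝ) * q n ≤ C) : ∃ᶠ n : ℕ in l, q n ≤ C * (1 / √(n : ℝ)) := by
  refine (h.and_eventually hl).mono ?_
  rintro n ⟨h1, h2⟩
  have h3 : 0 < √(n : ℝ) := one_div_pos.mp h2
  rw [mul_one_div, le_div_iff₀ h3]
  linarith

/-- Gauss-Weierstrass: rate `O(n^{-1/2})` along a subsequence forces continuity -/
theorem continuous_of_W {α : ℝ} (hα : 0 < α) {f : ℝ → ℝ} (hf : AEMeasurable f) {B : ℝ}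
    (hB : ∀ t, |f t| ≤ B) {C : ℝ} (h : ∃ᶠ n : ℕ in atTop, √n * r α f (W n f) ≤ C) :
    Continuous f := by
  apply continuous_of_rate (l := atTop) (k := kW) (σ := fun n : ℕ => 1 / √n) sigma_pos
    sigma_tendsto (Eventually.of_forall kW_nonneg) _ _ (fun η hη => kW_tail hη) kW_low hα hf hB
    (C := C)
  · have := rate_conv sigma_pos h
    simpa only [W_eq] using this
  · filter_upwards [eventually_gt_atTop 0] with n hn using kW_integrable hn
  · filter_upwards [eventually_gt_atTop 0] with n hn using kW_integral hn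

/-! ### the Poisson kernel -/

/-- the Poisson kernel, cut off outside `(-π, π]` -/
noncomputable def kP (ρ : ℝ) : ℝ → ℝ :=
  (Ioc (-π) π).indicator fun s => 1 / (2 * π) * ((1 - ρ ^ 2) / (1 + ρ ^ 2 - 2 * ρ * cos s))

lemma P_eq (ρ : ℝ) (f : ℝ → ℝ) : P ρ f = fun x => ∫ s, f (x + s) * kP ρ s := by
  funext x
  rw [P, intervalIntegral.integral_of_le (by linarith [pi_pos]), ← integral_const_mul,
    ← integral_indicator measurableSet_Ioc]
  congr 1
  funext s
  rw [kP]
  by_cases hs : s ∈ Ioc (-π) π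
  · rw [indicator_of_mem hs, indicator_of_mem hs]
    ring
  · rw [indicator_of_notMem hs, indicator_of_notMem hs, mul_zero]

lemma den_pos {ρ : ℝ} (h0 : 0 < ρ) (h1 : ρ < 1) (s : ℝ) : 0 < 1 + ρ ^ 2 - 2 * ρ * cos s := by
  have h2 := cos_le_one s
  nlinarith [mul_le_mul_of_nonneg_left h2 h0.le, sq_pos_of_pos (sub_pos.mpr h1)]

lemma kP_nonneg {ρ : ℝ} (h0 : 0 < ρ) (h1 : ρ < 1) (s : ℝ) : 0 ≤ kP ρ s := by
  apply indicator_nonneg
  intro t _
  have h2 : 0 ≤ 1 - ρ ^ 2 := by nlinarith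
  have h3 := den_pos h0 h1 t
  have := pi_pos
  positivity

lemma kP_cont {ρ : ℝ} (h0 : 0 < ρ) (h1 : ρ < 1) :
    Continuous fun s => 1 / (2 * π) * ((1 - ρ ^ 2) / (1 + ρ ^ 2 - 2 * ρ * cos s)) := by
  apply Continuous.mul continuous_const
  apply Continuous.div continuous_const (by fun_prop)
  intro s
  exact (den_pos h0 h1 s).ne'

lemma kP_integrable {ρ : ℝ} (h0 : 0 < ρ) (h1 : ρ < 1) : Integrable (kP ρ) := by
  rw [kP, integrable_indicator_iff measurableSet_Ioc]
  exact ((kP_cont h0 h1).integrableOn_Icc (a := -π) (b := π)).mono_set Ioc_subset_Icc_self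

lemma kP_integral {ρ : ℝ} (h0 : 0 < ρ) (h1 : ρ < 1) : ∫ s, kP ρ s = 1 := by
  rw [kP, integral_indicator measurableSet_Ioc, ← intervalIntegral.integral_of_le
    (by linarith [pi_pos])]
  set F : ℝ → ℝ := fun s => 1 / (2 * π) * ((1 - ρ ^ 2) / (1 + ρ ^ 2 - 2 * ρ * cos s)) with hF
  have hper : Function.Periodic F (2 * π) := by
    intro s
    simp only [hF, cos_add_two_pi]
  have h2 : ∫ s in (-π)..π, F s = ∫ s in (0 : ℝ)..2 * π, F s := by
    have := hper.intervalIntegral_add_eq (-π) 0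
    rw [zero_add] at this
    rw [← this]
    congr 1
    ring
  rw [h2]
  have hw : (ρ : ℂ) ∈ Metric.ball (0 : ℂ) 1 := by
    rw [Metric.mem_ball, dist_zero_right, Complex.norm_real, Real.norm_eq_abs, abs_of_pos h0]
    exact h1
  have hh : InnerProductSpace.HarmonicOnNhd (fun _ : ℂ => (1 : ℝ))
      (Metric.closedBall (0 : ℂ) 1) := by simp
  have h3 := hh.circleAverage_poissonKernel_smul hw
  rw [circleAverage_def] at h3
  rw [← intervalIntegral.integral_smul] at h3
  rw [← h3]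
  congr 1
  funext θ
  simp only [hF, Pi.smul_apply', smul_eq_mul, mul_one, poissonKernel_def, sub_zero]
  have e1 : ‖circleMap 0 1 θ‖ = 1 := by simp
  have e2 : ‖(ρ : ℂ)‖ = ρ := by
    rw [Complex.norm_real, Real.norm_eq_abs, abs_of_pos h0]
  have e3 : ‖circleMap 0 1 θ - (ρ : ℂ)‖ ^ 2 = 1 + ρ ^ 2 - 2 * ρ * cos θ := by
    rw [← Complex.normSq_eq_norm_sq, Complex.normSq_apply]
    have e4 : (circleMap 0 1 θ - (ρ : ℂ)).re = cos θ - ρ := by
      simp [circleMap, Complex.exp_ofReal_mul_I_re]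
    have e5 : (circleMap 0 1 θ - (ρ : ℂ)).im = sin θ := by
      simp [circleMap, Complex.exp_ofReal_mul_I_im]
    rw [e4, e5]
    nlinarith [sin_sq_add_cos_sq θ]
  rw [e1, e2, e3, one_pow, one_div]

lemma tail_mono {k : ℝ → ℝ} (hk0 : ∀ s, 0 ≤ k s) (hki : Integrable k) {η η' : ℝ} (h : η' ≤ η) :
    ∫ s in {s | η < |s|}, k s ≤ ∫ s in {s | η' < |s|}, k s := by
  apply setIntegral_mono_set hki.integrableOn
  · exact Eventually.of_forall fun s => hk0 s
  · have hsub : {s : ℝ | η < |s|} ⊆ {s | η' < |s|} := fun s (hs : η < |s|) => lt_of_le_of_lt h hs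
    exact hsub.eventuallyLE

/-- tail bound for a kernel vanishing outside `(-π, π]` -/
lemma tail_le {k : ℝ → ℝ} (hk0 : ∀ s, 0 ≤ k s) (hki : Integrable k)
    (hsupp : ∀ s, s ∉ Ioc (-π) π → k s = 0) {η b : ℝ} (hb : 0 ≤ b)
    (h : ∀ s, min η 1 ≤ |s| → |s| ≤ π → k s ≤ b) :
    ∫ s in {s | η < |s|}, k s ≤ 2 * π * b := by
  have hV : MeasurableSet {s : ℝ | min η 1 < |s|} :=
    measurableSet_lt measurable_const measurable_id.abs
  have hint : Integrable ((Ioc (-π) π).indicator fun _ => b) := by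
    rw [integrable_indicator_iff measurableSet_Ioc]
    exact integrableOn_const measure_Ioc_lt_top.ne
  calc ∫ s in {s | η < |s|}, k s ≤ ∫ s in {s | min η 1 < |s|}, k s :=
        tail_mono hk0 hki (min_le_left _ _)
    _ ≤ ∫ s in {s | min η 1 < |s|}, (Ioc (-π) π).indicator (fun _ => b) s := by
        apply setIntegral_mono_on hki.integrableOn hint.integrableOn hV
        intro s hs
        by_cases hs2 : s ∈ Ioc (-π) π
        · rw [indicator_of_mem hs2]
          exact h s (le_of_lt hs) (abs_le.mpr ⟨hs2.1.le, hs2.2⟩)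
        · rw [indicator_of_notMem hs2, hsupp s hs2]
    _ ≤ ∫ s, (Ioc (-π) π).indicator (fun _ => b) s := by
        apply setIntegral_le_integral hint
        exact Eventually.of_forall fun s => indicator_nonneg (fun _ _ => hb) s
    _ = 2 * π * b := by
        rw [integral_indicator measurableSet_Ioc, setIntegral_const, smul_eq_mul,
          Real.volume_real_Ioc_of_le (by linarith [pi_pos])]
        ring

lemma near_one : ∀ᶠ ρ : ℝ in 𝓝[<] 1, 1 / 2 < ρ ∧ ρ < 1 := by
  have h1 : ∀ᶠ ρ : ℝ in 𝓝[<] 1, ρ < 1 := eventually_mem_nhdsWithin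
  have h2 : ∀ᶠ ρ : ℝ in 𝓝[<] 1, 1 / 2 < ρ :=
    eventually_nhdsWithin_of_eventually_nhds (lt_mem_nhds (by norm_num))
  exact h2.and h1

lemma sigmaP_tendsto : Tendsto (fun ρ : ℝ => 1 - ρ) (𝓝[<] 1) (𝓝 0) := by
  have h : Tendsto (fun ρ : ℝ => 1 - ρ) (𝓝 1) (𝓝 (1 - 1)) := by
    apply Continuous.tendsto
    fun_prop
  rw [sub_self] at h
  exact h.mono_left nhdsWithin_le_nhds

lemma kP_tail {η : ℝ} (hη : 0 < η) :
    Tendsto (fun ρ : ℝ => ∫ s in {s | η < |s|}, kP ρ s) (𝓝[<] 1) (𝓝 0) := by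
  set η' : ℝ := min η 1 with hη'
  have hη0 : 0 < η' := lt_min hη one_pos
  have hη1 : η' ≤ 1 := min_le_right _ _
  set q : ℝ := 1 - cos η' with hq
  have hq0 : 0 < q := by
    have h1 : cos η' < cos 0 :=
      cos_lt_cos_of_nonneg_of_le_pi le_rfl (by linarith [pi_gt_three]) hη0
    rw [cos_zero] at h1
    linarith
  have hbd : ∀ᶠ ρ : ℝ in 𝓝[<] 1,
      ∫ s in {s | η < |s|}, kP ρ s ≤ 2 * π * (1 / (2 * π) * (2 * (1 - ρ) / q)) := by
    filter_upwards [near_one] with ρ hρ
    have h0 : 0 < ρ := by linarith [hρ.1]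
    apply tail_le (kP_nonneg h0 hρ.2) (kP_integrable h0 hρ.2)
    · intro s hs
      exact indicator_of_notMem hs _
    · have : 0 < 1 - ρ := by linarith [hρ.2]
      positivity
    · intro s hs1 hs2
      by_cases hs : s ∈ Ioc (-π) π
      · rw [kP, indicator_of_mem hs]
        apply mul_le_mul_of_nonneg_left _ (by positivity)
        have h2 : cos s ≤ cos η' := by
          rw [← cos_abs s]
          exact cos_le_cos_of_nonneg_of_le_pi hη0.le hs2 hs1
        apply div_le_div₀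
        · linarith [hρ.2]
        · nlinarith [hρ.1, hρ.2]
        · exact hq0
        · nlinarith [hρ.1, hρ.2, sq_nonneg (1 - ρ)]
      · rw [kP, indicator_of_notMem hs]
        have : 0 < 1 - ρ := by linarith [hρ.2]
        positivity
  have hlim : Tendsto (fun ρ : ℝ => 2 * π * (1 / (2 * π) * (2 * (1 - ρ) / q))) (𝓝[<] 1)
      (𝓝 0) := by
    have h1 := sigmaP_tendsto.const_mul (2 * π * (1 / (2 * π)) * 2 / q)
    rw [mul_zero] at h1
    refine h1.congr fun ρ => ?_
    ring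
  apply tendsto_of_tendsto_of_tendsto_of_le_of_le' tendsto_const_nhds hlim _ hbd
  filter_upwards [near_one] with ρ hρ
  exact integral_nonneg fun s => kP_nonneg (by linarith [hρ.1]) hρ.2 s

lemma mem_Ioc_of_abs {s : ℝ} (h : |s| < π) : s ∈ Ioc (-π) π :=
  ⟨(abs_lt.mp h).1, (abs_lt.mp h).2.le⟩

lemma kP_low (A : ℝ) : ∃ c > 0, ∀ᶠ ρ : ℝ in 𝓝[<] 1, ∀ s, |s| ≤ A * (1 - ρ) →
    c / (1 - ρ) ≤ kP ρ s := by
  have hπ := pi_pos
  refine ⟨1 / (2 * π) * (1 / (1 + A ^ 2)), by positivity, ?_⟩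
  have h1 : ∀ᶠ ρ : ℝ in 𝓝[<] 1, A * (1 - ρ) < π := by
    have := sigmaP_tendsto.const_mul A
    rw [mul_zero] at this
    exact this.eventually_lt_const pi_pos
  filter_upwards [near_one, h1] with ρ hρ hA s hs
  have h0 : 0 < ρ := by linarith [hρ.1]
  have hσ : 0 < 1 - ρ := by linarith [hρ.2]
  rw [kP, indicator_of_mem (mem_Ioc_of_abs (lt_of_le_of_lt hs hA)), mul_div_assoc, div_div]
  apply mul_le_mul_of_nonneg_left _ (by positivity)
  have hD := den_pos h0 hρ.2 s
  rw [div_le_div_iff₀ (by positivity) hD]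
  have h2 : s ^ 2 ≤ A ^ 2 * (1 - ρ) ^ 2 := by
    rw [← sq_abs s, ← mul_pow]
    exact pow_le_pow_left₀ (abs_nonneg s) hs 2
  have h3 := one_sub_sq_div_two_le_cos (x := s)
  have h4 : 1 + ρ ^ 2 - 2 * ρ * cos s ≤ (1 + A ^ 2) * (1 - ρ) ^ 2 := by
    have h5 : 2 * ρ * (1 - cos s) ≤ 2 * ρ * (s ^ 2 / 2) :=
      mul_le_mul_of_nonneg_left (by linarith) (by linarith)
    have h6 : ρ * s ^ 2 ≤ 1 * s ^ 2 := mul_le_mul_of_nonneg_right hρ.2.le (sq_nonneg s)
    nlinarith
  have h7 : (1 + A ^ 2) * (1 - ρ) ^ 2 ≤ (1 - ρ ^ 2) * ((1 + A ^ 2) * (1 - ρ)) := by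
    have h8 : 0 ≤ (1 + A ^ 2) * (1 - ρ) ^ 2 * ρ := by positivity
    nlinarith
  linarith

/-- Poisson: rate `O(1 - ρ)` along a sequence forces continuity -/
theorem continuous_of_P {α : ℝ} (hα : 0 < α) {f : ℝ → ℝ} (hf : AEMeasurable f) {B : ℝ}
    (hB : ∀ t, |f t| ≤ B) {C : ℝ} (h : ∃ᶠ ρ : ℝ in 𝓝[<] 1, r α f (P ρ f) / (1 - ρ) ≤ C) :
    Continuous f := by
  apply continuous_of_rate (l := 𝓝[<] 1) (k := kP) (σ := fun ρ : ℝ => 1 - ρ) _
    sigmaP_tendsto _ _ _ (fun η hη => kP_tail hη) kP_low hα hf hB (C := C)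
  · refine (h.and_eventually near_one).mono ?_
    rintro ρ ⟨h1, h2⟩
    rw [← P_eq]
    rw [div_le_iff₀ (by linarith [h2.2])] at h1
    exact h1
  · filter_upwards [near_one] with ρ hρ
    linarith [hρ.2]
  · filter_upwards [near_one] with ρ hρ using kP_nonneg (by linarith [hρ.1]) hρ.2
  · filter_upwards [near_one] with ρ hρ using kP_integrable (by linarith [hρ.1]) hρ.2
  · filter_upwards [near_one] with ρ hρ using kP_integral (by linarith [hρ.1]) hρ.2

/-! ### the de la Vallée-Poussin kernel -/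

/-- `4^n / binom(2n, n)` -/
noncomputable def av (n : ℕ) : ℝ := 4 ^ n / (n.centralBinom : ℝ)

lemma cb_pos (n : ℕ) : (0 : ℝ) < (n.centralBinom : ℝ) := by exact_mod_cast n.centralBinom_pos

lemma av_pos (n : ℕ) : 0 < av n := div_pos (by positivity) (cb_pos n)

lemma av_le {n : ℕ} (hn : 0 < n) : av n ≤ 2 * n := by
  rw [av, div_le_iff₀ (cb_pos n)]
  exact_mod_cast Nat.four_pow_le_two_mul_self_mul_centralBinom n hn

lemma cb_sq (n : ℕ) : n.centralBinom ^ 2 * (2 * n + 1) ≤ 16 ^ n := by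
  induction n with
  | zero => simp
  | succ n ih =>
    have h1 := Nat.succ_mul_centralBinom_succ n
    have h2 : (n + 1) ^ 2 * ((n + 1).centralBinom ^ 2 * (2 * (n + 1) + 1)) ≤
        (n + 1) ^ 2 * 16 ^ (n + 1) := by
      calc (n + 1) ^ 2 * ((n + 1).centralBinom ^ 2 * (2 * (n + 1) + 1))
          = ((n + 1) * (n + 1).centralBinom) ^ 2 * (2 * n + 3) := by ring
        _ = (4 * (2 * n + 1) * (2 * n + 3)) * (n.centralBinom ^ 2 * (2 * n + 1)) := by
            rw [h1]; ring
        _ ≤ (16 * (n + 1) ^ 2) * 16 ^ n := by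
            apply Nat.mul_le_mul _ ih
            nlinarith
        _ = (n + 1) ^ 2 * 16 ^ (n + 1) := by ring
    exact Nat.le_of_mul_le_mul_left h2 (by positivity)

lemma av_ge (n : ℕ) : √(n : ℝ) ≤ av n := by
  rw [av, le_div_iff₀ (cb_pos n)]
  apply le_of_sq_le_sq _ (by positivity)
  rw [mul_pow, sq_sqrt (Nat.cast_nonneg n)]
  have h1 : ((n.centralBinom ^ 2 * (2 * n + 1) : ℕ) : ℝ) ≤ ((16 ^ n : ℕ) : ℝ) := by
    exact_mod_cast cb_sq n
  push_cast at h1
  have h2 : ((4 : ℝ) ^ n) ^ 2 = 16 ^ n := by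
    rw [← pow_mul, mul_comm, pow_mul]
    norm_num
  rw [h2]
  have h3 : 0 ≤ (n.centralBinom : ℝ) ^ 2 * ((n : ℝ) + 1) := by positivity
  nlinarith

lemma fact_eq (n : ℕ) : (n.factorial : ℝ) ^ 2 / ((2 * n).factorial : ℝ) * 4 ^ n = av n := by
  have h1 : ((2 * n).factorial : ℝ) = n.centralBinom * (n.factorial : ℝ) ^ 2 := by
    have h2 := Nat.choose_mul_factorial_mul_factorial (n := 2 * n) (k := n) (by omega)
    have h3 : 2 * n - n = n := by omega
    rw [h3] at h2
    have h4 : (2 * n).choose n = n.centralBinom := rfl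
    rw [h4] at h2
    rw [← h2]
    push_cast
    ring
  rw [h1, av]
  have := cb_pos n
  have h5 : (0 : ℝ) < (n.factorial : ℝ) := by exact_mod_cast n.factorial_pos
  field_simp

/-- the de la Vallée-Poussin kernel, cut off outside `(-π, π]` -/
noncomputable def kV (n : ℕ) : ℝ → ℝ :=
  (Ioc (-π) π).indicator fun s => av n * (1 / (2 * π)) * cos (s / 2) ^ (2 * n)

lemma V_eq (n : ℕ) (f : ℝ → ℝ) : V n f = fun x => ∫ s, f (x + s) * kV n s := by
  funext x
  rw [V, intervalIntegral.integral_of_le (by linarith [pi_pos]), ← integral_const_mul,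
    ← integral_indicator measurableSet_Ioc]
  congr 1
  funext s
  rw [kV]
  by_cases hs : s ∈ Ioc (-π) π
  · rw [indicator_of_mem hs, indicator_of_mem hs, ← fact_eq]
    have : (2 * cos (s / 2)) ^ (2 * n) = 4 ^ n * cos (s / 2) ^ (2 * n) := by
      rw [mul_pow, pow_mul]
      norm_num
    rw [this]
    ring
  · rw [indicator_of_notMem hs, indicator_of_notMem hs, mul_zero]

lemma kV_nonneg (n : ℕ) (s : ℝ) : 0 ≤ kV n s := by
  apply indicator_nonneg
  intro t _
  have h1 := av_pos n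
  have h2 : 0 ≤ cos (t / 2) ^ (2 * n) := by
    rw [pow_mul]
    positivity
  have := pi_pos
  positivity

lemma kV_integrable (n : ℕ) : Integrable (kV n) := by
  rw [kV, integrable_indicator_iff measurableSet_Ioc]
  have : Continuous fun s => av n * (1 / (2 * π)) * cos (s / 2) ^ (2 * n) := by fun_prop
  exact (this.integrableOn_Icc (a := -π) (b := π)).mono_set Ioc_subset_Icc_self

lemma prod_eq (n : ℕ) :
    ∏ i ∈ Finset.range n, (2 * (i : ℝ) + 1) / (2 * i + 2) = (av n)⁻¹ := by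
  induction n with
  | zero => simp [av]
  | succ n ih =>
    rw [Finset.prod_range_succ, ih, av, av]
    have h1 : ((n : ℝ) + 1) * ((n + 1).centralBinom : ℝ) = 2 * (2 * n + 1) * n.centralBinom := by
      exact_mod_cast Nat.succ_mul_centralBinom_succ n
    have h2 := cb_pos n
    have h3 := cb_pos (n + 1)
    have h4 : (0 : ℝ) < (n : ℝ) + 1 := by positivity
    field_simp
    rw [pow_succ]
    linear_combination (-2 * 4 ^ n) * h1

lemma kV_integral (n : ℕ) : ∫ s, kV n s = 1 := by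
  rw [kV, integral_indicator measurableSet_Ioc, ← intervalIntegral.integral_of_le
    (by linarith [pi_pos]), intervalIntegral.integral_const_mul]
  have h1 : ∫ s in (-π)..π, cos (s / 2) ^ (2 * n) = 2 * (π * (av n)⁻¹) := by
    have h2 := intervalIntegral.integral_comp_div (a := -π) (b := π)
      (fun u => cos u ^ (2 * n)) (two_ne_zero)
    rw [h2, smul_eq_mul]
    congr 1
    have h3 : ∫ x in (-π / 2)..(π / 2), cos x ^ (2 * n) =
        ∫ x in (-π / 2)..(π / 2), sin (x + π / 2) ^ (2 * n) := by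
      congr 1
      funext x
      rw [sin_add_pi_div_two]
    rw [h3, intervalIntegral.integral_comp_add_right (fun x => sin x ^ (2 * n))]
    have e1 : -π / 2 + π / 2 = 0 := by ring
    have e2 : π / 2 + π / 2 = π := by ring
    rw [e1, e2, integral_sin_pow_even, prod_eq]
  rw [h1]
  have := av_pos n
  have := pi_pos
  field_simp

lemma kV_tail {η : ℝ} (hη : 0 < η) :
    Tendsto (fun n : ℕ => ∫ s in {s | η < |s|}, kV n s) atTop (𝓝 0) := by
  set η' : ℝ := min η 1 with hη'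
  have hη0 : 0 < η' := lt_min hη one_pos
  have hη1 : η' ≤ 1 := min_le_right _ _
  set q : ℝ := cos (η' / 2) ^ 2 with hq
  have hc0 : 0 ≤ cos (η' / 2) :=
    cos_nonneg_of_neg_pi_div_two_le_of_le (by linarith [pi_gt_three]) (by linarith [pi_gt_three])
  have hc1 : cos (η' / 2) < 1 := by
    have h1 : cos (η' / 2) < cos 0 :=
      cos_lt_cos_of_nonneg_of_le_pi le_rfl (by linarith [pi_gt_three]) (by linarith)
    rwa [cos_zero] at h1
  have hq0 : 0 ≤ q := by positivity
  have hq1 : q < 1 := by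
    rw [hq]
    nlinarith
  have hbd : ∀ᶠ n : ℕ in atTop,
      ∫ s in {s | η < |s|}, kV n s ≤ 2 * π * (2 * n * (1 / (2 * π)) * q ^ n) := by
    filter_upwards [eventually_gt_atTop 0] with n hn
    have hπ := pi_pos
    apply tail_le (kV_nonneg n) (kV_integrable n)
    · intro s hs
      exact indicator_of_notMem hs _
    · positivity
    · intro s hs1 hs2
      by_cases hs : s ∈ Ioc (-π) π
      · rw [kV, indicator_of_mem hs]
        have h2 : cos (s / 2) ≤ cos (η' / 2) := by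
          rw [← cos_abs (s / 2), abs_div, abs_two]
          exact cos_le_cos_of_nonneg_of_le_pi (by linarith) (by linarith) (by linarith)
        have h3 : 0 ≤ cos (s / 2) :=
          cos_nonneg_of_neg_pi_div_two_le_of_le (by linarith [hs.1]) (by linarith [hs.2])
        have h4 : cos (s / 2) ^ (2 * n) ≤ q ^ n := by
          rw [hq, ← pow_mul]
          exact pow_le_pow_left₀ h3 h2 _
        apply mul_le_mul _ h4 (by positivity) (by positivity)
        exact mul_le_mul_of_nonneg_right (av_le hn) (by positivity)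
      · rw [kV, indicator_of_notMem hs]
        positivity
  have hlim : Tendsto (fun n : ℕ => 2 * π * (2 * n * (1 / (2 * π)) * q ^ n)) atTop (𝓝 0) := by
    have h1 := (tendsto_self_mul_const_pow_of_lt_one hq0 hq1).const_mul
      (2 * π * (2 * (1 / (2 * π))))
    rw [mul_zero] at h1
    refine h1.congr fun n => ?_
    ring
  apply tendsto_of_tendsto_of_tendsto_of_le_of_le' tendsto_const_nhds hlim _ hbd
  apply Eventually.of_forall
  intro n
  exact integral_nonneg fun s => kV_nonneg n s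

lemma kV_low (A : ℝ) : ∃ c > 0, ∀ᶠ n : ℕ in atTop, ∀ s, |s| ≤ A * (1 / √n) →
    c / (1 / √n) ≤ kV n s := by
  have hπ := pi_pos
  refine ⟨exp (-(A ^ 2 / 2)) * (1 / (2 * π)), by positivity, ?_⟩
  have h1 : ∀ᶠ n : ℕ in atTop, A * (1 / √(n : ℝ)) < 2 := by
    have := sigma_tendsto.const_mul A
    rw [mul_zero] at this
    exact this.eventually_lt_const two_pos
  filter_upwards [eventually_gt_atTop 0, h1] with n hn hA s hs
  have hn' : (0 : ℝ) < n := by exact_mod_cast hn
  have hsq : √(n : ℝ) ^ 2 = n := sq_sqrt hn'.le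
  have hsp : 0 < √(n : ℝ) := sqrt_pos.mpr hn'
  have hs2 : |s| < 2 := lt_of_le_of_lt hs hA
  rw [kV, indicator_of_mem (mem_Ioc_of_abs (by linarith [pi_gt_three])), div_div_eq_mul_div,
    div_one]
  have h2 : n * s ^ 2 ≤ A ^ 2 := by
    have h2 : |s| * √n ≤ A := by
      rw [mul_one_div, le_div_iff₀ hsp] at hs
      exact hs
    have h3 : (|s| * √n) ^ 2 ≤ A ^ 2 := pow_le_pow_left₀ (by positivity) h2 2
    rw [mul_pow, sq_abs, hsq] at h3
    linarith
  -- the cosine is at least `exp (- s^2 / 4)`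
  have hx : s ^ 2 / 8 ≤ 1 / 2 := by
    have : s ^ 2 < 4 := by
      rw [← sq_abs]
      nlinarith [abs_nonneg s]
    linarith
  have h4 : exp (-(s ^ 2 / 4)) ≤ cos (s / 2) := by
    have h5 := one_sub_sq_div_two_le_cos (x := s / 2)
    have h6 : s ^ 2 / 4 + 1 ≤ exp (s ^ 2 / 4) := add_one_le_exp _
    have h7 : exp (-(s ^ 2 / 4)) ≤ (s ^ 2 / 4 + 1)⁻¹ := by
      rw [exp_neg]
      exact inv_anti₀ (by positivity) h6
    have h8 : (s ^ 2 / 4 + 1)⁻¹ ≤ 1 - s ^ 2 / 8 := by
      rw [inv_le_comm₀ (by positivity) (by linarith)]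
      rw [inv_le_iff_one_le_mul₀ (by linarith)]
      nlinarith [sq_nonneg s]
    nlinarith
  have h9 : exp (-(A ^ 2 / 2)) ≤ cos (s / 2) ^ (2 * n) := by
    calc exp (-(A ^ 2 / 2)) ≤ exp (-(s ^ 2 / 4)) ^ (2 * n) := by
          rw [← exp_nat_mul, exp_le_exp]
          push_cast
          nlinarith
      _ ≤ cos (s / 2) ^ (2 * n) := pow_le_pow_left₀ (exp_pos _).le h4 _
  calc exp (-(A ^ 2 / 2)) * (1 / (2 * π)) * √n = √n * (1 / (2 * π)) * exp (-(A ^ 2 / 2)) := by ring
    _ ≤ av n * (1 / (2 * π)) * cos (s / 2) ^ (2 * n) := by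
        apply mul_le_mul _ h9 (exp_pos _).le
        · have := av_pos n
          positivity
        · exact mul_le_mul_of_nonneg_right (av_ge n) (by positivity)

/-- de la Vallée-Poussin: rate `O(n^{-1/2})` along a subsequence forces continuity -/
theorem continuous_of_V {α : ℝ} (hα : 0 < α) {f : ℝ → ℝ} (hf : AEMeasurable f) {B : ℝ}
    (hB : ∀ t, |f t| ≤ B) {C : ℝ} (h : ∃ᶠ n : ℕ in atTop, √n * r α f (V n f) ≤ C) :
    Continuous f := by
  apply continuous_of_rate (l := atTop) (k := kV) (σ := fun n : ℕ => 1 / √n) sigma_pos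
    sigma_tendsto (Eventually.of_forall kV_nonneg) (Eventually.of_forall kV_integrable)
    (Eventually.of_forall kV_integral) (fun η hη => kV_tail hη) kV_low hα hf hB (C := C)
  have := rate_conv sigma_pos h
  simpa only [V_eq] using this

end Pool.Agent.R447.HKernel
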