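import Mathlib

set_option autoImplicit false

namespace Pool.Agent.R447.PrimePart

open Finset

/-- isolated primes -/
lemma isolated (J X : ℕ) : ∃ q : ℕ, q.Prime ∧ X < q ∧ J < q ∧
    ∀ i : ℕ, 0 < i → i ≤ J → ¬ (q + i).Prime ∧ ¬ (q - i).Prime := by
  obtain ⟨r, hrJ, hr⟩ := Nat.exists_infinite_primes (J + 3)
  set m : ℕ := (∏ i ∈ Finset.Icc 1 J, (r + i)) * (∏ i ∈ Finset.Icc 1 J, (r - i)) with hm
  have hpos : ∀ i ∈ Finset.Icc 1 J, r - i ≠ 0 := by
    intro i hi
    rw [Finset.mem_Icc] at hi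
    omega
  have hm0 : m ≠ 0 := by
    rw [hm]
    apply mul_ne_zero
    · exact Finset.prod_ne_zero_iff.mpr (fun i _ => by omega)
    · exact Finset.prod_ne_zero_iff.mpr hpos
  have hcop : Nat.Coprime r m := by
    rw [hm]
    apply Nat.Coprime.mul_right
    · apply Nat.Coprime.prod_right
      intro i hi
      rw [Finset.mem_Icc] at hi
      rw [hr.coprime_iff_not_dvd]
      intro hd
      have : r ∣ i := (Nat.dvd_add_right dvd_rfl).mp hd
      have := Nat.le_of_dvd (by omega) this
      omega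
    · apply Nat.Coprime.prod_right
      intro i hi
      rw [Finset.mem_Icc] at hi
      rw [hr.coprime_iff_not_dvd]
      intro hd
      have := Nat.le_of_dvd (by omega) hd
      omega
  have : NeZero m := ⟨hm0⟩
  have hu : IsUnit ((r : ℕ) : ZMod m) := (ZMod.isUnit_iff_coprime r m).mpr hcop
  obtain ⟨q, hq1, hq2, hq3⟩ := Nat.forall_exists_prime_gt_and_eq_mod hu (X + J + r + 3)
  refine ⟨q, hq2, by omega, by omega, ?_⟩
  have hmod : q ≡ r [MOD m] := (ZMod.natCast_eq_natCast_iff q r m).mp hq3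
  intro i hi0 hiJ
  have hiI : i ∈ Finset.Icc 1 J := Finset.mem_Icc.mpr ⟨hi0, hiJ⟩
  constructor
  · have hd : (r + i) ∣ m := by
      rw [hm]
      exact dvd_mul_of_dvd_left (Finset.dvd_prod_of_mem _ hiI) _
    have h1 : q ≡ r [MOD (r + i)] := hmod.of_dvd hd
    have h2 : q + i ≡ r + i [MOD (r + i)] := h1.add_right i
    have h3 : (r + i) ∣ q + i := (Nat.modEq_zero_iff_dvd).mp (h2.trans (by
      rw [Nat.modEq_zero_iff_dvd]))
    intro hp
    rcases (Nat.dvd_prime hp).mp h3 with h | h
    · omega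
    · omega
  · have hd : (r - i) ∣ m := by
      rw [hm]
      exact dvd_mul_of_dvd_right (Finset.dvd_prod_of_mem (fun i => r - i) hiI) _
    have h1 : q ≡ r [MOD (r - i)] := hmod.of_dvd hd
    have h3 : (r - i) ∣ q - i := by
      have h4 : (r - i) ∣ q - r := (Nat.modEq_iff_dvd' (by omega)).mp h1.symm
      have h5 : q - i = (q - r) + (r - i) := by omega
      rw [h5]
      exact dvd_add h4 dvd_rfl
    intro hp
    rcases (Nat.dvd_prime hp).mp h3 with h | h
    · omega
    · omega

lemma sum_le_prod (T : Finset ℕ) (hT : ∀ t ∈ T, 2 ≤ t) : ∑ t ∈ T, t ≤ ∏ t ∈ T, t := by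
  induction T using Finset.induction_on with
  | empty => simp
  | insert a s ha ih =>
    rw [Finset.sum_insert ha, Finset.prod_insert ha]
    have h1 := ih (fun t ht => hT t (Finset.mem_insert_of_mem ht))
    have h2 := hT a (Finset.mem_insert_self a s)
    have h3 : 1 ≤ ∏ t ∈ s, t := Finset.one_le_prod' (fun t ht => by
      have := hT t (Finset.mem_insert_of_mem ht)
      omega)
    rcases Nat.lt_or_ge (∏ t ∈ s, t) 2 with h4 | h4
    · -- product is one, so s is empty
      have h5 : s = ∅ := by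
        by_contra hne
        obtain ⟨t, ht⟩ := Finset.nonempty_iff_ne_empty.mpr hne
        have h6 : t ≤ ∑ t ∈ s, t := Finset.single_le_sum (f := fun t : ℕ => t) (fun _ _ => Nat.zero_le _) ht
        have h7 := hT t (Finset.mem_insert_of_mem ht)
        omega
      subst h5
      simp
    · nlinarith

/-- a number whose minimal-product representation has exactly `k` parts -/
def HasMin (k e : ℕ) (T0 : Finset ℕ) : Prop :=
  (∀ t ∈ T0, t.Prime) ∧ ∑ t ∈ T0, t = e ∧ T0.card = k ∧
    ∀ T : Finset ℕ, (∀ t ∈ T, t.Prime) → ∑ t ∈ T, t = e → ∏ t ∈ T0, t ≤ ∏ t ∈ T, t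

lemma hasMin_zero : HasMin 0 0 ∅ := by
  refine ⟨by simp, by simp, by simp, ?_⟩
  intro T hT _
  simp only [Finset.prod_empty]
  exact Finset.one_le_prod' (fun t ht => (hT t ht).one_lt.le)

lemma hasMin_succ (k e : ℕ) (T0 : Finset ℕ) (h : HasMin k e T0) (N : ℕ) :
    ∃ e' T0', N ≤ e' ∧ HasMin (k + 1) e' T0' := by
  classical
  obtain ⟨h1, h2, h3, h4⟩ := h
  set W := ∏ t ∈ T0, t with hW
  set J := 2 * W + e + 2 with hJ
  obtain ⟨q, hq, hqX, hqJ, hiso⟩ := isolated J (N + 4 * J * J + 4 * J + 4 * e)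
  have hJJ : J ≤ J * J := Nat.le_mul_self J
  have hqT0 : q ∉ T0 := by
    intro hmem
    have : q ≤ e := by
      rw [← h2]
      exact Finset.single_le_sum (f := fun t : ℕ => t) (fun _ _ => Nat.zero_le _) hmem
    omega
  refine ⟨q + e, insert q T0, by omega, ?_, ?_, ?_, ?_⟩
  · intro t ht
    rcases Finset.mem_insert.mp ht with rfl | ht
    · exact hq
    · exact h1 t ht
  · rw [Finset.sum_insert hqT0, h2]
  · rw [Finset.card_insert_of_notMem hqT0, h3]
  · intro T hT hsum
    rw [Finset.prod_insert hqT0, ← hW]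
    by_cases hqT : q ∈ T
    · have e1 := Finset.add_sum_erase T (fun t => t) hqT
      have e2 := Finset.mul_prod_erase T (fun t => t) hqT
      rw [← e2]
      apply Nat.mul_le_mul_left
      apply h4
      · intro t ht
        exact hT t (Finset.mem_of_mem_erase ht)
      · omega
    · -- all elements of T are at most q + e - J - 1
      have hbig : ∀ t ∈ T, t + J + 1 ≤ q + e := by
        intro t ht
        have htle : t ≤ q + e := by
          rw [← hsum]
          exact Finset.single_le_sum (f := fun t : ℕ => t) (fun _ _ => Nat.zero_le _) ht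
        by_contra hcon
        push Not at hcon
        have htp := hT t ht
        rcases Nat.lt_trichotomy t q with hlt | heq | hgt
        · have := (hiso (q - t) (by omega) (by omega)).2
          have h5 : q - (q - t) = t := by omega
          rw [h5] at this
          exact this htp
        · exact hqT (heq ▸ ht)
        · have := (hiso (t - q) (by omega) (by omega)).1
          have h5 : q + (t - q) = t := by omega
          rw [h5] at this
          exact this htp
      have hne : T.Nonempty := by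
        rw [Finset.nonempty_iff_ne_empty]
        rintro rfl
        simp only [Finset.sum_empty] at hsum
        have := hq.pos
        omega
      -- the largest element
      obtain ⟨t1, ht1, hmax⟩ := Finset.exists_max_image T (fun t => t) hne
      have e1 := Finset.add_sum_erase T (fun t => t) ht1
      have e2 := Finset.mul_prod_erase T (fun t => t) ht1
      have e3 := sum_le_prod (T.erase t1) (fun t ht => (hT t (Finset.mem_of_mem_erase ht)).two_le)
      have ht1J : J + 1 ≤ t1 := by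
        by_contra hcon
        push Not at hcon
        have hsub : T ⊆ Finset.range (J + 1) := by
          intro t ht
          have := hmax t ht
          rw [Finset.mem_range]
          omega
        have h5 : ∑ t ∈ T, t ≤ ∑ t ∈ Finset.range (J + 1), J := by
          refine le_trans (Finset.sum_le_sum_of_subset hsub) ?_
          apply Finset.sum_le_sum
          intro i hi
          have := Finset.mem_range.mp hi
          omega
        rw [Finset.sum_const, Finset.card_range, smul_eq_mul] at h5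
        have : (J + 1) * J = J * J + J := by ring
        have h4J : 4 * J * J = 4 * (J * J) := by ring
        omega
      have hb := hbig t1 ht1
      obtain ⟨y, hy⟩ : ∃ y, y = ∑ t ∈ T.erase t1, t := ⟨_, rfl⟩
      rw [← hy] at e1 e3
      rw [hsum] at e1
      rw [← e2]
      have h6 : t1 * y ≤ t1 * ∏ t ∈ T.erase t1, t := Nat.mul_le_mul_left _ e3
      refine le_trans ?_ h6
      -- t1, y ≥ J + 1 and t1 + y = q + e
      have hyJ : J + 1 ≤ y := by omega
      obtain ⟨a, rfl⟩ : ∃ a, t1 = J + 1 + a := Nat.exists_eq_add_of_le ht1J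
      obtain ⟨b, rfl⟩ : ∃ b, y = J + 1 + b := Nat.exists_eq_add_of_le hyJ
      have h7 : (J + 1 + a) * (J + 1 + b) = (J + 1) * (J + 1 + (a + b)) + a * b := by ring
      rw [h7]
      have h8 : q ≤ 2 * (J + 1 + (a + b)) := by omega
      have h9 : 2 * W ≤ J + 1 := by omega
      have h10 : q * W * 2 ≤ ((J + 1) * (J + 1 + (a + b))) * 2 := by
        calc q * W * 2 = q * (2 * W) := by ring
          _ ≤ (2 * (J + 1 + (a + b))) * (J + 1) := Nat.mul_le_mul h8 h9
          _ = _ := by ring
      omega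

lemma exists_hasMin (k : ℕ) : ∀ N : ℕ, ∃ e T0, N ≤ e ∧ HasMin (k + 1) e T0 := by
  induction k with
  | zero => intro N; exact hasMin_succ 0 0 ∅ hasMin_zero N
  | succ k ih =>
    intro N
    obtain ⟨e, T0, _, h⟩ := ih 0
    exact hasMin_succ (k + 1) e T0 h N

/-- the function `log x - x log P / P` -/
noncomputable def g (P x : ℝ) : ℝ := Real.log x - x / P * Real.log P

/-- the requirements on the prime `P` -/
def Big (K P : ℝ) : Prop :=
  16 ≤ P ∧ K ^ 4 ≤ P ∧ P ^ (-(1 / 4 : ℝ)) * Real.log P ≤ Real.log 2 ∧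
    2 * Real.log K + 2 ≤ Real.log P

lemma g_small {K P t : ℝ} (hB : Big K P) (ht : 2 ≤ t) (htP : t ≤ P / 2) :
    0 ≤ g P t := by
  obtain ⟨h16, hK4, hlog, _⟩ := hB
  have hP0 : 0 < P := by linarith
  have hlP : 0 ≤ Real.log P := Real.log_nonneg (by linarith)
  unfold g
  set x := t / P with hx
  have hx0 : 0 < x := by positivity
  have hx2 : x ≤ 1 / 2 := by
    rw [hx, div_le_iff₀ hP0]; linarith
  by_cases hc : x ≤ P ^ (-(1 / 4 : ℝ))
  · have h1 : Real.log 2 ≤ Real.log t := Real.log_le_log (by norm_num) ht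
    have h2 : x * Real.log P ≤ P ^ (-(1 / 4 : ℝ)) * Real.log P :=
      mul_le_mul_of_nonneg_right hc hlP
    linarith
  · push Not at hc
    have h1 : Real.log t = Real.log P + Real.log x := by
      rw [hx, Real.log_div (by linarith) hP0.ne']; ring
    have h2 : -(1 / 4 : ℝ) * Real.log P ≤ Real.log x := by
      rw [← Real.log_rpow hP0]
      exact Real.log_le_log (by positivity) hc.le
    rw [h1]
    nlinarith

lemma g_mid {K P t : ℝ} (hK : 1 ≤ K) (hB : Big K P) (ht : 2 * K ≤ t) (htP : t ≤ P / 2) :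
    Real.log K ≤ g P t := by
  obtain ⟨h16, hK4, hlog, _⟩ := hB
  have hP0 : 0 < P := by linarith
  have ht0 : 0 < t := by linarith
  have hlP : 0 ≤ Real.log P := Real.log_nonneg (by linarith)
  unfold g
  set x := t / P with hx
  have hx0 : 0 < x := by positivity
  have hx2 : x ≤ 1 / 2 := by
    rw [hx, div_le_iff₀ hP0]; linarith
  by_cases hc : x ≤ P ^ (-(1 / 4 : ℝ))
  · have h1 : Real.log (2 * K) ≤ Real.log t := Real.log_le_log (by linarith) ht
    rw [Real.log_mul (by norm_num) (by linarith)] at h1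
    have h2 : x * Real.log P ≤ P ^ (-(1 / 4 : ℝ)) * Real.log P :=
      mul_le_mul_of_nonneg_right hc hlP
    linarith
  · push Not at hc
    have h1 : Real.log t = Real.log P + Real.log x := by
      rw [hx, Real.log_div (by linarith) hP0.ne']; ring
    have h2 : -(1 / 4 : ℝ) * Real.log P ≤ Real.log x := by
      rw [← Real.log_rpow hP0]
      exact Real.log_le_log (by positivity) hc.le
    have h3 : 4 * Real.log K ≤ Real.log P := by
      have hK0 : 0 < K := by linarith
      have := Real.log_le_log (by positivity) hK4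
      rw [Real.log_pow] at this
      push_cast at this
      linarith
    rw [h1]
    nlinarith

lemma g_big {P t : ℝ} (hP : 16 ≤ P) (ht : P / 2 ≤ t) (htP : t ≤ P) :
    (1 - t / P) * (Real.log P - 2) ≤ g P t := by
  have hP0 : 0 < P := by linarith
  have ht0 : 0 < t := by linarith
  unfold g
  have h1 : Real.log t = Real.log P + Real.log (t / P) := by
    rw [Real.log_div ht0.ne' hP0.ne']; ring
  have h2 := Real.one_sub_inv_le_log_of_pos (show 0 < t / P by positivity)
  have h3 : -2 * (1 - t / P) ≤ 1 - (t / P)⁻¹ := by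
    have hx0 : 0 < t / P := by positivity
    have hx1 : t / P ≤ 1 := by rw [div_le_one hP0]; exact htP
    have hx2 : 1 / 2 ≤ t / P := by rw [le_div_iff₀ hP0]; linarith
    set x := t / P
    rw [← sub_nonneg]
    have : 1 - x⁻¹ - -2 * (1 - x) = (1 - x) * (2 * x - 1) / x := by field_simp; ring
    rw [this]
    apply div_nonneg _ hx0.le
    apply mul_nonneg <;> linarith
  rw [h1]
  linarith

lemma g_upper {P w : ℝ} (hP : 16 ≤ P) (hw : P ≤ w) :
    (w / P - 1) * (Real.log P - 2) ≤ -g P w := by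
  have hP0 : 0 < P := by linarith
  have hw0 : 0 < w := by linarith
  unfold g
  have h1 : Real.log w = Real.log P + Real.log (w / P) := by
    rw [Real.log_div hw0.ne' hP0.ne']; ring
  have h2 := Real.log_le_sub_one_of_pos (show 0 < w / P by positivity)
  have h3 : 1 ≤ w / P := by rw [one_le_div hP0]; exact hw
  rw [h1]
  nlinarith

/-- The key inequality. -/
lemma exchange {K P G e : ℕ} (hK : 1 ≤ K) (hB : Big K P) (hG : 4 * K ^ 2 < G) (he : 2 * e ≤ P)
    (T U : Finset ℕ) (hT : ∀ t ∈ T, 2 ≤ t ∧ t ≤ P) (hU : ∀ w ∈ U, P + G ≤ w)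
    (hUne : U.Nonempty) (hsum : ∑ t ∈ T, t = e + ∑ w ∈ U, w) :
    K * ∏ w ∈ U, w ≤ ∏ t ∈ T, t := by
  classical
  have hKr : (1 : ℝ) ≤ K := by exact_mod_cast hK
  have hP16 : (16 : ℝ) ≤ P := hB.1
  have hP0 : (0 : ℝ) < P := by linarith
  have hlP2 : 2 * Real.log K + 2 ≤ Real.log P := hB.2.2.2
  have hlK : 0 ≤ Real.log K := Real.log_nonneg hKr
  have hT0 : ∀ t ∈ T, (0 : ℝ) < t := by
    intro t ht
    have := (hT t ht).1
    exact_mod_cast (by omega : 0 < t)
  have hU0 : ∀ w ∈ U, (0 : ℝ) < w := by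
    intro w hw
    have := hU w hw
    have h1 : 0 < w := by omega
    exact_mod_cast h1
  have hUP : ∀ w ∈ U, (P : ℝ) ≤ w := by
    intro w hw
    have := hU w hw
    exact_mod_cast (by omega : P ≤ w)
  -- logarithmic form
  have hmain : Real.log K + ∑ w ∈ U, Real.log w ≤ ∑ t ∈ T, Real.log t := by
    have hgT0 : ∀ t ∈ T, 0 ≤ g P t := by
      intro t ht
      have h1 : (2 : ℝ) ≤ t := by exact_mod_cast (hT t ht).1
      have h2 : (t : ℝ) ≤ P := by exact_mod_cast (hT t ht).2
      rcases le_total (t : ℝ) (P / 2) with h | h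
      · exact g_small hB h1 h
      · refine le_trans ?_ (g_big hP16 h h2)
        apply mul_nonneg
        · rw [sub_nonneg, div_le_one hP0]; exact h2
        · linarith
    have hgU0 : ∀ w ∈ U, 0 ≤ -g P w := by
      intro w hw
      refine le_trans ?_ (g_upper hP16 (hUP w hw))
      apply mul_nonneg
      · rw [sub_nonneg, one_le_div hP0]; exact hUP w hw
      · linarith
    have hlogT : ∑ t ∈ T, Real.log t = (∑ t ∈ T, (t : ℝ)) / P * Real.log P + ∑ t ∈ T, g P t := by
      rw [Finset.sum_div, Finset.sum_mul, ← Finset.sum_add_distrib]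
      apply Finset.sum_congr rfl
      intro t _
      unfold g
      ring
    have hlogU : ∑ w ∈ U, Real.log w = (∑ w ∈ U, (w : ℝ)) / P * Real.log P - ∑ w ∈ U, -g P w := by
      rw [Finset.sum_div, Finset.sum_mul, ← Finset.sum_sub_distrib]
      apply Finset.sum_congr rfl
      intro w _
      unfold g
      ring
    have hsumr : (∑ t ∈ T, (t : ℝ)) = e + ∑ w ∈ U, (w : ℝ) := by
      have h := congrArg (fun x : ℕ => (x : ℝ)) hsum
      simp only at h
      push_cast at h
      exact h
    have hlP0 : 0 ≤ Real.log P := by linarith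
    have heP : 0 ≤ (e : ℝ) / P * Real.log P := by positivity
    suffices hs : Real.log K ≤ ∑ t ∈ T, g P t + ∑ w ∈ U, -g P w by
      rw [hlogT, hlogU, hsumr, add_div, add_mul]
      linarith
    by_cases hmid : ∃ t ∈ T, 2 * K ≤ t ∧ 2 * t ≤ P
    · obtain ⟨t, ht, ht1, ht2⟩ := hmid
      have h1 : (2 : ℝ) * K ≤ t := by exact_mod_cast ht1
      have h2 : (t : ℝ) ≤ P / 2 := by
        have : (2 : ℝ) * t ≤ P := by exact_mod_cast ht2
        linarith
      have h3 := g_mid hKr hB h1 h2
      have h4 : g P t ≤ ∑ t ∈ T, g P t := Finset.single_le_sum (f := fun t : ℕ => g P t) hgT0 ht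
      have h5 : 0 ≤ ∑ w ∈ U, -g P w := Finset.sum_nonneg hgU0
      linarith
    · push Not at hmid
      set T1 := T.filter (fun t => P < 2 * t) with hT1
      set T2 := T.filter (fun t => ¬ P < 2 * t) with hT2
      have hsplit : ∑ t ∈ T1, t + ∑ t ∈ T2, t = ∑ t ∈ T, t := Finset.sum_filter_add_sum_filter_not _ _ _
      have hT2sub : T2 ⊆ Finset.range (2 * K) := by
        intro t ht
        rw [hT2, Finset.mem_filter] at ht
        rw [Finset.mem_range]
        by_contra hcon
        push Not at hcon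
        have := hmid t ht.1 hcon
        omega
      have hT2sum : ∑ t ∈ T2, t ≤ 4 * K ^ 2 := by
        have h5 : ∑ t ∈ T2, t ≤ ∑ t ∈ Finset.range (2 * K), 2 * K := by
          refine le_trans (Finset.sum_le_sum_of_subset hT2sub) ?_
          apply Finset.sum_le_sum
          intro i hi
          have := Finset.mem_range.mp hi
          omega
        rw [Finset.sum_const, Finset.card_range, smul_eq_mul] at h5
        refine le_trans h5 (le_of_eq ?_)
        ring
      have hUlow : U.card * (P + G) ≤ ∑ w ∈ U, w := by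
        have := Finset.card_nsmul_le_sum U (fun w => w) (P + G) hU
        simpa using this
      have hT1up : ∑ t ∈ T1, t ≤ T1.card * P := by
        have := Finset.sum_le_card_nsmul T1 (fun t => t) P (by
          intro t ht
          rw [hT1, Finset.mem_filter] at ht
          exact (hT t ht.1).2)
        simpa using this
      have hcard : U.card + 1 ≤ T1.card := by
        by_contra hcon
        push Not at hcon
        have h6 : T1.card ≤ U.card := by omega
        have h7 : T1.card * P ≤ U.card * P := Nat.mul_le_mul_right _ h6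
        have h8 : U.card * (P + G) = U.card * P + U.card * G := by ring
        have h9 : 1 ≤ U.card := Finset.card_pos.mpr hUne
        have h10 : G ≤ U.card * G := Nat.le_mul_of_pos_left _ h9
        omega
      have hgT1 : ∑ t ∈ T1, g P t ≤ ∑ t ∈ T, g P t :=
        Finset.sum_le_sum_of_subset_of_nonneg (Finset.filter_subset _ _) (fun i hi _ => hgT0 i hi)
      have h11 : ∑ t ∈ T1, (1 - (t : ℝ) / P) * (Real.log P - 2) ≤ ∑ t ∈ T1, g P t := by
        apply Finset.sum_le_sum
        intro t ht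
        rw [hT1, Finset.mem_filter] at ht
        have h12 : (P : ℝ) < 2 * t := by exact_mod_cast ht.2
        exact g_big hP16 (by linarith) (by exact_mod_cast (hT t ht.1).2)
      have h12 : ∑ w ∈ U, ((w : ℝ) / P - 1) * (Real.log P - 2) ≤ ∑ w ∈ U, -g P w := by
        apply Finset.sum_le_sum
        intro w hw
        exact g_upper hP16 (hUP w hw)
      have h13 : ∑ t ∈ T1, (1 - (t : ℝ) / P) * (Real.log P - 2) =
          (T1.card - (∑ t ∈ T1, (t : ℝ)) / P) * (Real.log P - 2) := by
        rw [← Finset.sum_mul, Finset.sum_sub_distrib, Finset.sum_div]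
        simp
      have h14 : ∑ w ∈ U, ((w : ℝ) / P - 1) * (Real.log P - 2) =
          ((∑ w ∈ U, (w : ℝ)) / P - U.card) * (Real.log P - 2) := by
        rw [← Finset.sum_mul, Finset.sum_sub_distrib, Finset.sum_div]
        simp
      have h15 : (∑ t ∈ T1, (t : ℝ)) ≤ e + ∑ w ∈ U, (w : ℝ) := by
        rw [← hsumr]
        have h := (Nat.cast_le (α := ℝ)).mpr (by omega : ∑ t ∈ T1, t ≤ ∑ t ∈ T, t)
        push_cast at h
        exact h
      have h16 : (U.card : ℝ) + 1 ≤ T1.card := by exact_mod_cast hcard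
      have h17 : (e : ℝ) / P ≤ 1 / 2 := by
        rw [div_le_iff₀ hP0]
        have : (2 : ℝ) * e ≤ P := by exact_mod_cast he
        linarith
      have h18 : (∑ t ∈ T1, (t : ℝ)) / P ≤ 1 / 2 + (∑ w ∈ U, (w : ℝ)) / P := by
        have := div_le_div_of_nonneg_right h15 hP0.le
        rw [add_div] at this
        linarith
      have h19 : (1 / 2 : ℝ) * (Real.log P - 2) ≤
          ((T1.card - (∑ t ∈ T1, (t : ℝ)) / P) + ((∑ w ∈ U, (w : ℝ)) / P - U.card)) *
            (Real.log P - 2) := by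
        apply mul_le_mul_of_nonneg_right _ (by linarith)
        linarith
      rw [add_mul] at h19
      linarith
  -- exponentiate
  have hprodU : Real.log (K * ∏ w ∈ U, (w : ℝ)) = Real.log K + ∑ w ∈ U, Real.log w := by
    rw [Real.log_mul (by linarith) (Finset.prod_ne_zero_iff.mpr (fun w hw => (hU0 w hw).ne')),
      Real.log_prod (fun w hw => (hU0 w hw).ne')]
  have hprodT : Real.log (∏ t ∈ T, (t : ℝ)) = ∑ t ∈ T, Real.log t :=
    Real.log_prod (fun w hw => (hT0 w hw).ne')
  have hfin : (K * ∏ w ∈ U, (w : ℝ)) ≤ ∏ t ∈ T, (t : ℝ) := by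
    rw [← Real.log_le_log_iff]
    · rw [hprodU, hprodT]; exact hmain
    · apply mul_pos (by linarith)
      exact Finset.prod_pos hU0
    · exact Finset.prod_pos hT0
  have h : ((K * ∏ w ∈ U, w : ℕ) : ℝ) ≤ ((∏ t ∈ T, t : ℕ) : ℝ) := by
    push_cast
    exact hfin
  exact Nat.cast_le.mp h

/-- the number of ordered representations of `n` as a sum of two primes -/
def rep (n : ℕ) : ℕ :=
  ((Finset.HasAntidiagonal.antidiagonal n).filter (fun q : ℕ × ℕ => q.1.Prime ∧ q.2.Prime)).card

/-- many representations for almost all even numbers -/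
def Many : Prop := ∃ N₀ : ℕ, ∀ N : ℕ, N₀ ≤ N → ∃ S : Finset ℕ, S ⊆ Finset.Icc 1 (N/2) ∧
  (S.card : ℝ) * Real.log N ≤ N / 2 ∧
  ∀ m ∈ Finset.Icc 1 (N/2), m ∉ S → (2*m:ℝ) / (2 * Real.log (2*m) ^ 2) ≤ rep (2*m)

lemma pick (n : ℕ) (F : Finset ℕ) (h : 2 * F.card + 1 < rep n) :
    ∃ p q : ℕ, p.Prime ∧ q.Prime ∧ p ≠ q ∧ p ∉ F ∧ q ∉ F ∧ p + q = n := by
  classical
  by_contra hcon
  push Not at hcon
  have hsub : (Finset.HasAntidiagonal.antidiagonal n).filter (fun q : ℕ × ℕ => q.1.Prime ∧ q.2.Prime) ⊆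
      (insert (n / 2) (F ∪ F.image (fun x => n - x))).image (fun p => (p, n - p)) := by
    rintro ⟨p, q⟩ hpq
    rw [Finset.mem_filter, Finset.HasAntidiagonal.mem_antidiagonal] at hpq
    obtain ⟨h1, h2, h3⟩ := hpq
    simp only at h1 h2 h3
    rw [Finset.mem_image]
    refine ⟨p, ?_, by rw [← h1]; simp⟩
    rw [Finset.mem_insert, Finset.mem_union, Finset.mem_image]
    by_cases hpqe : p = q
    · left; omega
    · right
      by_cases hpF : p ∈ F
      · exact Or.inl hpF
      · right
        by_cases hqF : q ∈ F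
        · exact ⟨q, hqF, by omega⟩
        · exact absurd h1 (hcon p q h2 h3 hpqe hpF hqF)
  have h1 := Finset.card_le_card hsub
  have h2 := Finset.card_image_le (s := insert (n / 2) (F ∪ F.image (fun x => n - x)))
    (f := fun p => (p, n - p))
  have h3 := Finset.card_insert_le (n / 2) (F ∪ F.image (fun x => n - x))
  have h4 := Finset.card_union_le F (F.image (fun x => n - x))
  have h5 := Finset.card_image_le (s := F) (f := fun x => n - x)
  unfold rep at h
  omega

lemma rep_big {x : ℝ} (hx : 65536 ≤ x) : 8 ≤ x / (2 * Real.log x ^ 2) := by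
  have hx0 : 0 < x := by linarith
  have h1 := Real.log_le_rpow_div hx0.le (show (0 : ℝ) < 1 / 4 by norm_num)
  have hlog0 : 0 < Real.log x := Real.log_pos (by linarith)
  have h2 : Real.log x ≤ 4 * x ^ (1 / 4 : ℝ) := by
    have : x ^ (1 / 4 : ℝ) / (1 / 4) = 4 * x ^ (1 / 4 : ℝ) := by ring
    linarith
  have h3 : Real.log x ^ 2 ≤ 16 * x ^ (1 / 2 : ℝ) := by
    have h4 : Real.log x ^ 2 ≤ (4 * x ^ (1 / 4 : ℝ)) ^ 2 := pow_le_pow_left₀ hlog0.le h2 2
    have h5 : (x ^ (1 / 4 : ℝ)) ^ 2 = x ^ (1 / 2 : ℝ) := by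
      rw [← Real.rpow_natCast, ← Real.rpow_mul hx0.le]; norm_num
    rw [mul_pow, h5] at h4
    linarith
  have h6 : x = x ^ (1 / 2 : ℝ) * x ^ (1 / 2 : ℝ) := by
    rw [← Real.rpow_add hx0]; norm_num
  have h7 : 256 ≤ x ^ (1 / 2 : ℝ) := by
    have : (65536 : ℝ) ^ (1 / 2 : ℝ) ≤ x ^ (1 / 2 : ℝ) :=
      Real.rpow_le_rpow (by norm_num) hx (by norm_num)
    have h8 : (65536 : ℝ) ^ (1 / 2 : ℝ) = 256 := by
      rw [← Real.sqrt_eq_rpow, show (65536 : ℝ) = 256 ^ 2 by norm_num,
        Real.sqrt_sq (by norm_num)]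
    linarith
  rw [le_div_iff₀ (by positivity)]
  set y := x ^ (1 / 2 : ℝ)
  nlinarith

lemma four (hM : Many) : ∃ m0 : ℕ, ∀ m : ℕ, m0 ≤ m → ∃ T : Finset ℕ,
    (∀ t ∈ T, t.Prime) ∧ ∑ t ∈ T, t = 2 * m ∧ T.card ≤ 4 ∧ 3 ∉ T := by
  classical
  obtain ⟨N₀, hN₀⟩ := hM
  obtain ⟨N1, hN1⟩ := exists_nat_gt (Real.exp 24)
  refine ⟨N₀ + N1 + 200000, ?_⟩
  intro m hm
  obtain ⟨S, _, hScard, hSrep⟩ := hN₀ (2 * m) (by omega)
  have hlog : 24 ≤ Real.log ((2 * m : ℕ) : ℝ) := by
    rw [Real.le_log_iff_exp_le (by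
      have : 0 < 2 * m := by omega
      exact_mod_cast this)]
    have : N1 ≤ 2 * m := by omega
    have h1 : (N1 : ℝ) ≤ ((2 * m : ℕ) : ℝ) := by exact_mod_cast this
    linarith
  have hS : 24 * S.card ≤ m := by
    have h1 : (S.card : ℝ) * 24 ≤ (S.card : ℝ) * Real.log ((2 * m : ℕ) : ℝ) :=
      mul_le_mul_of_nonneg_left hlog (by positivity)
    have h2 : ((2 * m : ℕ) : ℝ) / 2 = m := by push_cast; ring
    rw [h2] at hScard
    have h3 : (S.card : ℝ) * 24 ≤ m := le_trans h1 hScard
    have h4 : S.card * 24 ≤ m := by exact_mod_cast h3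
    omega
  -- choose m1
  have hex : ∃ m1 ∈ Finset.Icc (m / 4 + 1) (m / 2), m1 ∉ S ∧ m - m1 ∉ S := by
    by_contra hcon
    push Not at hcon
    have hsub : Finset.Icc (m / 4 + 1) (m / 2) ⊆ S ∪ S.image (fun x => m - x) := by
      intro m1 hm1
      rw [Finset.mem_union, Finset.mem_image]
      by_cases h1 : m1 ∈ S
      · exact Or.inl h1
      · right
        refine ⟨m - m1, hcon m1 hm1 h1, ?_⟩
        rw [Finset.mem_Icc] at hm1
        omega
    have h1 := Finset.card_le_card hsub
    rw [Nat.card_Icc] at h1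
    have h2 := Finset.card_union_le S (S.image (fun x => m - x))
    have h3 := Finset.card_image_le (s := S) (f := fun x => m - x)
    omega
  obtain ⟨m1, hm1, hm1S, hm2S⟩ := hex
  rw [Finset.mem_Icc] at hm1
  have hrep : ∀ m' : ℕ, m / 4 + 1 ≤ m' → m' ≤ m → m' ∉ S → 8 ≤ rep (2 * m') := by
    intro m' h1 h2 h3
    have h4 := hSrep m' (by rw [Finset.mem_Icc]; omega) h3
    have h5 : (65536 : ℝ) ≤ 2 * m' := by
      have : 65536 ≤ 2 * m' := by omega
      exact_mod_cast this
    have h6 := le_trans (rep_big h5) h4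
    exact_mod_cast h6
  obtain ⟨p1, p2, hp1, hp2, hne, hp1F, hp2F, hs1⟩ := pick (2 * m1) {3} (by
    have := hrep m1 (by omega) (by omega) hm1S
    rw [Finset.card_singleton]; omega)
  obtain ⟨p3, p4, hp3, hp4, hne', hp3F, hp4F, hs2⟩ := pick (2 * (m - m1)) {3, p1, p2} (by
    have := hrep (m - m1) (by omega) (by omega) hm2S
    have := Finset.card_le_three (a := 3) (b := p1) (c := p2)
    omega)
  simp only [Finset.mem_singleton] at hp1F hp2F
  simp only [Finset.mem_insert, Finset.mem_singleton, not_or] at hp3F hp4F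
  refine ⟨{p1, p2, p3, p4}, ?_, ?_, Finset.card_le_four, ?_⟩
  · intro t ht
    simp only [Finset.mem_insert, Finset.mem_singleton] at ht
    rcases ht with rfl | rfl | rfl | rfl <;> assumption
  · rw [Finset.sum_insert, Finset.sum_insert, Finset.sum_insert, Finset.sum_singleton]
    · omega
    · simp only [Finset.mem_singleton]; exact hne'
    · simp only [Finset.mem_insert, Finset.mem_singleton, not_or]
      exact ⟨fun h => hp3F.2.2 h.symm, fun h => hp4F.2.2 h.symm⟩
    · simp only [Finset.mem_insert, Finset.mem_singleton, not_or]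
      exact ⟨hne, fun h => hp3F.2.1 h.symm, fun h => hp4F.2.1 h.symm⟩
  · simp only [Finset.mem_insert, Finset.mem_singleton, not_or]
    exact ⟨fun h => hp1F h.symm, fun h => hp2F h.symm, fun h => hp3F.1 h.symm,
      fun h => hp4F.1 h.symm⟩

lemma five (hM : Many) : ∃ e0 : ℕ, ∀ e : ℕ, e0 ≤ e → ∃ T : Finset ℕ,
    (∀ t ∈ T, t.Prime) ∧ ∑ t ∈ T, t = e ∧ T.card ≤ 5 := by
  classical
  obtain ⟨m0, hm0⟩ := four hM
  refine ⟨2 * m0 + 5, ?_⟩
  intro e he
  rcases Nat.even_or_odd' e with ⟨c, rfl | rfl⟩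
  · obtain ⟨T, h1, h2, h3, _⟩ := hm0 c (by omega)
    exact ⟨T, h1, h2, by omega⟩
  · obtain ⟨T, h1, h2, h3, h4⟩ := hm0 (c - 1) (by omega)
    refine ⟨insert 3 T, ?_, ?_, ?_⟩
    · intro t ht
      rcases Finset.mem_insert.mp ht with rfl | ht
      · norm_num
      · exact h1 t ht
    · rw [Finset.sum_insert h4, h2]; omega
    · rw [Finset.card_insert_of_notMem h4]; omega

/-- the requirements on `P` hold for all large `P` -/
lemma big_eventually (K : ℝ) : ∃ X : ℕ, ∀ P : ℕ, X ≤ P → Big K P := by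
  have h1 : ∀ᶠ P : ℝ in Filter.atTop, 16 ≤ P := Filter.eventually_ge_atTop 16
  have h2 : ∀ᶠ P : ℝ in Filter.atTop, K ^ 4 ≤ P := Filter.eventually_ge_atTop _
  have h3 : ∀ᶠ P : ℝ in Filter.atTop, P ^ (-(1 / 4 : ℝ)) * Real.log P ≤ Real.log 2 := by
    have h4 : Filter.Tendsto (fun P : ℝ => Real.log P / P ^ (1 / 4 : ℝ)) Filter.atTop (nhds 0) :=
      (isLittleO_log_rpow_atTop (by norm_num : (0 : ℝ) < 1 / 4)).tendsto_div_nhds_zero
    have h5 := h4.eventually (gt_mem_nhds (Real.log_pos (by norm_num : (1 : ℝ) < 2)))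
    filter_upwards [h5, Filter.eventually_gt_atTop 0] with P hP hP0
    have : P ^ (-(1 / 4 : ℝ)) * Real.log P = Real.log P / P ^ (1 / 4 : ℝ) := by
      rw [Real.rpow_neg hP0.le]; field_simp
    rw [this]
    exact hP.le
  have h4 : ∀ᶠ P : ℝ in Filter.atTop, 2 * Real.log K + 2 ≤ Real.log P :=
    Real.tendsto_log_atTop.eventually_ge_atTop _
  have h5 : ∀ᶠ P : ℝ in Filter.atTop, Big K P := by
    filter_upwards [h1, h2, h3, h4] with P a b c d
    exact ⟨a, b, c, d⟩
  have h6 := tendsto_natCast_atTop_atTop (R := ℝ) |>.eventually h5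
  rw [Filter.eventually_atTop] at h6
  exact h6

/-- the main construction -/
lemma main (hM : Many) (C : ℕ) : ∃ (n : ℕ) (S Z : Finset ℕ), (∀ p ∈ S, p.Prime) ∧
    ∑ p ∈ S, p = n ∧
    (∀ Y : Finset ℕ, (∀ p ∈ Y, p.Prime) → ∑ p ∈ Y, p = n → ∏ p ∈ Y, p ≤ ∏ p ∈ S, p) ∧
    (∀ p ∈ Z, p.Prime) ∧ ∑ p ∈ Z, p = n ∧ S.card + C < Z.card := by
  classical
  obtain ⟨e0, he0⟩ := five hM
  obtain ⟨e, T0, hee0, h1, h2, h3, h4⟩ := exists_hasMin (C + 5) e0
  obtain ⟨T5, h5, h6, h7⟩ := he0 e hee0
  set K := ∏ t ∈ T0, t with hK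
  have hK1 : 1 ≤ K := Finset.one_le_prod' (fun t ht => (h1 t ht).one_lt.le)
  obtain ⟨X, hX⟩ := big_eventually (K : ℝ)
  obtain ⟨P, hP, hPX, hPJ, hiso⟩ := isolated (4 * K ^ 2 + 1) (X + 2 * e)
  have hB := hX P (by omega)
  set B := (Finset.range (P + 1)).filter Nat.Prime with hBdef
  have hBmem : ∀ p, p ∈ B ↔ p.Prime ∧ p ≤ P := by
    intro p
    rw [hBdef, Finset.mem_filter, Finset.mem_range]
    constructor
    · rintro ⟨a, b⟩; exact ⟨b, by omega⟩
    · rintro ⟨a, b⟩; exact ⟨by omega, a⟩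
  have hsubset : ∀ T : Finset ℕ, (∀ t ∈ T, t.Prime) → ∑ t ∈ T, t = e → T ⊆ B := by
    intro T hT hs t ht
    rw [hBmem]
    refine ⟨hT t ht, ?_⟩
    have : t ≤ e := by
      rw [← hs]
      exact Finset.single_le_sum (f := fun t : ℕ => t) (fun _ _ => Nat.zero_le _) ht
    omega
  have hT0B := hsubset T0 h1 h2
  have hT5B := hsubset T5 h5 h6
  have e1 := Finset.sum_sdiff (f := fun t : ℕ => t) hT0B
  have e2 := Finset.sum_sdiff (f := fun t : ℕ => t) hT5B
  have e3 := Finset.card_sdiff_add_card_eq_card hT0B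
  have e4 := Finset.card_sdiff_add_card_eq_card hT5B
  have e5 := Finset.prod_sdiff (f := fun t : ℕ => t) hT0B
  refine ⟨∑ t ∈ B \ T0, t, B \ T0, B \ T5, ?_, rfl, ?_, ?_, ?_, ?_⟩
  · intro p hp
    exact ((hBmem p).mp (Finset.mem_sdiff.mp hp).1).1
  · intro Y hY hYs
    set T := B \ Y with hT
    set U := Y \ B with hU
    have f1 := Finset.sum_inter_add_sum_sdiff B Y (fun t : ℕ => t)
    have f2 := Finset.sum_inter_add_sum_sdiff Y B (fun t : ℕ => t)
    have f3 := Finset.prod_inter_mul_prod_sdiff B Y (fun t : ℕ => t)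
    have f4 := Finset.prod_inter_mul_prod_sdiff Y B (fun t : ℕ => t)
    rw [Finset.inter_comm Y B] at f2 f4
    rw [← hT] at f1 f3
    rw [← hU] at f2 f4
    have hsumT : ∑ t ∈ T, t = e + ∑ w ∈ U, w := by omega
    have hTB : ∀ t ∈ T, t.Prime ∧ t ≤ P := fun t ht => (hBmem t).mp (Finset.mem_sdiff.mp ht).1
    have hkey : K * ∏ w ∈ U, w ≤ ∏ t ∈ T, t := by
      rcases Finset.eq_empty_or_nonempty U with hUe | hUne
      · rw [hUe] at hsumT ⊢
        simp only [Finset.prod_empty, mul_one]
        apply h4 T (fun t ht => (hTB t ht).1)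
        rw [hsumT]; simp
      · apply exchange hK1 hB (G := 4 * K ^ 2 + 1) (e := e) (by omega) (by omega) T U
          (fun t ht => ⟨(hTB t ht).1.two_le, (hTB t ht).2⟩) ?_ hUne hsumT
        intro w hw
        have hwp : w.Prime := hY w (Finset.mem_sdiff.mp hw).1
        have hwB : w ∉ B := (Finset.mem_sdiff.mp hw).2
        have hwP : P < w := by
          by_contra hcon
          exact hwB ((hBmem w).mpr ⟨hwp, by omega⟩)
        by_contra hcon
        push Not at hcon
        have := (hiso (w - P) (by omega) (by omega)).1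
        have h8 : P + (w - P) = w := by omega
        rw [h8] at this
        exact this hwp
    -- compare products
    have hTpos : 0 < ∏ t ∈ T, t := Finset.prod_pos (fun t ht => (hTB t ht).1.pos)
    have hKpos : 0 < K := hK1
    set I := ∏ t ∈ B ∩ Y, t with hI
    have g1 : (∏ p ∈ Y, p) * (K * ∏ t ∈ T, t) ≤ (∏ p ∈ B \ T0, p) * (K * ∏ t ∈ T, t) := by
      calc (∏ p ∈ Y, p) * (K * ∏ t ∈ T, t) = (I * ∏ t ∈ T, t) * (K * ∏ w ∈ U, w) := by
            rw [← f4]; ring
        _ ≤ (I * ∏ t ∈ T, t) * ∏ t ∈ T, t := Nat.mul_le_mul_left _ hkey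
        _ = (∏ t ∈ B, t) * ∏ t ∈ T, t := by rw [f3]
        _ = (∏ p ∈ B \ T0, p) * (K * ∏ t ∈ T, t) := by rw [← e5]; ring
    exact Nat.le_of_mul_le_mul_right g1 (by positivity)
  · intro p hp
    exact ((hBmem p).mp (Finset.mem_sdiff.mp hp).1).1
  · omega
  · omega

end Pool.Agent.R447.PrimePart
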